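import Mathlib

open Filter Topology Set MeasureTheory

namespace BSDS

lemma AbelLim_cpow {t : ℝ} (ht : 0 < t) :
    ((t : ℂ) ^ ((1 / 2 : ℂ) - 1)) = ((t ^ (-(1 / 2) : ℝ) : ℝ) : ℂ) := by
  rw [Complex.ofReal_cpow ht.le]
  congr 1
  push_cast
  norm_num

/-- `∫_0^∞ e^{-Y} Y^{-1/2} dY = √π` and `∫_0^∞ e^{-Y} Y^{-1/2} log Y dY = Γ'(1/2)
= -√π (γ + 2 log 2)` (`Real.hasDerivAt_Gamma_one_half`, and the derivative of the Gamma integral:
`Real.GammaIntegral`/`mellin_hasDerivAt_of_isBigO_rpow`), with integrability. -/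
theorem gamma_half_log :
    IntegrableOn (fun Y : ℝ => Real.exp (-Y) * Y ^ (-(1 / 2) : ℝ)) (Ioi 0) ∧
    ∫ Y in Ioi (0 : ℝ), Real.exp (-Y) * Y ^ (-(1 / 2) : ℝ) = Real.sqrt Real.pi ∧
    IntegrableOn (fun Y : ℝ => Real.exp (-Y) * Y ^ (-(1 / 2) : ℝ) * |Real.log Y|) (Ioi 0) ∧
    ∫ Y in Ioi (0 : ℝ), Real.exp (-Y) * Y ^ (-(1 / 2) : ℝ) * Real.log Y
      = -Real.sqrt Real.pi * (Real.eulerMascheroniConstant + 2 * Real.log 2) := by
  have e1 : (1 / 2 : ℝ) - 1 = -(1 / 2) := by norm_num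
  have hhalf : (0 : ℝ) < 1 / 2 := by norm_num
  have h1 : IntegrableOn (fun Y : ℝ => Real.exp (-Y) * Y ^ (-(1 / 2) : ℝ)) (Ioi 0) := by
    have := Real.GammaIntegral_convergent hhalf
    rwa [e1] at this
  have h2 : ∫ Y in Ioi (0 : ℝ), Real.exp (-Y) * Y ^ (-(1 / 2) : ℝ) = Real.sqrt Real.pi := by
    have := Real.Gamma_eq_integral hhalf
    rw [e1, Real.Gamma_one_half_eq] at this
    exact this.symm
  have hs : 0 < ((1 / 2 : ℂ)).re := by norm_num
  have key : MellinConvergent (fun t : ℝ => Real.log t • ((Real.exp (-t) : ℝ) : ℂ)) (1 / 2 : ℂ) := by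
    refine (mellin_hasDerivAt_of_isBigO_rpow (E := ℂ) (a := (1 / 2 : ℂ).re + 1) (b := 0)
      ?_ ?_ (lt_add_one _) ?_ hs).1
    · refine (Continuous.continuousOn ?_).locallyIntegrableOn measurableSet_Ioi
      exact Complex.continuous_ofReal.comp (Real.continuous_exp.comp continuous_neg)
    · rw [← Asymptotics.isBigO_norm_left]
      simp_rw [Complex.norm_real, Asymptotics.isBigO_norm_left]
      simpa only [neg_one_mul] using (isLittleO_exp_neg_mul_rpow_atTop zero_lt_one _).isBigO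
    · simp_rw [neg_zero, Real.rpow_zero]
      refine Asymptotics.isBigO_const_of_tendsto (?_ : Tendsto _ _ (𝓝 (1 : ℂ))) one_ne_zero
      rw [(by simp : (1 : ℂ) = Real.exp (-0))]
      exact (Complex.continuous_ofReal.comp
        (Real.continuous_exp.comp continuous_neg)).continuousWithinAt
  have h3 : IntegrableOn (fun Y : ℝ => Real.exp (-Y) * Y ^ (-(1 / 2) : ℝ) * |Real.log Y|)
      (Ioi 0) := by
    have h4 : IntegrableOn (fun t : ℝ => (t : ℂ) ^ ((1 / 2 : ℂ) - 1) •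
        (Real.log t • ((Real.exp (-t) : ℝ) : ℂ))) (Ioi 0) := key
    have h5 := h4.norm
    refine IntegrableOn.congr_fun h5 ?_ measurableSet_Ioi
    intro t ht
    have ht' : 0 < t := ht
    show ‖(t : ℂ) ^ ((1 / 2 : ℂ) - 1) • (Real.log t • ((Real.exp (-t) : ℝ) : ℂ))‖ = _
    rw [AbelLim_cpow ht', norm_smul, norm_smul, Complex.norm_real, Complex.norm_real,
      Real.norm_of_nonneg (Real.rpow_nonneg ht'.le _), Real.norm_of_nonneg (Real.exp_pos _).le,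
      Real.norm_eq_abs]
    ring
  refine ⟨h1, h2, h3, ?_⟩
  have hG1 := Complex.hasDerivAt_GammaIntegral hs
  have hG2 : HasDerivAt Complex.GammaIntegral
      (-(Real.sqrt Real.pi : ℝ) * ((Real.eulerMascheroniConstant : ℝ) + 2 * Complex.log 2) : ℂ)
      (1 / 2) := by
    refine Complex.hasDerivAt_Gamma_one_half.congr_of_eventuallyEq ?_
    have : IsOpen {s : ℂ | 0 < s.re} := Complex.continuous_re.isOpen_preimage _ isOpen_Ioi
    filter_upwards [this.mem_nhds hs] with a ha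
    exact (Complex.Gamma_eq_integral ha).symm
  have hG3 := hG1.unique hG2
  have hG4 : (∫ t : ℝ in Ioi 0, (t : ℂ) ^ ((1 / 2 : ℂ) - 1) * (Real.log t * Real.exp (-t))) =
      ((∫ Y in Ioi (0 : ℝ), Real.exp (-Y) * Y ^ (-(1 / 2) : ℝ) * Real.log Y : ℝ) : ℂ) := by
    rw [← integral_complex_ofReal]
    apply setIntegral_congr_fun measurableSet_Ioi
    intro t ht
    have ht' : 0 < t := ht
    show (t : ℂ) ^ ((1 / 2 : ℂ) - 1) * (Real.log t * Real.exp (-t)) = _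
    rw [AbelLim_cpow ht']
    push_cast
    ring
  rw [hG4] at hG3
  have hG5 : (-(Real.sqrt Real.pi : ℝ) * ((Real.eulerMascheroniConstant : ℝ) + 2 * Complex.log 2) : ℂ)
      = ((-Real.sqrt Real.pi * (Real.eulerMascheroniConstant + 2 * Real.log 2) : ℝ) : ℂ) := by
    have : Complex.log 2 = ((Real.log 2 : ℝ) : ℂ) := by
      rw [Complex.ofReal_log (by norm_num)]; norm_num
    rw [this]
    push_cast
    ring
  rw [hG5] at hG3
  exact_mod_cast hG3

lemma AbelLim_bd (φ : ℝ → ℝ) (ρ K : ℝ)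
    (h1 : ∀ X : ℝ, 0 < X → X ≤ 1 → |φ X| ≤ K)
    (h2 : ∀ X : ℝ, 1 ≤ X → |φ X + ρ * Real.log X| ≤ K)
    {x Y : ℝ} (hx : 0 < x) (hx1 : x ≤ 1) (hY : 0 < Y) :
    |φ (Y / x) + ρ * Real.log (Y / x) - ρ * Real.log Y| ≤ K + 2 * |ρ| * |Real.log Y| := by
  have hYx : 0 < Y / x := div_pos hY hx
  have hK : |φ (Y / x) + ρ * Real.log (Y / x)| ≤ K + |ρ| * |Real.log Y| := by
    rcases le_total (Y / x) 1 with hle | hle
    · have h3 := h1 _ hYx hle
      have h4 : |Real.log (Y / x)| ≤ |Real.log Y| := by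
        have h5 : Real.log (Y / x) ≤ 0 := Real.log_nonpos hYx.le hle
        have h6 : Real.log (Y / x) = Real.log Y - Real.log x := Real.log_div hY.ne' hx.ne'
        have h7 : Real.log x ≤ 0 := Real.log_nonpos hx.le hx1
        have h8 : Real.log Y ≤ 0 := by linarith
        rw [abs_of_nonpos h5, abs_of_nonpos h8]
        linarith
      calc |φ (Y / x) + ρ * Real.log (Y / x)| ≤ |φ (Y / x)| + |ρ * Real.log (Y / x)| :=
            abs_add_le _ _
        _ = |φ (Y / x)| + |ρ| * |Real.log (Y / x)| := by rw [abs_mul]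
        _ ≤ K + |ρ| * |Real.log Y| := add_le_add h3 (mul_le_mul_of_nonneg_left h4 (abs_nonneg _))
    · have h3 := h2 _ hle
      have h4 : 0 ≤ |ρ| * |Real.log Y| := by positivity
      linarith
  calc |φ (Y / x) + ρ * Real.log (Y / x) - ρ * Real.log Y|
      ≤ |φ (Y / x) + ρ * Real.log (Y / x)| + |ρ * Real.log Y| := abs_sub _ _
    _ = |φ (Y / x) + ρ * Real.log (Y / x)| + |ρ| * |Real.log Y| := by rw [abs_mul]
    _ ≤ K + 2 * |ρ| * |Real.log Y| := by linarith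

lemma AbelLim_subst (φ : ℝ → ℝ) {x : ℝ} (hx : 0 < x) :
    Real.sqrt (x / Real.pi) *
      (∫ X in Ioi (0 : ℝ), Real.exp (-(x * X)) * (X ^ (-(1 / 2) : ℝ) * φ X)) =
    (Real.sqrt Real.pi)⁻¹ *
      ∫ Y in Ioi (0 : ℝ), Real.exp (-Y) * Y ^ (-(1 / 2) : ℝ) * φ (Y / x) := by
  have h1 := integral_comp_mul_left_Ioi
    (fun Y : ℝ => Real.exp (-Y) * ((Y / x) ^ (-(1 / 2) : ℝ) * φ (Y / x))) 0 hx
  rw [mul_zero] at h1
  have h2 : ∫ X in Ioi (0 : ℝ), Real.exp (-(x * X)) * (X ^ (-(1 / 2) : ℝ) * φ X) =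
      ∫ X in Ioi (0 : ℝ), Real.exp (-(x * X)) * ((x * X / x) ^ (-(1 / 2) : ℝ) * φ (x * X / x)) := by
    apply setIntegral_congr_fun measurableSet_Ioi
    intro X _
    show Real.exp (-(x * X)) * (X ^ (-(1 / 2) : ℝ) * φ X) =
      Real.exp (-(x * X)) * ((x * X / x) ^ (-(1 / 2) : ℝ) * φ (x * X / x))
    rw [mul_div_cancel_left₀ _ hx.ne']
  rw [h2, h1]
  have h3 : ∫ Y in Ioi (0 : ℝ), Real.exp (-Y) * ((Y / x) ^ (-(1 / 2) : ℝ) * φ (Y / x)) =
      Real.sqrt x * ∫ Y in Ioi (0 : ℝ), Real.exp (-Y) * Y ^ (-(1 / 2) : ℝ) * φ (Y / x) := by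
    rw [← integral_const_mul]
    apply setIntegral_congr_fun measurableSet_Ioi
    intro Y hY
    have hY' : 0 < Y := hY
    show Real.exp (-Y) * ((Y / x) ^ (-(1 / 2) : ℝ) * φ (Y / x)) =
      Real.sqrt x * (Real.exp (-Y) * Y ^ (-(1 / 2) : ℝ) * φ (Y / x))
    have h4 : (Y / x) ^ (-(1 / 2) : ℝ) = Real.sqrt x * Y ^ (-(1 / 2) : ℝ) := by
      rw [Real.div_rpow hY'.le hx.le, Real.rpow_neg hx.le, Real.sqrt_eq_rpow]
      rw [div_inv_eq_mul]
      ring
    rw [h4]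
    ring
  rw [h3, smul_eq_mul]
  have h5 : Real.sqrt (x / Real.pi) = Real.sqrt x * (Real.sqrt Real.pi)⁻¹ := by
    rw [Real.sqrt_div hx.le]; rfl
  have h6 : Real.sqrt x * Real.sqrt x = x := Real.mul_self_sqrt hx.le
  rw [h5]
  set J := ∫ Y in Ioi (0 : ℝ), Real.exp (-Y) * Y ^ (-(1 / 2) : ℝ) * φ (Y / x)
  calc Real.sqrt x * (Real.sqrt Real.pi)⁻¹ * (x⁻¹ * (Real.sqrt x * J))
      = (Real.sqrt x * Real.sqrt x) * x⁻¹ * ((Real.sqrt Real.pi)⁻¹ * J) := by ring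
    _ = (Real.sqrt Real.pi)⁻¹ * J := by rw [h6, mul_inv_cancel₀ hx.ne', one_mul]

/-- Abelian theorem.  With `Y = xX`: `√(x/π) ∫ e^{-xX} X^{-1/2} φ(X) dX =
(1/√π) ∫ e^{-Y} Y^{-1/2} φ(Y/x) dY`, and `φ(Y/x) = g(Y/x) - ρ log Y + ρ log x` with
`g(X) = φ(X) + ρ log X → κ`, `|g| ≤ K` on `[1,∞)`, `|g(Y/x)| ≤ K + |ρ| |log Y|` for `Y < x ≤ 1`.
Dominated convergence and `gamma_half_log`. -/
theorem abel_lim (φ : ℝ → ℝ) (hm : Measurable φ) (ρ κ K : ℝ)
    (h1 : ∀ X : ℝ, 0 < X → X ≤ 1 → |φ X| ≤ K)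
    (h2 : ∀ X : ℝ, 1 ≤ X → |φ X + ρ * Real.log X| ≤ K)
    (h : Tendsto (fun X : ℝ => φ X + ρ * Real.log X) atTop (𝓝 κ)) :
    Tendsto (fun x : ℝ => Real.sqrt (x / Real.pi) *
      (∫ X in Ioi (0 : ℝ), Real.exp (-(x * X)) * (X ^ (-(1 / 2) : ℝ) * φ X)) - ρ * Real.log x)
      (𝓝[>] 0) (𝓝 (κ + ρ * (Real.eulerMascheroniConstant + 2 * Real.log 2))) := by
  obtain ⟨g1, g2, g3, g4⟩ := gamma_half_log
  have hpi : Real.sqrt Real.pi ≠ 0 := (Real.sqrt_pos.2 Real.pi_pos).ne'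
  set w : ℝ → ℝ := fun Y => Real.exp (-Y) * Y ^ (-(1 / 2) : ℝ) with hw
  have hw0 : ∀ Y ∈ Ioi (0 : ℝ), 0 ≤ w Y := fun Y hY =>
    mul_nonneg (Real.exp_pos _).le (Real.rpow_nonneg (le_of_lt hY) _)
  have g3' : IntegrableOn (fun Y : ℝ => w Y * |Real.log Y|) (Ioi 0) := g3
  have g1' : IntegrableOn w (Ioi 0) := g1
  have hwm : Measurable w := by
    rw [hw]
    apply Measurable.mul
    · fun_prop
    · exact Measurable.pow_const measurable_id _
  have g4i : IntegrableOn (fun Y : ℝ => w Y * Real.log Y) (Ioi 0) := by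
    refine Integrable.mono' g3' ((hwm.mul Real.measurable_log).aestronglyMeasurable) ?_
    rw [ae_restrict_iff' measurableSet_Ioi]
    apply Eventually.of_forall
    intro Y hY
    show ‖w Y * Real.log Y‖ ≤ w Y * |Real.log Y|
    rw [norm_mul, Real.norm_of_nonneg (hw0 Y hY), Real.norm_eq_abs]
  set F : ℝ → ℝ → ℝ := fun x Y =>
    w Y * (φ (Y / x) + ρ * Real.log (Y / x) - ρ * Real.log Y) with hF
  set bound : ℝ → ℝ := fun Y => K * w Y + 2 * |ρ| * (w Y * |Real.log Y|) with hbound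
  have hbi : IntegrableOn bound (Ioi 0) := (g1'.const_mul K).add (g3'.const_mul (2 * |ρ|))
  have hFm : ∀ x : ℝ, AEStronglyMeasurable (F x) (volume.restrict (Ioi 0)) := by
    intro x
    apply Measurable.aestronglyMeasurable
    apply hwm.mul
    apply Measurable.sub
    · apply Measurable.add
      · exact hm.comp (measurable_id.div_const x)
      · exact (Real.measurable_log.comp (measurable_id.div_const x)).const_mul ρ
    · exact Real.measurable_log.const_mul ρ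
  have hFb : ∀ x : ℝ, 0 < x → x ≤ 1 → ∀ᵐ Y ∂(volume.restrict (Ioi (0 : ℝ))),
      ‖F x Y‖ ≤ bound Y := by
    intro x hx hx1
    rw [ae_restrict_iff' measurableSet_Ioi]
    apply Eventually.of_forall
    intro Y hY
    have h3 := AbelLim_bd φ ρ K h1 h2 hx hx1 hY
    show ‖w Y * (φ (Y / x) + ρ * Real.log (Y / x) - ρ * Real.log Y)‖ ≤
      K * w Y + 2 * |ρ| * (w Y * |Real.log Y|)
    rw [norm_mul, Real.norm_of_nonneg (hw0 Y hY), Real.norm_eq_abs]
    calc w Y * |φ (Y / x) + ρ * Real.log (Y / x) - ρ * Real.log Y|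
        ≤ w Y * (K + 2 * |ρ| * |Real.log Y|) := mul_le_mul_of_nonneg_left h3 (hw0 Y hY)
      _ = K * w Y + 2 * |ρ| * (w Y * |Real.log Y|) := by ring
  have hnear : ∀ᶠ x : ℝ in 𝓝[>] 0, 0 < x ∧ x ≤ 1 := by
    have : Ioc (0 : ℝ) 1 ∈ 𝓝[>] (0 : ℝ) := Ioc_mem_nhdsGT one_pos
    filter_upwards [this] with x hx using hx
  have hlim : Tendsto (fun x : ℝ => ∫ Y in Ioi (0 : ℝ), F x Y) (𝓝[>] 0)
      (𝓝 (∫ Y in Ioi (0 : ℝ), w Y * (κ - ρ * Real.log Y))) := by
    apply tendsto_integral_filter_of_dominated_convergence bound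
    · exact Eventually.of_forall hFm
    · filter_upwards [hnear] with x hx using hFb x hx.1 hx.2
    · exact hbi
    · rw [ae_restrict_iff' measurableSet_Ioi]
      apply Eventually.of_forall
      intro Y hY
      have hY' : 0 < Y := hY
      apply Tendsto.const_mul
      apply Tendsto.sub_const
      have h3 : Tendsto (fun x : ℝ => Y / x) (𝓝[>] 0) atTop :=
        Tendsto.const_mul_atTop hY' tendsto_inv_nhdsGT_zero
      exact h.comp h3
  have hval : ∫ Y in Ioi (0 : ℝ), w Y * (κ - ρ * Real.log Y) =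
      Real.sqrt Real.pi * (κ + ρ * (Real.eulerMascheroniConstant + 2 * Real.log 2)) := by
    have h3 : ∀ Y : ℝ, w Y * (κ - ρ * Real.log Y) = κ * w Y - ρ * (w Y * Real.log Y) := by
      intro Y; ring
    simp_rw [h3]
    rw [integral_sub (g1'.const_mul κ) (g4i.const_mul ρ), integral_const_mul, integral_const_mul]
    have h4 : ∫ Y in Ioi (0 : ℝ), w Y = Real.sqrt Real.pi := g2
    have h5 : ∫ Y in Ioi (0 : ℝ), w Y * Real.log Y =
      -Real.sqrt Real.pi * (Real.eulerMascheroniConstant + 2 * Real.log 2) := g4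
    rw [h4, h5]
    ring
  rw [hval] at hlim
  have hlim2 := hlim.const_mul (Real.sqrt Real.pi)⁻¹
  rw [← mul_assoc, inv_mul_cancel₀ hpi, one_mul] at hlim2
  refine hlim2.congr' ?_
  filter_upwards [hnear] with x hx
  have hFi : IntegrableOn (F x) (Ioi 0) := Integrable.mono' hbi (hFm x) (hFb x hx.1 hx.2)
  rw [AbelLim_subst φ hx.1]
  have h3 : ∫ Y in Ioi (0 : ℝ), Real.exp (-Y) * Y ^ (-(1 / 2) : ℝ) * φ (Y / x) =
      (∫ Y in Ioi (0 : ℝ), F x Y) + ρ * Real.log x * Real.sqrt Real.pi := by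
    rw [← g2, ← integral_const_mul, ← integral_add hFi (g1.const_mul _)]
    apply setIntegral_congr_fun measurableSet_Ioi
    intro Y hY
    have hY' : 0 < Y := hY
    show Real.exp (-Y) * Y ^ (-(1 / 2) : ℝ) * φ (Y / x) =
      (Real.exp (-Y) * Y ^ (-(1 / 2) : ℝ)) *
        (φ (Y / x) + ρ * Real.log (Y / x) - ρ * Real.log Y) +
      ρ * Real.log x * (Real.exp (-Y) * Y ^ (-(1 / 2) : ℝ))
    rw [Real.log_div hY'.ne' hx.1.ne']
    ring
  rw [h3, mul_add]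
  have h4 : (Real.sqrt Real.pi)⁻¹ * (ρ * Real.log x * Real.sqrt Real.pi) = ρ * Real.log x := by
    field_simp
  rw [h4]
  ring

end BSDS
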