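import Pool.Agent.W_92892c.Defs

open MeasureTheory Set

namespace BSDS

lemma CS_deriv (a b v : ℝ) (hv : 0 < v) :
    HasDerivWithinAt (fun v : ℝ => a * v - b / v) (a + b / v ^ 2) (Ioi 0) v := by
  have h1 := (((hasDerivAt_id v).const_mul a).sub ((hasDerivAt_inv hv.ne').const_mul b))
  have h2 : (fun v : ℝ => a * v - b / v) = (fun v : ℝ => a * id v) - fun v : ℝ => b * v⁻¹ := by
    funext w
    simp [div_eq_mul_inv]
  rw [h2]
  refine (h1.congr_deriv ?_).hasDerivWithinAt
  field_simp
  ring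

lemma CS_inj (a b : ℝ) (ha : 0 < a) (hb : 0 < b) :
    InjOn (fun v : ℝ => a * v - b / v) (Ioi 0) := by
  have h : StrictMonoOn (fun v : ℝ => a * v - b / v) (Ioi 0) := by
    intro v hv w hw hvw
    have hv' : 0 < v := hv
    have h1 : a * v < a * w := mul_lt_mul_of_pos_left hvw ha
    have h2 : b / w < b / v := div_lt_div_of_pos_left hb hv' hvw
    show a * v - b / v < a * w - b / w
    linarith
  exact h.injOn

lemma CS_image (a b : ℝ) (ha : 0 < a) (hb : 0 < b) :
    (fun v : ℝ => a * v - b / v) '' (Ioi 0) = univ := by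
  refine eq_univ_of_forall fun t => ?_
  have hpos : 0 < t ^ 2 + 4 * a * b := by positivity
  have hsq := Real.sq_sqrt hpos.le
  have hlt : |t| < Real.sqrt (t ^ 2 + 4 * a * b) := by
    refine Real.lt_sqrt_of_sq_lt ?_
    rw [sq_abs]
    have : 0 < 4 * a * b := by positivity
    linarith
  set s := Real.sqrt (t ^ 2 + 4 * a * b) with hs
  have hts : 0 < t + s := by
    have := neg_abs_le t
    linarith
  have hv : 0 < (t + s) / (2 * a) := div_pos hts (by positivity)
  refine ⟨(t + s) / (2 * a), hv, ?_⟩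
  show a * ((t + s) / (2 * a)) - b / ((t + s) / (2 * a)) = t
  have e1 : a * ((t + s) / (2 * a)) = (t + s) / 2 := by field_simp
  have e2 : b / ((t + s) / (2 * a)) = (s - t) / 2 := by
    rw [div_div_eq_mul_div, div_eq_div_iff hts.ne' two_ne_zero]
    linear_combination (-1 : ℝ) * hsq
  rw [e1, e2]
  ring

lemma CS_dual (a b v : ℝ) (hv : 0 < v) :
    HasDerivWithinAt (fun v : ℝ => b / (a * v)) (-(b / (a * v ^ 2))) (Ioi 0) v := by
  have h1 := (hasDerivAt_inv hv.ne').const_mul (b / a)
  have h2 : (fun v : ℝ => b / (a * v)) = fun v : ℝ => b / a * v⁻¹ := by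
    funext w
    rw [div_mul_eq_div_div, div_eq_mul_inv (b / a)]
  rw [h2]
  refine (h1.congr_deriv ?_).hasDerivWithinAt
  rw [div_mul_eq_div_div, div_eq_mul_inv (b / a)]
  ring

lemma CS_dual_image (a b : ℝ) (ha : 0 < a) (hb : 0 < b) :
    (fun v : ℝ => b / (a * v)) '' (Ioi 0) = Ioi 0 := by
  ext t
  constructor
  · rintro ⟨v, hv, rfl⟩
    exact div_pos hb (mul_pos ha hv)
  · intro ht
    have ht' : 0 < t := ht
    refine ⟨b / (a * t), div_pos hb (mul_pos ha ht'), ?_⟩
    show b / (a * (b / (a * t))) = t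
    field_simp

lemma CS_dual_inj (a b : ℝ) (ha : 0 < a) (hb : 0 < b) :
    InjOn (fun v : ℝ => b / (a * v)) (Ioi 0) := by
  intro v hv w hw h
  have hv' : 0 < v := hv
  have hw' : 0 < w := hw
  have h' : b / (a * v) = b / (a * w) := h
  rw [div_eq_div_iff (by positivity) (by positivity)] at h'
  have h2 : (b * a) * w = (b * a) * v := by linarith
  exact (mul_left_cancel₀ (by positivity) h2).symm

/-- Cauchy-Schloemilch.  For `b = 0` it is the half line Gaussian integral (`integral_gaussian_Ioi`).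
For `b > 0`: the map `v ↦ b/(a v)` of `(0,∞)` onto itself shows
`∫ exp(-(av-b/v)²) dv = ∫ exp(-(av-b/v)²) b/(a v²) dv` (change of variables, e.g.
`integral_image_eq_integral_abs_deriv_smul` or `integral_comp_inv_Ioi`-type lemmas), so twice the
integral is `(1/a) ∫ exp(-(av-b/v)²) (a + b/v²) dv = (1/a) ∫_ℝ exp(-y²) dy = √π / a`, by
`y = a v - b/v`, an increasing bijection `(0,∞) → ℝ` with derivative `a + b/v²`.
Integrability: `integrableOn_image_iff_integrableOn_abs_deriv_smul` for the same `y` gives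
integrability of `exp(..) * (a + b/v²)`, which dominates `a * exp(..)`. -/
theorem cs_integral (a b : ℝ) (ha : 0 < a) (hb : 0 ≤ b) :
    IntegrableOn (fun v : ℝ => Real.exp (-(a * v - b / v) ^ 2)) (Ioi 0) ∧
    ∫ v in Ioi (0 : ℝ), Real.exp (-(a * v - b / v) ^ 2) = Real.sqrt Real.pi / (2 * a) := by
  rcases hb.eq_or_lt with hb0 | hb0
  · subst hb0
    have h1 : ∀ v : ℝ, Real.exp (-(a * v - 0 / v) ^ 2) = Real.exp (-(a ^ 2) * v ^ 2) := by
      intro v
      congr 1
      rw [zero_div]
      ring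
    simp_rw [h1]
    refine ⟨(integrable_exp_neg_mul_sq (by positivity)).integrableOn, ?_⟩
    rw [integral_gaussian_Ioi, Real.sqrt_div Real.pi_pos.le, Real.sqrt_sq ha.le]
    field_simp
  have hderiv : ∀ v ∈ Ioi (0 : ℝ), HasDerivWithinAt (fun v : ℝ => a * v - b / v)
      (a + b / v ^ 2) (Ioi 0) v := fun v hv => CS_deriv a b v hv
  have habs : ∀ v ∈ Ioi (0 : ℝ), |a + b / v ^ 2| = a + b / v ^ 2 := fun v _ =>
    abs_of_pos (by positivity)
  have hG : Integrable (fun y : ℝ => Real.exp (-y ^ 2)) := by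
    have := integrable_exp_neg_mul_sq (b := 1) one_pos
    simpa using this
  have hint := (integrableOn_image_iff_integrableOn_abs_deriv_smul measurableSet_Ioi hderiv
    (CS_inj a b ha hb0) (fun y : ℝ => Real.exp (-y ^ 2))).1 (by
      rw [CS_image a b ha hb0]
      exact hG.integrableOn)
  have hval := integral_image_eq_integral_abs_deriv_smul measurableSet_Ioi hderiv
    (CS_inj a b ha hb0) (fun y : ℝ => Real.exp (-y ^ 2))
  rw [CS_image a b ha hb0, setIntegral_univ] at hval
  have hG1 : ∫ y : ℝ, Real.exp (-y ^ 2) = Real.sqrt Real.pi := by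
    have := integral_gaussian 1
    simpa using this
  rw [hG1] at hval
  have hcont : ContinuousOn (fun v : ℝ => Real.exp (-(a * v - b / v) ^ 2)) (Ioi 0) := by
    refine Real.continuous_exp.comp_continuousOn ?_
    refine (ContinuousOn.pow (ContinuousOn.sub (by fun_prop) ?_) 2).neg
    exact ContinuousOn.div continuousOn_const continuousOn_id fun v hv => ne_of_gt hv
  have hint1 : IntegrableOn (fun v : ℝ => Real.exp (-(a * v - b / v) ^ 2)) (Ioi 0) := by
    have h1 : IntegrableOn (fun v : ℝ => a⁻¹ * (|a + b / v ^ 2| •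
        Real.exp (-(a * v - b / v) ^ 2))) (Ioi 0) := Integrable.const_mul hint _
    refine Integrable.mono' h1 (hcont.aestronglyMeasurable measurableSet_Ioi) ?_
    refine (ae_restrict_iff' measurableSet_Ioi).2 (Filter.Eventually.of_forall fun v hv => ?_)
    have hv' : 0 < v := hv
    rw [Real.norm_eq_abs, abs_of_pos (Real.exp_pos _), habs v hv, smul_eq_mul]
    have h2 : a⁻¹ * ((a + b / v ^ 2) * Real.exp (-(a * v - b / v) ^ 2)) =
        Real.exp (-(a * v - b / v) ^ 2) + a⁻¹ * (b / v ^ 2) * Real.exp (-(a * v - b / v) ^ 2) := by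
      field_simp
    rw [h2]
    have h3 : 0 ≤ a⁻¹ * (b / v ^ 2) * Real.exp (-(a * v - b / v) ^ 2) := by positivity
    linarith
  refine ⟨hint1, ?_⟩
  have hdual := integral_image_eq_integral_abs_deriv_smul measurableSet_Ioi
    (fun v hv => CS_dual a b v hv) (CS_dual_inj a b ha hb0)
    (fun v : ℝ => Real.exp (-(a * v - b / v) ^ 2))
  rw [CS_dual_image a b ha hb0] at hdual
  have hdual2 : ∫ v in Ioi (0 : ℝ), |-(b / (a * v ^ 2))| •
      Real.exp (-(a * (b / (a * v)) - b / (b / (a * v))) ^ 2) =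
      a⁻¹ * ∫ v in Ioi (0 : ℝ), b / v ^ 2 * Real.exp (-(a * v - b / v) ^ 2) := by
    rw [← integral_const_mul]
    refine setIntegral_congr_fun measurableSet_Ioi fun v hv => ?_
    have hv' : 0 < v := hv
    have e1 : |-(b / (a * v ^ 2))| = a⁻¹ * (b / v ^ 2) := by
      rw [abs_neg, abs_of_pos (by positivity)]
      field_simp
    have e2 : a * (b / (a * v)) - b / (b / (a * v)) = -(a * v - b / v) := by
      field_simp
      ring
    show |-(b / (a * v ^ 2))| • Real.exp (-(a * (b / (a * v)) - b / (b / (a * v))) ^ 2) =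
      a⁻¹ * (b / v ^ 2 * Real.exp (-(a * v - b / v) ^ 2))
    rw [e1, e2, neg_sq, smul_eq_mul, mul_assoc]
  rw [hdual2] at hdual
  have hint2 : IntegrableOn (fun v : ℝ => b / v ^ 2 * Real.exp (-(a * v - b / v) ^ 2))
      (Ioi 0) := by
    have h1 : IntegrableOn (fun v : ℝ => (|a + b / v ^ 2| • Real.exp (-(a * v - b / v) ^ 2)) -
        a * Real.exp (-(a * v - b / v) ^ 2)) (Ioi 0) := Integrable.sub hint (hint1.const_mul a)
    refine h1.congr_fun (fun v hv => ?_) measurableSet_Ioi
    show |a + b / v ^ 2| • Real.exp (-(a * v - b / v) ^ 2) -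
        a * Real.exp (-(a * v - b / v) ^ 2) = b / v ^ 2 * Real.exp (-(a * v - b / v) ^ 2)
    rw [habs v hv, smul_eq_mul]
    ring
  have hsum : ∫ v in Ioi (0 : ℝ), |a + b / v ^ 2| • Real.exp (-(a * v - b / v) ^ 2) =
      a * (∫ v in Ioi (0 : ℝ), Real.exp (-(a * v - b / v) ^ 2)) +
      ∫ v in Ioi (0 : ℝ), b / v ^ 2 * Real.exp (-(a * v - b / v) ^ 2) := by
    rw [← integral_const_mul, ← integral_add (hint1.const_mul a) hint2]
    refine setIntegral_congr_fun measurableSet_Ioi fun v hv => ?_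
    show |a + b / v ^ 2| • Real.exp (-(a * v - b / v) ^ 2) =
      a * Real.exp (-(a * v - b / v) ^ 2) + b / v ^ 2 * Real.exp (-(a * v - b / v) ^ 2)
    rw [habs v hv, smul_eq_mul]
    ring
  rw [hsum] at hval
  set I := ∫ v in Ioi (0 : ℝ), Real.exp (-(a * v - b / v) ^ 2) with hI
  set J := ∫ v in Ioi (0 : ℝ), b / v ^ 2 * Real.exp (-(a * v - b / v) ^ 2) with hJ
  have h4 : J = a * I := by
    rw [hdual]
    field_simp
  rw [h4] at hval
  rw [hval]
  field_simp
  ring

end BSDS
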