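import Pool.Agent.W_92892c.Defs

open MeasureTheory Set

namespace BSDS

variable {ι : Type} {c u : ι → ℝ} {a : ℝ} {L : ℂ → ℂ}

/-- `M = Σ |c i| e^{-a u i}`. -/
noncomputable def Mc (c u : ι → ℝ) (a : ℝ) : ℝ := ∑' i, |c i| * Real.exp (-(a * u i))

theorem DserBasic_norm (H : Hyp c u a L) (s : ℂ) (hs : a ≤ s.re) (i : ι) :
    ‖(c i : ℂ) * Complex.exp (-((u i : ℂ) * s))‖ ≤ |c i| * Real.exp (-(a * u i)) := by
  rw [norm_mul, Complex.norm_real, Real.norm_eq_abs, Complex.norm_exp, Complex.neg_re,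
    Complex.re_ofReal_mul]
  refine mul_le_mul_of_nonneg_left (Real.exp_le_exp.2 ?_) (abs_nonneg _)
  have h1 : 0 ≤ u i := by
    have := H.upos i
    linarith
  have h2 : u i * a ≤ u i * s.re := mul_le_mul_of_nonneg_left hs h1
  linarith

theorem DserBasic_open (a : ℝ) : IsOpen {s : ℂ | a < s.re} :=
  isOpen_lt continuous_const Complex.continuous_re

theorem Mc_nonneg (H : Hyp c u a L) : 0 ≤ Mc c u a := by
  unfold Mc
  exact tsum_nonneg fun i => mul_nonneg (abs_nonneg _) (Real.exp_pos _).le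

theorem Dser_summable (H : Hyp c u a L) (s : ℂ) (hs : a ≤ s.re) :
    Summable (fun i => (c i : ℂ) * Complex.exp (-((u i : ℂ) * s))) := by
  exact Summable.of_norm_bounded H.sm (DserBasic_norm H s hs)

theorem Dser_bound (H : Hyp c u a L) (s : ℂ) (hs : a ≤ s.re) : ‖Dser c u s‖ ≤ Mc c u a := by
  unfold Dser Mc
  exact tsum_of_norm_bounded H.sm.hasSum (DserBasic_norm H s hs)

/-- Termwise differentiation (`hasDerivAt_tsum_of_isPreconnected`, or
`differentiableOn_tsum_of_summable_norm` on `Re s > a`). -/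
theorem Dser_differentiableAt (H : Hyp c u a L) (s : ℂ) (hs : a < s.re) :
    DifferentiableAt ℂ (Dser c u) s := by
  have h1 : DifferentiableOn ℂ (Dser c u) {s : ℂ | a < s.re} := by
    refine Complex.differentiableOn_tsum_of_summable_norm H.sm (fun i => ?_) (DserBasic_open a)
      (fun i w hw => DserBasic_norm H w (le_of_lt hw) i)
    fun_prop
  exact h1.differentiableAt ((DserBasic_open a).mem_nhds hs)

/-- `|u e^{-u}| ≤ 1`: `‖Dser'(s)‖ ≤ Σ |c i| u i e^{-(a+1) u i} ≤ M` for `Re s ≥ a + 1`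
(or Cauchy's estimate `Complex.norm_deriv_le_of_forall_mem_sphere_norm_le` on the circle of
radius `1`, at points with `Re s ≥ a + 1`, closed disc in `Re ≥ a`, which needs only
`Dser_bound`). -/
theorem Dser_deriv_bound (H : Hyp c u a L) (s : ℂ) (hs : a + 1 < s.re) :
    ‖deriv (Dser c u) s‖ ≤ Mc c u a := by
  have h1 : ∀ z ∈ Metric.closedBall s 1, a < z.re := by
    intro z hz
    rw [Metric.mem_closedBall, dist_eq_norm] at hz
    have h2 := (Complex.abs_re_le_norm (z - s)).trans hz
    rw [Complex.sub_re, abs_le] at h2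
    linarith [h2.1]
  have h2 : DiffContOnCl ℂ (Dser c u) (Metric.ball s 1) := by
    refine DifferentiableOn.diffContOnCl fun z hz => ?_
    exact (Dser_differentiableAt H z (h1 z
      (Metric.closure_ball_subset_closedBall hz))).differentiableWithinAt
  have h3 := Complex.norm_deriv_le_of_forall_mem_sphere_norm_le one_pos h2
    (fun z hz => Dser_bound H z (h1 z (Metric.sphere_subset_closedBall hz)).le)
  rwa [div_one] at h3

/-- `L = exp (Dser)` on the open half plane. -/
theorem L_ne_zero (H : Hyp c u a L) (s : ℂ) (hs : a ≤ s.re) : L s ≠ 0 := by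
  rw [H.LD s hs]
  exact Complex.exp_ne_zero _

theorem Dser_deriv_eq (H : Hyp c u a L) (s : ℂ) (hs : a < s.re) :
    deriv (Dser c u) s = deriv L s / L s := by
  have h1 : L =ᶠ[nhds s] fun z => Complex.exp (Dser c u z) := by
    filter_upwards [(DserBasic_open a).mem_nhds hs] with z hz
    exact H.LD z (le_of_lt hz)
  have h2 : deriv L s = Complex.exp (Dser c u s) * deriv (Dser c u) s := by
    rw [h1.deriv_eq]
    exact (Dser_differentiableAt H s hs).hasDerivAt.cexp.deriv
  rw [h2, H.LD s hs.le, mul_div_cancel_left₀ _ (Complex.exp_ne_zero _)]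

/-- Real for real `x`. -/
theorem Dser_ofReal (H : Hyp c u a L) (x : ℝ) (hx : a ≤ x) :
    Dser c u (x : ℂ) = ((∑' i, c i * Real.exp (-(u i * x)) : ℝ) : ℂ) := by
  unfold Dser
  rw [Complex.ofReal_tsum]
  refine tsum_congr fun i => ?_
  push_cast
  rfl

end BSDS
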