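import Pool.Agent.W_92892c.CS

open MeasureTheory Set

namespace BSDS

lemma heat_aux (u w : ℝ) (hw : 0 < w) {v : ℝ} (hv : 0 < v) :
    (|(2 : ℝ)| * v ^ ((2 : ℝ) - 1)) • (Real.exp (-(w * v ^ (2 : ℝ))) *
      (v ^ (2 : ℝ)) ^ (-(1 / 2) : ℝ) * Real.exp (-(u ^ 2) / (4 * v ^ (2 : ℝ)))) =
    2 * Real.exp (-(u * Real.sqrt w)) *
      Real.exp (-(Real.sqrt w * v - (u / 2) / v) ^ 2) := by
  have h1 : v ^ ((2 : ℝ) - 1) = v := by
    rw [show (2 : ℝ) - 1 = 1 by norm_num, Real.rpow_one]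
  have h2 : (v ^ (2 : ℝ)) ^ (-(1 / 2) : ℝ) = v⁻¹ := by
    rw [← Real.rpow_mul hv.le, show (2 : ℝ) * (-(1 / 2)) = -1 by norm_num, Real.rpow_neg_one]
  have h3 : v ^ (2 : ℝ) = v ^ 2 := Real.rpow_two v
  have hs : Real.sqrt w ^ 2 = w := Real.sq_sqrt hw.le
  have h4 : -(w * v ^ 2) + -(u ^ 2) / (4 * v ^ 2) =
      -(u * Real.sqrt w) + -(Real.sqrt w * v - (u / 2) / v) ^ 2 := by
    have h5 : (Real.sqrt w * v - (u / 2) / v) ^ 2 =
        Real.sqrt w ^ 2 * v ^ 2 - u * Real.sqrt w + u ^ 2 / (4 * v ^ 2) := by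
      field_simp
      ring
    rw [h5, hs]
    ring
  rw [h1, h2, h3, abs_of_pos (by norm_num : (0 : ℝ) < 2), smul_eq_mul]
  have h6 : 2 * v * (Real.exp (-(w * v ^ 2)) * v⁻¹ * Real.exp (-(u ^ 2) / (4 * v ^ 2))) =
      2 * (Real.exp (-(w * v ^ 2)) * Real.exp (-(u ^ 2) / (4 * v ^ 2))) := by
    field_simp
  rw [h6, ← Real.exp_add, h4, Real.exp_add]
  ring

/-- Substitute `X = v²` (`dX = 2 v dv`): the integrand becomes `2 exp(-w v² - u²/(4v²))`, and with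
`a = √w`, `b = u/2` one has `w v² + u²/(4v²) = (av - b/v)² + 2ab`; `cs_integral` gives
`2 e^{-2ab} √π/(2a) = √(π/w) e^{-u√w}`.  (Change of variables on `(0,∞)`:
`integral_comp_rpow_Ioi`, `integrableOn_Ioi_comp_rpow_iff` with exponent 2, or
`integral_image_eq_integral_abs_deriv_smul`.) -/
theorem heat_laplace (u w : ℝ) (hu : 0 ≤ u) (hw : 0 < w) :
    IntegrableOn (fun X : ℝ => Real.exp (-(w * X)) * X ^ (-(1 / 2) : ℝ) *
      Real.exp (-(u ^ 2) / (4 * X))) (Ioi 0) ∧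
    ∫ X in Ioi (0 : ℝ), Real.exp (-(w * X)) * X ^ (-(1 / 2) : ℝ) *
      Real.exp (-(u ^ 2) / (4 * X))
      = Real.sqrt (Real.pi / w) * Real.exp (-(u * Real.sqrt w)) := by
  have ha : 0 < Real.sqrt w := Real.sqrt_pos.2 hw
  obtain ⟨hi, hv⟩ := cs_integral (Real.sqrt w) (u / 2) ha (by positivity)
  constructor
  · rw [← integrableOn_Ioi_comp_rpow_iff _ (two_ne_zero : (2 : ℝ) ≠ 0)]
    have h1 : IntegrableOn (fun v : ℝ => 2 * Real.exp (-(u * Real.sqrt w)) *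
        Real.exp (-(Real.sqrt w * v - (u / 2) / v) ^ 2)) (Ioi 0) := hi.const_mul _
    exact h1.congr_fun (fun v hv => (heat_aux u w hw hv).symm) measurableSet_Ioi
  · rw [← integral_comp_rpow_Ioi _ (two_ne_zero : (2 : ℝ) ≠ 0)]
    rw [setIntegral_congr_fun measurableSet_Ioi (fun v hv => heat_aux u w hw hv),
      integral_const_mul, hv, Real.sqrt_div Real.pi_pos.le]
    field_simp

end BSDS
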