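import Pool.Agent.W_92892c.WtLine

open MeasureTheory Set

namespace BSDS

/-- The line integral of `F` against the Gaussian. -/
noncomputable def lineInt (F : ℂ → ℂ) (b X : ℝ) : ℂ :=
  ∫ t : ℝ, Complex.exp (X * ((b : ℂ) + t * Complex.I) ^ 2) * F ((b : ℂ) + t * Complex.I)

/-- the base function for domination -/
theorem Ibp_base (X : ℝ) (hX : 0 < X) :
    Integrable (fun t : ℝ => (1 + t ^ 2) * Real.exp (-X * t ^ 2)) := by
  have h1 := integrable_exp_neg_mul_sq hX
  have h2 := integrable_rpow_mul_exp_neg_mul_sq hX (s := 2) (by norm_num)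
  have h3 : (fun t : ℝ => (1 + t ^ 2) * Real.exp (-X * t ^ 2)) =
      (fun t : ℝ => Real.exp (-X * t ^ 2)) + fun t : ℝ => t ^ (2 : ℝ) * Real.exp (-X * t ^ 2) := by
    funext t
    simp only [Pi.add_apply, Real.rpow_two]
    ring
  rw [h3]
  exact h1.add h2

theorem Ibp_line_cont (b : ℝ) : Continuous fun t : ℝ => (b : ℂ) + t * Complex.I := by
  fun_prop

theorem Ibp_int (G : ℝ → ℂ) (hG : Continuous G) (b M X : ℝ) (hX : 0 < X)
    (hM : ∀ t, ‖G t‖ ≤ M * (1 + t ^ 2)) :
    Integrable (fun t : ℝ => Complex.exp (X * ((b : ℂ) + t * Complex.I) ^ 2) * G t) := by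
  refine Integrable.mono' (g := fun t : ℝ =>
    Real.exp (X * b ^ 2) * M * ((1 + t ^ 2) * Real.exp (-X * t ^ 2)))
    ((Ibp_base X hX).const_mul _) ?_ ?_
  · refine Continuous.aestronglyMeasurable ?_
    fun_prop
  · refine Filter.Eventually.of_forall fun t => ?_
    rw [norm_mul, norm_gauss]
    have h1 : Real.exp (X * (b ^ 2 - t ^ 2)) = Real.exp (X * b ^ 2) * Real.exp (-X * t ^ 2) := by
      rw [← Real.exp_add]
      congr 1
      ring
    rw [h1]
    calc Real.exp (X * b ^ 2) * Real.exp (-X * t ^ 2) * ‖G t‖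
        ≤ Real.exp (X * b ^ 2) * Real.exp (-X * t ^ 2) * (M * (1 + t ^ 2)) :=
          mul_le_mul_of_nonneg_left (hM t) (by positivity)
      _ = Real.exp (X * b ^ 2) * M * ((1 + t ^ 2) * Real.exp (-X * t ^ 2)) := by ring

theorem Ibp_norm_sq (b t : ℝ) : ‖((b : ℂ) + t * Complex.I) ^ 2‖ = b ^ 2 + t ^ 2 := by
  rw [norm_pow]
  have h : ‖(b : ℂ) + t * Complex.I‖ = Real.sqrt (b ^ 2 + t ^ 2) := Complex.norm_add_mul_I b t
  rw [h, Real.sq_sqrt (by positivity)]

theorem Ibp_norm_le (b t : ℝ) : ‖(b : ℂ) + t * Complex.I‖ ≤ 1 + b ^ 2 + t ^ 2 := by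
  have h : ‖(b : ℂ) + t * Complex.I‖ ^ 2 = b ^ 2 + t ^ 2 := by
    rw [← norm_pow]
    exact Ibp_norm_sq b t
  nlinarith [sq_nonneg (‖(b : ℂ) + t * Complex.I‖ - 1), sq_nonneg b, sq_nonneg t]

/-- Differentiate `lineInt F b` under the integral sign: `d/dX = lineInt (ζ² F) b`
(`hasDerivAt_integral_of_dominated_loc_of_deriv_le`, for `Y` in `(X/2, 2X)` the norm of the
derivative of the integrand is at most `M (b²+t²) e^{2X b²} e^{-X t²/2}`). -/
theorem lineInt_hasDerivAt (F : ℂ → ℂ) (b M X : ℝ) (hX : 0 < X)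
    (hc : Continuous fun t : ℝ => F ((b : ℂ) + t * Complex.I))
    (hM : ∀ t : ℝ, ‖F ((b : ℂ) + t * Complex.I)‖ ≤ M) :
    HasDerivAt (fun Y : ℝ => lineInt F b Y) (lineInt (fun z => z ^ 2 * F z) b X) X := by
  have hM0 : 0 ≤ M := (norm_nonneg _).trans (hM 0)
  set F1 : ℝ → ℝ → ℂ := fun Y t =>
    Complex.exp (Y * ((b : ℂ) + t * Complex.I) ^ 2) * F ((b : ℂ) + t * Complex.I) with hF1
  set F2 : ℝ → ℝ → ℂ := fun Y t =>
    Complex.exp (Y * ((b : ℂ) + t * Complex.I) ^ 2) *
      (((b : ℂ) + t * Complex.I) ^ 2 * F ((b : ℂ) + t * Complex.I)) with hF2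
  have hcF1 : ∀ Y, Continuous (F1 Y) := by
    intro Y
    have h1 : Continuous fun t : ℝ => Complex.exp (Y * ((b : ℂ) + t * Complex.I) ^ 2) := by
      fun_prop
    exact h1.mul hc
  have hcF2 : ∀ Y, Continuous (F2 Y) := by
    intro Y
    have h1 : Continuous fun t : ℝ => Complex.exp (Y * ((b : ℂ) + t * Complex.I) ^ 2) := by
      fun_prop
    have h2 : Continuous fun t : ℝ => ((b : ℂ) + t * Complex.I) ^ 2 := by fun_prop
    exact h1.mul (h2.mul hc)
  have hint : Integrable (F1 X) := by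
    refine Ibp_int _ hc b M X hX fun t => ?_
    refine (hM t).trans ?_
    nlinarith [sq_nonneg t, mul_nonneg hM0 (sq_nonneg t)]
  have hs : Set.Ioo (X / 2) (2 * X) ∈ nhds X := Ioo_mem_nhds (by linarith) (by linarith)
  have key := hasDerivAt_integral_of_dominated_loc_of_deriv_le (μ := volume) (F := F1) (F' := F2)
    (x₀ := X) (bound := fun t : ℝ =>
      Real.exp (2 * X * b ^ 2) * ((1 + b ^ 2) * M) * ((1 + t ^ 2) * Real.exp (-(X / 2) * t ^ 2)))
    hs (Filter.Eventually.of_forall fun Y => (hcF1 Y).aestronglyMeasurable) hint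
    (hcF2 X).aestronglyMeasurable ?_ ((Ibp_base (X / 2) (by linarith)).const_mul _) ?_
  · exact key.2
  · refine Filter.Eventually.of_forall fun t Y hY => ?_
    have hY0 : 0 < Y := by
      have := hY.1
      linarith
    simp only [hF2]
    rw [norm_mul, norm_mul, norm_gauss, Ibp_norm_sq]
    have h1 : Real.exp (Y * (b ^ 2 - t ^ 2)) ≤
        Real.exp (2 * X * b ^ 2) * Real.exp (-(X / 2) * t ^ 2) := by
      rw [← Real.exp_add]
      apply Real.exp_le_exp.2
      have h2 := hY.1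
      have h3 := hY.2
      nlinarith [mul_nonneg (show 0 ≤ 2 * X - Y by linarith) (sq_nonneg b),
        mul_nonneg (show 0 ≤ Y - X / 2 by linarith) (sq_nonneg t)]
    have h4 : (b ^ 2 + t ^ 2) * ‖F ((b : ℂ) + t * Complex.I)‖ ≤ ((1 + b ^ 2) * (1 + t ^ 2)) * M := by
      refine mul_le_mul ?_ (hM t) (norm_nonneg _) (by positivity)
      nlinarith [sq_nonneg (b * t)]
    calc Real.exp (Y * (b ^ 2 - t ^ 2)) * ((b ^ 2 + t ^ 2) * ‖F ((b : ℂ) + t * Complex.I)‖)
        ≤ (Real.exp (2 * X * b ^ 2) * Real.exp (-(X / 2) * t ^ 2)) *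
          (((1 + b ^ 2) * (1 + t ^ 2)) * M) := by
          refine mul_le_mul h1 h4 (by positivity) (by positivity)
      _ = Real.exp (2 * X * b ^ 2) * ((1 + b ^ 2) * M) *
          ((1 + t ^ 2) * Real.exp (-(X / 2) * t ^ 2)) := by ring
  · refine Filter.Eventually.of_forall fun t Y _ => ?_
    simp only [hF1, hF2]
    have h1 : HasDerivAt (fun Y : ℝ => (Y : ℂ) * ((b : ℂ) + t * Complex.I) ^ 2)
        (((b : ℂ) + t * Complex.I) ^ 2) Y := by
      have h2 : HasDerivAt (fun Y : ℝ => (Y : ℂ)) 1 Y := Complex.ofRealCLM.hasDerivAt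
      simpa using h2.mul_const (((b : ℂ) + t * Complex.I) ^ 2)
    have h3 := (h1.cexp).mul_const (F ((b : ℂ) + t * Complex.I))
    rw [mul_assoc] at h3
    exact h3

/-- Integration by parts: with `v(t) = ζ e^{Xζ²}`, `ζ = b + it`, `v' = i (1 + 2Xζ²) e^{Xζ²}`,
`∫ v' F = - ∫ v (F(b+it))' = - i ∫ v F'(ζ)`
(`integral_mul_deriv_eq_deriv_mul_of_integrable`). -/
theorem lineInt_ibp (F : ℂ → ℂ) (b M X : ℝ) (hX : 0 < X)
    (hd : ∀ t : ℝ, DifferentiableAt ℂ F ((b : ℂ) + t * Complex.I))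
    (hc' : Continuous fun t : ℝ => deriv F ((b : ℂ) + t * Complex.I))
    (hM : ∀ t : ℝ, ‖F ((b : ℂ) + t * Complex.I)‖ ≤ M)
    (hM' : ∀ t : ℝ, ‖deriv F ((b : ℂ) + t * Complex.I)‖ ≤ M) :
    lineInt (fun z => (1 + 2 * X * z ^ 2) * F z) b X = - lineInt (fun z => z * deriv F z) b X := by
  have hM0 : 0 ≤ M := (norm_nonneg _).trans (hM 0)
  have hc : Continuous fun t : ℝ => F ((b : ℂ) + t * Complex.I) := by
    refine continuous_iff_continuousAt.2 fun t => ?_
    exact ContinuousAt.comp (f := fun t : ℝ => (b : ℂ) + t * Complex.I) (hd t).continuousAt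
      (Ibp_line_cont b).continuousAt
  have hline : ∀ t : ℝ, HasDerivAt (fun t : ℝ => (b : ℂ) + t * Complex.I) Complex.I t := by
    intro t
    have h2 : HasDerivAt (fun Y : ℝ => (Y : ℂ)) 1 t := Complex.ofRealCLM.hasDerivAt
    simpa using (h2.mul_const Complex.I).const_add (b : ℂ)
  have hu : ∀ t : ℝ, HasDerivAt (fun t : ℝ => F ((b : ℂ) + t * Complex.I))
      (deriv F ((b : ℂ) + t * Complex.I) * Complex.I) t := fun t =>
    HasDerivAt.comp t (hd t).hasDerivAt (hline t)
  have hv : ∀ t : ℝ, HasDerivAt (fun t : ℝ => ((b : ℂ) + t * Complex.I) *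
      Complex.exp (X * ((b : ℂ) + t * Complex.I) ^ 2))
      (Complex.I * (1 + 2 * X * ((b : ℂ) + t * Complex.I) ^ 2) *
        Complex.exp (X * ((b : ℂ) + t * Complex.I) ^ 2)) t := by
    intro t
    have h1 : HasDerivAt (fun t : ℝ => (X : ℂ) * ((b : ℂ) + t * Complex.I) ^ 2)
        ((X : ℂ) * (((2 : ℕ) : ℂ) * ((b : ℂ) + t * Complex.I) ^ (2 - 1) * Complex.I)) t :=
      ((hline t).pow 2).const_mul (X : ℂ)
    have h2 := (hline t).mul h1.cexp
    refine h2.congr_deriv ?_
    push_cast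
    ring
  have hcv : Continuous fun t : ℝ => (b : ℂ) + t * Complex.I := Ibp_line_cont b
  have key := integral_mul_deriv_eq_deriv_mul_of_integrable
    (u := fun t : ℝ => F ((b : ℂ) + t * Complex.I))
    (v := fun t : ℝ => ((b : ℂ) + t * Complex.I) *
      Complex.exp (X * ((b : ℂ) + t * Complex.I) ^ 2))
    (u' := fun t : ℝ => deriv F ((b : ℂ) + t * Complex.I) * Complex.I)
    (v' := fun t : ℝ => Complex.I * (1 + 2 * X * ((b : ℂ) + t * Complex.I) ^ 2) *
        Complex.exp (X * ((b : ℂ) + t * Complex.I) ^ 2))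
    (fun t _ => hu t) (fun t _ => hv t) ?_ ?_ ?_
  · have e1 : lineInt (fun z => (1 + 2 * X * z ^ 2) * F z) b X * Complex.I =
        ∫ t : ℝ, F ((b : ℂ) + t * Complex.I) *
          (Complex.I * (1 + 2 * X * ((b : ℂ) + t * Complex.I) ^ 2) *
            Complex.exp (X * ((b : ℂ) + t * Complex.I) ^ 2)) := by
      unfold lineInt
      rw [← integral_mul_const]
      refine integral_congr_ae (Filter.Eventually.of_forall fun t => ?_)
      simp only
      ring
    have e2 : lineInt (fun z => z * deriv F z) b X * Complex.I =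
        ∫ t : ℝ, (deriv F ((b : ℂ) + t * Complex.I) * Complex.I) *
          (((b : ℂ) + t * Complex.I) * Complex.exp (X * ((b : ℂ) + t * Complex.I) ^ 2)) := by
      unfold lineInt
      rw [← integral_mul_const]
      refine integral_congr_ae (Filter.Eventually.of_forall fun t => ?_)
      simp only
      ring
    have e3 : lineInt (fun z => (1 + 2 * X * z ^ 2) * F z) b X * Complex.I =
        (- lineInt (fun z => z * deriv F z) b X) * Complex.I := by
      rw [neg_mul, e1, e2]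
      exact key
    exact mul_right_cancel₀ Complex.I_ne_zero e3
  · have h := Ibp_int (fun t : ℝ => Complex.I * (1 + 2 * X * ((b : ℂ) + t * Complex.I) ^ 2) *
      F ((b : ℂ) + t * Complex.I)) (Continuous.mul (by fun_prop) hc) b
      ((1 + 2 * X) * (1 + b ^ 2) * M) X hX ?_
    · refine h.congr (Filter.Eventually.of_forall fun t => ?_)
      simp only [Pi.mul_apply]
      ring
    · intro t
      rw [norm_mul, norm_mul, Complex.norm_I, one_mul]
      have h1 : ‖1 + 2 * (X : ℂ) * ((b : ℂ) + t * Complex.I) ^ 2‖ ≤ 1 + 2 * X * (b ^ 2 + t ^ 2) := by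
        refine (norm_add_le _ _).trans ?_
        rw [norm_mul, norm_mul, Ibp_norm_sq, Complex.norm_real, Real.norm_eq_abs, abs_of_pos hX]
        simp
      have h2 : 1 + 2 * X * (b ^ 2 + t ^ 2) ≤ (1 + 2 * X) * (1 + b ^ 2) * (1 + t ^ 2) := by
        nlinarith [sq_nonneg (b * t), sq_nonneg b, sq_nonneg t, mul_nonneg hX.le (sq_nonneg (b * t)),
          mul_nonneg hX.le (sq_nonneg b), mul_nonneg hX.le (sq_nonneg t)]
      calc ‖1 + 2 * (X : ℂ) * ((b : ℂ) + t * Complex.I) ^ 2‖ * ‖F ((b : ℂ) + t * Complex.I)‖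
          ≤ ((1 + 2 * X) * (1 + b ^ 2) * (1 + t ^ 2)) * M :=
            mul_le_mul (h1.trans h2) (hM t) (norm_nonneg _) (by positivity)
        _ = (1 + 2 * X) * (1 + b ^ 2) * M * (1 + t ^ 2) := by ring
  · have h := Ibp_int (fun t : ℝ => Complex.I * (((b : ℂ) + t * Complex.I) *
      deriv F ((b : ℂ) + t * Complex.I))) (by fun_prop) b ((1 + b ^ 2) * M) X hX ?_
    · refine h.congr (Filter.Eventually.of_forall fun t => ?_)
      simp only [Pi.mul_apply]
      ring
    · intro t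
      rw [norm_mul, norm_mul, Complex.norm_I, one_mul]
      have h2 : 1 + b ^ 2 + t ^ 2 ≤ (1 + b ^ 2) * (1 + t ^ 2) := by
        nlinarith [sq_nonneg (b * t)]
      calc ‖(b : ℂ) + t * Complex.I‖ * ‖deriv F ((b : ℂ) + t * Complex.I)‖
          ≤ ((1 + b ^ 2) * (1 + t ^ 2)) * M :=
            mul_le_mul ((Ibp_norm_le b t).trans h2) (hM' t) (norm_nonneg _) (by positivity)
        _ = (1 + b ^ 2) * M * (1 + t ^ 2) := by ring
  · have h := Ibp_int (fun t : ℝ => ((b : ℂ) + t * Complex.I) *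
      F ((b : ℂ) + t * Complex.I)) (Continuous.mul (by fun_prop) hc) b
      ((1 + b ^ 2) * M) X hX ?_
    · refine h.congr (Filter.Eventually.of_forall fun t => ?_)
      simp only [Pi.mul_apply]
      ring
    · intro t
      rw [norm_mul]
      have h2 : 1 + b ^ 2 + t ^ 2 ≤ (1 + b ^ 2) * (1 + t ^ 2) := by
        nlinarith [sq_nonneg (b * t)]
      calc ‖(b : ℂ) + t * Complex.I‖ * ‖F ((b : ℂ) + t * Complex.I)‖
          ≤ ((1 + b ^ 2) * (1 + t ^ 2)) * M :=
            mul_le_mul ((Ibp_norm_le b t).trans h2) (hM t) (norm_nonneg _) (by positivity)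
        _ = (1 + b ^ 2) * M * (1 + t ^ 2) := by ring

/-- Combine: the derivative of `√(X/π) lineInt F b X` is
`(1/√π) (X^{-1/2}/2 lineInt F + X^{1/2} lineInt (ζ²F)) = (1/(2√(πX))) lineInt ((1+2Xζ²)F)`. -/
theorem line_deriv (F : ℂ → ℂ) (b M X : ℝ) (hX : 0 < X)
    (hd : ∀ t : ℝ, DifferentiableAt ℂ F ((b : ℂ) + t * Complex.I))
    (hc' : Continuous fun t : ℝ => deriv F ((b : ℂ) + t * Complex.I))
    (hM : ∀ t : ℝ, ‖F ((b : ℂ) + t * Complex.I)‖ ≤ M)
    (hM' : ∀ t : ℝ, ‖deriv F ((b : ℂ) + t * Complex.I)‖ ≤ M) :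
    HasDerivAt (fun Y : ℝ => (Real.sqrt (Y / Real.pi) : ℂ) * lineInt F b Y)
      (-(1 / (2 * Real.sqrt (Real.pi * X)) : ℝ) * lineInt (fun z => z * deriv F z) b X) X := by
  have hM0 : 0 ≤ M := (norm_nonneg _).trans (hM 0)
  have hc : Continuous fun t : ℝ => F ((b : ℂ) + t * Complex.I) := by
    refine continuous_iff_continuousAt.2 fun t => ?_
    exact ContinuousAt.comp (f := fun t : ℝ => (b : ℂ) + t * Complex.I) (hd t).continuousAt
      (Ibp_line_cont b).continuousAt
  have hcv : Continuous fun t : ℝ => (b : ℂ) + t * Complex.I := Ibp_line_cont b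
  have h1 := lineInt_hasDerivAt F b M X hX hc hM
  have h2 := lineInt_ibp F b M X hX hd hc' hM hM'
  have h3 : HasDerivAt (fun Y : ℝ => (Real.sqrt (Y / Real.pi) : ℂ))
      (((1 / Real.pi) / (2 * Real.sqrt (X / Real.pi)) : ℝ) : ℂ) X := by
    have h4 : HasDerivAt (fun Y : ℝ => Y / Real.pi) (1 / Real.pi) X :=
      (hasDerivAt_id X).div_const Real.pi
    have h5 := h4.sqrt (by positivity)
    exact h5.ofReal_comp
  have hadd : lineInt (fun z => (1 + 2 * X * z ^ 2) * F z) b X =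
      lineInt F b X + 2 * X * lineInt (fun z => z ^ 2 * F z) b X := by
    unfold lineInt
    rw [← integral_const_mul, ← integral_add]
    · refine integral_congr_ae (Filter.Eventually.of_forall fun t => ?_)
      simp only
      ring
    · refine Ibp_int _ hc b M X hX fun t => ?_
      refine (hM t).trans ?_
      nlinarith [sq_nonneg t, mul_nonneg hM0 (sq_nonneg t)]
    · refine Integrable.const_mul ?_ _
      refine Ibp_int (fun t : ℝ => ((b : ℂ) + t * Complex.I) ^ 2 * F ((b : ℂ) + t * Complex.I))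
        (Continuous.mul (by fun_prop) hc) b ((1 + b ^ 2) * M) X hX fun t => ?_
      rw [norm_mul, Ibp_norm_sq]
      have h6 : b ^ 2 + t ^ 2 ≤ (1 + b ^ 2) * (1 + t ^ 2) := by
        nlinarith [sq_nonneg (b * t)]
      calc (b ^ 2 + t ^ 2) * ‖F ((b : ℂ) + t * Complex.I)‖
          ≤ ((1 + b ^ 2) * (1 + t ^ 2)) * M :=
            mul_le_mul h6 (hM t) (norm_nonneg _) (by positivity)
        _ = (1 + b ^ 2) * M * (1 + t ^ 2) := by ring
  refine (h3.mul h1).congr_deriv ?_
  have hz : lineInt (fun z => z * deriv F z) b X =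
      -(lineInt F b X + 2 * X * lineInt (fun z => z ^ 2 * F z) b X) := by
    rw [← hadd, h2, neg_neg]
  rw [hz]
  have hpi := Real.pi_pos
  have e1 : (1 / Real.pi) / (2 * Real.sqrt (X / Real.pi)) = 1 / (2 * Real.sqrt (Real.pi * X)) := by
    have e3 : Real.sqrt (Real.pi * X) = Real.pi * Real.sqrt (X / Real.pi) := by
      have e4 : Real.pi * X = Real.pi ^ 2 * (X / Real.pi) := by
        field_simp
      rw [e4, Real.sqrt_mul (by positivity), Real.sqrt_sq hpi.le]
    rw [e3]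
    have e5 : Real.sqrt (X / Real.pi) ≠ 0 := (Real.sqrt_pos.2 (by positivity)).ne'
    field_simp
  have e2 : Real.sqrt (X / Real.pi) = 1 / (2 * Real.sqrt (Real.pi * X)) * (2 * X) := by
    have e3 : Real.sqrt (Real.pi * X) * Real.sqrt (X / Real.pi) = X := by
      rw [← Real.sqrt_mul (by positivity)]
      have e4 : Real.pi * X * (X / Real.pi) = X ^ 2 := by
        field_simp
      rw [e4, Real.sqrt_sq hX.le]
    have e5 : Real.sqrt (Real.pi * X) ≠ 0 := (Real.sqrt_pos.2 (by positivity)).ne'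
    have e6 : Real.sqrt (X / Real.pi) = X / Real.sqrt (Real.pi * X) := by
      rw [eq_div_iff e5, mul_comm]
      exact e3
    rw [e6]
    field_simp
  rw [e1]
  conv_lhs => rw [e2]
  push_cast
  ring

end BSDS
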