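import Pool.Agent.W_92892c.NFun
import Pool.Agent.W_92892c.Ibp

open Filter Topology Set MeasureTheory

namespace BSDS

variable {ι : Type} {c u : ι → ℝ} {a : ℝ} {L : ℂ → ℂ}

/-- `∫_0^1 x^β e^{-κ X x²} dx ≤ C X^{-(1+β)/2}` (`integral_rpow_mul_exp_neg_mul_rpow` on `(0,∞)`).
-/
theorem gamma_bound (κ β : ℝ) (hκ : 0 < κ) (hβ : 0 ≤ β) :
    ∃ C : ℝ, 0 ≤ C ∧ ∀ X : ℝ, 1 ≤ X →
      ∫ x in (0 : ℝ)..1, x ^ β * Real.exp (-(κ * X * x ^ 2)) ≤ C * X ^ (-((1 + β) / 2)) := by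
  have hG : 0 < Real.Gamma ((β + 1) / 2) := Real.Gamma_pos_of_pos (by positivity)
  have hκp : 0 < κ ^ (-(β + 1) / 2) := Real.rpow_pos_of_pos hκ _
  refine ⟨κ ^ (-(β + 1) / 2) * (1 / 2) * Real.Gamma ((β + 1) / 2), by positivity, ?_⟩
  intro X hX
  have hX0 : 0 < X := by linarith
  have hb : 0 < κ * X := mul_pos hκ hX0
  have h1 := integrableOn_rpow_mul_exp_neg_mul_sq hb (s := β) (by linarith)
  have h2 := integral_rpow_mul_exp_neg_mul_rpow (p := 2) (q := β) two_pos (by linarith) hb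
  simp only [Real.rpow_two] at h2
  rw [intervalIntegral.integral_of_le zero_le_one]
  have e : (fun x : ℝ => x ^ β * Real.exp (-(κ * X * x ^ 2))) =
      fun x : ℝ => x ^ β * Real.exp (-(κ * X) * x ^ 2) := by
    funext x
    rw [neg_mul]
  rw [e]
  have h3 : ∫ x in Ioc (0 : ℝ) 1, x ^ β * Real.exp (-(κ * X) * x ^ 2) ≤
      ∫ x in Ioi (0 : ℝ), x ^ β * Real.exp (-(κ * X) * x ^ 2) := by
    refine setIntegral_mono_set h1 ?_ (Filter.Eventually.of_forall fun x hx => hx.1)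
    rw [EventuallyLE, ae_restrict_iff' measurableSet_Ioi]
    refine Filter.Eventually.of_forall fun x hx => ?_
    have hx0 : (0 : ℝ) < x := hx
    show (0 : ℝ) ≤ _
    positivity
  refine h3.trans (le_of_eq ?_)
  rw [h2, Real.mul_rpow hκ.le hX0.le]
  have e2 : -(β + 1) / 2 = -((1 + β) / 2) := by ring
  rw [e2]
  ring

/-- Inner part: `sector_cauchy` for `f z = exp (X z²) * Nf L r k z`; on the two rays
`z = x b (1 ± 3i/2)` one has `Re z² = - (5/4) b² x²`, `‖Nf z‖ ≤ K x^β` (`Nf_ray`), then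
`gamma_bound`. -/
theorem inner_bound (H : Hyp c u a L) (r k : ℕ) (ℓ : ℂ) (hℓ : ℓ ≠ 0)
    (h : Tendsto (fun s : ℂ => L s / s ^ r) (𝓝[≠] 0) (𝓝 ℓ))
    (hz : ∀ z ∈ Sec, L (rt k z) ≠ 0) (b : ℝ) (hb : 1 ≤ b) :
    ∃ C : ℝ, 0 ≤ C ∧ ∀ X : ℝ, 1 ≤ X →
      ‖∫ t in (-(3 / 2 * b))..(3 / 2 * b), Complex.exp (X * ((b : ℂ) + t * Complex.I) ^ 2) *
        Nf L r k ((b : ℂ) + t * Complex.I)‖ ≤ C * X ^ (-((1 + ((2 : ℝ) ^ k)⁻¹) / 2)) := by
  have hb0 : 0 < b := by linarith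
  obtain ⟨p, hp⟩ : ∃ p : ℝ, p = ((2 : ℝ) ^ k)⁻¹ := ⟨_, rfl⟩
  have hp0 : 0 < p := by rw [hp]; exact NFun_exp_pos k
  have hw1 : ((b : ℂ) + (3 / 2 * b : ℝ) * Complex.I) ∈ Sec := by
    have := SectorCauchy_mem (b := b) (s := 1) (t := 3 / 2 * b) hb0 one_pos
      (by rw [abs_of_pos (by positivity)])
    simpa using this
  have hw2 : ((b : ℂ) - (3 / 2 * b : ℝ) * Complex.I) ∈ Sec := by
    have := SectorCauchy_mem (b := b) (s := 1) (t := -(3 / 2 * b)) hb0 one_pos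
      (by rw [abs_neg, abs_of_pos (by positivity)])
    have e : ((1 : ℝ) : ℂ) * ((b : ℂ) + ((-(3 / 2 * b) : ℝ) : ℂ) * Complex.I) =
        (b : ℂ) - (3 / 2 * b : ℝ) * Complex.I := by
      push_cast
      ring
    rwa [e] at this
  obtain ⟨K1, hK1, hb1⟩ := Nf_ray L H.Lent r k ℓ hℓ h hz _ hw1
  obtain ⟨K2, hK2, hb2⟩ := Nf_ray L H.Lent r k ℓ hℓ h hz _ hw2
  obtain ⟨δ, hδ, K0, hK0, hnear⟩ := Nf_near_zero L H.Lent r k ℓ hℓ h
  obtain ⟨C, hC, hgam⟩ := gamma_bound (5 / 4 * b ^ 2) p (by positivity) hp0.le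
  rw [← hp] at hb1 hb2 hnear ⊢
  refine ⟨2 * b * ((K1 + K2) * C), by positivity, ?_⟩
  intro X hX
  have hX0 : 0 < X := by linarith
  have hdf : DifferentiableOn ℂ (fun z => Complex.exp (X * z ^ 2) * Nf L r k z) Sec := by
    refine DifferentiableOn.mul ?_ (Nf_differentiableOn L H.Lent r k hz)
    exact (Differentiable.cexp (by fun_prop)).differentiableOn
  have hB : ∀ z ∈ Sec, ‖z‖ ≤ δ → ‖Complex.exp (X * z ^ 2) * Nf L r k z‖ ≤
      Real.exp (X * δ ^ 2) * (K0 * δ ^ p) := by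
    intro z hzS hzδ
    rw [norm_mul]
    refine mul_le_mul ?_ ?_ (norm_nonneg _) (Real.exp_pos _).le
    · refine (Complex.norm_exp_le_exp_norm _).trans (Real.exp_le_exp.2 ?_)
      rw [norm_mul, norm_pow, Complex.norm_real, Real.norm_of_nonneg hX0.le]
      gcongr
    · refine (hnear z hzS.1 hzδ).trans ?_
      gcongr
  have key := sector_cauchy _ hdf b _ δ hb0 hδ hB
  refine key.trans ?_
  have hexp : ∀ x : ℝ, ∀ w : ℂ, (w ^ 2).re = -(5 / 4 * b ^ 2) →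
      ‖Complex.exp (X * ((x : ℂ) * w) ^ 2)‖ = Real.exp (-(5 / 4 * b ^ 2 * X * x ^ 2)) := by
    intro x w hw
    rw [Complex.norm_exp]
    congr 1
    have e : (X : ℂ) * ((x : ℂ) * w) ^ 2 = ((X * x ^ 2 : ℝ) : ℂ) * w ^ 2 := by
      push_cast
      ring
    rw [e, Complex.re_ofReal_mul, hw]
    ring
  have hr1 : (((b : ℂ) + (3 / 2 * b : ℝ) * Complex.I) ^ 2).re = -(5 / 4 * b ^ 2) := by
    rw [sq, Complex.mul_re]
    simp
    ring
  have hr2 : (((b : ℂ) - (3 / 2 * b : ℝ) * Complex.I) ^ 2).re = -(5 / 4 * b ^ 2) := by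
    rw [sq, Complex.mul_re]
    simp
    ring
  have hint : IntervalIntegrable (fun x : ℝ =>
      (K1 + K2) * (x ^ p * Real.exp (-(5 / 4 * b ^ 2 * X * x ^ 2)))) volume 0 1 := by
    refine Continuous.intervalIntegrable ?_ _ _
    have h1 : Continuous fun x : ℝ => x ^ p := Real.continuous_rpow_const hp0.le
    fun_prop
  have h2 : ∫ x in (0 : ℝ)..1,
      (‖Complex.exp (X * ((x : ℂ) * ((b : ℂ) + (3 / 2 * b : ℝ) * Complex.I)) ^ 2) *
          Nf L r k ((x : ℂ) * ((b : ℂ) + (3 / 2 * b : ℝ) * Complex.I))‖ +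
        ‖Complex.exp (X * ((x : ℂ) * ((b : ℂ) - (3 / 2 * b : ℝ) * Complex.I)) ^ 2) *
          Nf L r k ((x : ℂ) * ((b : ℂ) - (3 / 2 * b : ℝ) * Complex.I))‖) ≤
      ∫ x in (0 : ℝ)..1, (K1 + K2) * (x ^ p * Real.exp (-(5 / 4 * b ^ 2 * X * x ^ 2))) := by
    refine (le_abs_self _).trans ?_
    rw [← Real.norm_eq_abs]
    refine intervalIntegral.norm_integral_le_of_norm_le zero_le_one ?_ hint
    refine Filter.Eventually.of_forall fun x hx => ?_
    rw [Real.norm_of_nonneg (by positivity), norm_mul, norm_mul, hexp x _ hr1, hexp x _ hr2]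
    have h3 := mul_le_mul_of_nonneg_left (hb1 x hx.1 hx.2)
      (Real.exp_pos (-(5 / 4 * b ^ 2 * X * x ^ 2))).le
    have h4 := mul_le_mul_of_nonneg_left (hb2 x hx.1 hx.2)
      (Real.exp_pos (-(5 / 4 * b ^ 2 * X * x ^ 2))).le
    calc _ ≤ _ := add_le_add h3 h4
      _ = (K1 + K2) * (x ^ p * Real.exp (-(5 / 4 * b ^ 2 * X * x ^ 2))) := by ring
  rw [intervalIntegral.integral_const_mul] at h2
  have h5 := hgam X hX
  calc _ ≤ 2 * b * ((K1 + K2) * ∫ x in (0 : ℝ)..1,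
        x ^ p * Real.exp (-(5 / 4 * b ^ 2 * X * x ^ 2))) :=
        mul_le_mul_of_nonneg_left h2 (by positivity)
    _ ≤ 2 * b * ((K1 + K2) * (C * X ^ (-((1 + p) / 2)))) := by gcongr
    _ = 2 * b * ((K1 + K2) * C) * X ^ (-((1 + p) / 2)) := by ring

/-- Outer part: for `|t| > 3b/2`, `X ≥ 1`, `b ≥ 1`:
`e^{X(b²-t²)} ≤ e^{-(5/4)(X-1)} e^{b²-t²}`, the growth of `Nf` is at most linear (`Nf_line`) and
`e^{-(X-1)} ≤ 1/X ≤ X^{-(1+β)/2}`, `β = 1/2^k ≤ 1`. -/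
theorem outer_bound (H : Hyp c u a L) (r k : ℕ) (b : ℝ) (hb : 1 ≤ b)
    (hba : a + 1 < b ^ (((2 : ℝ) ^ k)⁻¹)) :
    ∃ C : ℝ, 0 ≤ C ∧ ∀ X : ℝ, 1 ≤ X →
      ‖∫ t in (Ioc (-(3 / 2 * b)) (3 / 2 * b))ᶜ,
        Complex.exp (X * ((b : ℂ) + t * Complex.I) ^ 2) *
        Nf L r k ((b : ℂ) + t * Complex.I)‖ ≤ C * X ^ (-((1 + ((2 : ℝ) ^ k)⁻¹) / 2)) := by
  obtain ⟨K, hK, hbd⟩ := Nf_line H r k b hb hba
  obtain ⟨p, hp⟩ : ∃ p : ℝ, p = ((2 : ℝ) ^ k)⁻¹ := ⟨_, rfl⟩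
  have hp0 : 0 < p := by rw [hp]; exact NFun_exp_pos k
  have hp1 : p ≤ 1 := by rw [hp]; exact NFun_exp_le k
  rw [← hp]
  have hg0 : Integrable fun t : ℝ => Real.exp (b ^ 2) * ((1 + t ^ 2) * Real.exp (-1 * t ^ 2)) :=
    (Ibp_base 1 one_pos).const_mul _
  refine ⟨2 * K * ∫ t : ℝ, Real.exp (b ^ 2) * ((1 + t ^ 2) * Real.exp (-1 * t ^ 2)), ?_, ?_⟩
  · have : 0 ≤ ∫ t : ℝ, Real.exp (b ^ 2) * ((1 + t ^ 2) * Real.exp (-1 * t ^ 2)) :=
      integral_nonneg fun t => by positivity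
    positivity
  intro X hX
  have hX0 : 0 < X := by linarith
  have hXp : 0 ≤ X ^ (-((1 + p) / 2)) := Real.rpow_nonneg hX0.le _
  have hexpX : Real.exp (-(X - 1)) ≤ X ^ (-((1 + p) / 2)) := by
    have h1 : X ≤ Real.exp (X - 1) := by
      have := Real.add_one_le_exp (X - 1)
      linarith
    have h2 : Real.exp (-(X - 1)) ≤ X⁻¹ := by
      rw [Real.exp_neg]
      exact inv_anti₀ hX0 h1
    refine h2.trans ?_
    rw [← Real.rpow_neg_one]
    exact Real.rpow_le_rpow_of_exponent_le hX (by linarith)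
  have hg : Integrable (fun t : ℝ => X ^ (-((1 + p) / 2)) * (2 * K *
      (Real.exp (b ^ 2) * ((1 + t ^ 2) * Real.exp (-1 * t ^ 2))))) :=
    (hg0.const_mul _).const_mul _
  have h3 : ‖∫ t in (Ioc (-(3 / 2 * b)) (3 / 2 * b))ᶜ,
      Complex.exp (X * ((b : ℂ) + t * Complex.I) ^ 2) *
      Nf L r k ((b : ℂ) + t * Complex.I)‖ ≤ ∫ t in (Ioc (-(3 / 2 * b)) (3 / 2 * b))ᶜ,
        X ^ (-((1 + p) / 2)) * (2 * K *
          (Real.exp (b ^ 2) * ((1 + t ^ 2) * Real.exp (-1 * t ^ 2)))) := by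
    refine norm_integral_le_of_norm_le hg.integrableOn ?_
    rw [ae_restrict_iff' measurableSet_Ioc.compl]
    refine Filter.Eventually.of_forall fun t ht => ?_
    have ht2 : (3 / 2 * b) ^ 2 ≤ t ^ 2 := by
      rw [Set.mem_compl_iff, Set.mem_Ioc, not_and_or, not_lt, not_le] at ht
      rcases ht with ht | ht
      · nlinarith
      · nlinarith
    rw [norm_mul, norm_gauss]
    have h4 : Real.exp (X * (b ^ 2 - t ^ 2)) ≤
        Real.exp (-(X - 1)) * Real.exp (b ^ 2 - t ^ 2) := by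
      rw [← Real.exp_add]
      apply Real.exp_le_exp.2
      have h5 : b ^ 2 - t ^ 2 ≤ -1 := by nlinarith
      nlinarith [mul_nonneg (sub_nonneg.2 hX) (by linarith : (0 : ℝ) ≤ -1 - (b ^ 2 - t ^ 2))]
    have h6 : K * (1 + |t|) ≤ 2 * K * (1 + t ^ 2) := by
      have h7 : |t| ≤ 1 + t ^ 2 := by
        rw [← sq_abs t]
        nlinarith [sq_nonneg (|t| - 1), abs_nonneg t]
      nlinarith [mul_nonneg hK (sub_nonneg.2 h7), mul_nonneg hK (sq_nonneg t)]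
    have h8 : Real.exp (b ^ 2 - t ^ 2) = Real.exp (b ^ 2) * Real.exp (-1 * t ^ 2) := by
      rw [← Real.exp_add]
      congr 1
      ring
    calc Real.exp (X * (b ^ 2 - t ^ 2)) * ‖Nf L r k ((b : ℂ) + t * Complex.I)‖
        ≤ (X ^ (-((1 + p) / 2)) * Real.exp (b ^ 2 - t ^ 2)) * (2 * K * (1 + t ^ 2)) := by
          refine mul_le_mul (h4.trans ?_) ((hbd t).trans h6) (norm_nonneg _) (by positivity)
          exact mul_le_mul_of_nonneg_right hexpX (Real.exp_pos _).le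
      _ = X ^ (-((1 + p) / 2)) * (2 * K *
          (Real.exp (b ^ 2) * ((1 + t ^ 2) * Real.exp (-1 * t ^ 2)))) := by
          rw [h8]
          ring
  refine h3.trans ?_
  refine (setIntegral_le_integral hg (Filter.Eventually.of_forall fun t => ?_)).trans ?_
  · show (0 : ℝ) ≤ _
    positivity
  · rw [integral_const_mul, integral_const_mul]
    exact le_of_eq (by ring)

theorem ILine_cont (H : Hyp c u a L) (r k : ℕ) (b : ℝ) (hb : 1 ≤ b)
    (hba : a + 1 < b ^ (((2 : ℝ) ^ k)⁻¹)) :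
    Continuous fun t : ℝ => Nf L r k ((b : ℂ) + t * Complex.I) := by
  refine continuous_iff_continuousAt.2 fun t => ?_
  have hre : ((b : ℂ) + t * Complex.I).re = b := by simp
  have hre0 : 0 < ((b : ℂ) + t * Complex.I).re := by rw [hre]; linarith
  have hsl : ((b : ℂ) + t * Complex.I) ∈ Complex.slitPlane := Or.inl hre0
  have hs1 := re_rt_ge k _ hre0
  rw [hre] at hs1
  have hne : L (rt k ((b : ℂ) + t * Complex.I)) ≠ 0 := by
    rw [H.LD _ (by linarith)]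
    exact Complex.exp_ne_zero _
  have h1 : DifferentiableAt ℂ (rt k) ((b : ℂ) + t * Complex.I) :=
    (hasDerivAt_rt k _ hsl).differentiableAt
  have h2 : DifferentiableAt ℂ (fun z => L (rt k z)) ((b : ℂ) + t * Complex.I) :=
    DifferentiableAt.comp (g := L) _ (H.Lent _) h1
  have h3 : Differentiable ℂ (deriv L) := by
    have : DifferentiableOn ℂ (deriv L) Set.univ := H.Lent.differentiableOn.deriv isOpen_univ
    exact differentiableOn_univ.1 this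
  have h4 : DifferentiableAt ℂ (fun z => deriv L (rt k z)) ((b : ℂ) + t * Complex.I) :=
    DifferentiableAt.comp (g := deriv L) _ (h3 _) h1
  have h5 : DifferentiableAt ℂ (Nf L r k) ((b : ℂ) + t * Complex.I) := by
    unfold Nf
    exact (((h1.mul h4).div h2 hne).sub_const _).const_mul _
  exact ContinuousAt.comp (f := fun t : ℝ => (b : ℂ) + t * Complex.I) h5.continuousAt
    (Ibp_line_cont b).continuousAt

/-- Sum of the two (`integral_add_compl`, integrability of the integrand on `ℝ` from `Nf_line`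
and continuity of `Nf` on the line). -/
theorem I_line (H : Hyp c u a L) (r k : ℕ) (ℓ : ℂ) (hℓ : ℓ ≠ 0)
    (h : Tendsto (fun s : ℂ => L s / s ^ r) (𝓝[≠] 0) (𝓝 ℓ))
    (hz : ∀ z ∈ Sec, L (rt k z) ≠ 0) (b : ℝ) (hb : 1 ≤ b)
    (hba : a + 1 < b ^ (((2 : ℝ) ^ k)⁻¹)) :
    ∃ C : ℝ, 0 ≤ C ∧ ∀ X : ℝ, 1 ≤ X →
      ‖lineInt (Nf L r k) b X‖ ≤ C * X ^ (-((1 + ((2 : ℝ) ^ k)⁻¹) / 2)) := by
  obtain ⟨C1, hC1, h1⟩ := inner_bound H r k ℓ hℓ h hz b hb
  obtain ⟨C2, hC2, h2⟩ := outer_bound H r k b hb hba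
  refine ⟨C1 + C2, by positivity, ?_⟩
  intro X hX
  have hX0 : 0 < X := by linarith
  obtain ⟨K, hK, hbd⟩ := Nf_line H r k b hb hba
  have hint : Integrable (fun t : ℝ => Complex.exp (X * ((b : ℂ) + t * Complex.I) ^ 2) *
      Nf L r k ((b : ℂ) + t * Complex.I)) := by
    refine Ibp_int _ (ILine_cont H r k b hb hba) b (2 * K) X hX0 fun t => (hbd t).trans ?_
    have h7 : |t| ≤ 1 + t ^ 2 := by
      rw [← sq_abs t]
      nlinarith [sq_nonneg (|t| - 1), abs_nonneg t]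
    nlinarith [mul_nonneg hK (sub_nonneg.2 h7), mul_nonneg hK (sq_nonneg t)]
  have h3 := h1 X hX
  rw [intervalIntegral.integral_of_le (by linarith)] at h3
  unfold lineInt
  rw [← integral_add_compl (measurableSet_Ioc (a := -(3 / 2 * b)) (b := 3 / 2 * b)) hint]
  refine (norm_add_le _ _).trans ?_
  rw [add_mul]
  exact add_le_add h3 (h2 X hX)

end BSDS
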