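import Pool.Agent.W_92892c.WtBasic
import Pool.Agent.W_92892c.DserBasic

open MeasureTheory Set

namespace BSDS

variable {ι : Type} {c u : ι → ℝ} {a : ℝ} {L : ℂ → ℂ}

theorem PhiBasic_upos (H : Hyp c u a L) (i : ι) : 0 < u i := by
  have := H.upos i
  linarith

theorem PhiBasic_nonneg (H : Hyp c u a L) (k : ℕ) (X : ℝ) (i : ι) :
    0 ≤ |c i| * wt k X (u i) :=
  mul_nonneg (abs_nonneg _) (wt_nonneg k X (u i) (PhiBasic_upos H i).le)

/-- a countable sum of measurable real functions is measurable -/
theorem PhiBasic_tsum_meas [Countable ι] (f : ι → ℝ → ℝ) (hf : ∀ i, Measurable (f i)) :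
    Measurable (fun X => ∑' i, f i X) := by
  have h1 : (fun X => ∑' i, f i X) = fun X =>
      if (∑' i, ENNReal.ofReal |f i X|) ≠ ⊤ then
        (∑' i, ENNReal.ofReal (f i X)).toReal - (∑' i, ENNReal.ofReal (-f i X)).toReal
      else 0 := by
    funext X
    split_ifs with h
    · have hs : Summable (fun i => |f i X|) := by
        have h2 := ENNReal.summable_toReal h
        refine h2.congr fun i => ?_
        rw [ENNReal.toReal_ofReal (abs_nonneg _)]
      rw [ENNReal.tsum_toReal_eq (fun i => ENNReal.ofReal_ne_top),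
        ENNReal.tsum_toReal_eq (fun i => ENNReal.ofReal_ne_top)]
      simp only [ENNReal.toReal_ofReal']
      rw [← Summable.tsum_sub]
      · refine tsum_congr fun i => ?_
        rcases le_total 0 (f i X) with h3 | h3
        · rw [max_eq_left h3, max_eq_right (by linarith), sub_zero]
        · rw [max_eq_right h3, max_eq_left (by linarith)]
          ring
      · exact Summable.of_nonneg_of_le (fun i => le_max_right _ _)
          (fun i => max_le (le_abs_self _) (abs_nonneg _)) hs
      · exact Summable.of_nonneg_of_le (fun i => le_max_right _ _)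
          (fun i => max_le (neg_le_abs _) (abs_nonneg _)) hs
    · apply tsum_eq_zero_of_not_summable
      intro hs
      apply h
      rw [← ENNReal.ofReal_tsum_of_nonneg (fun i => abs_nonneg _) hs.abs]
      exact ENNReal.ofReal_ne_top
  rw [h1]
  have hm1 : Measurable (fun X => ∑' i, ENNReal.ofReal |f i X|) :=
    Measurable.ennreal_tsum fun i => (hf i).abs.ennreal_ofReal
  have hm2 : Measurable (fun X => ∑' i, ENNReal.ofReal (f i X)) :=
    Measurable.ennreal_tsum fun i => (hf i).ennreal_ofReal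
  have hm3 : Measurable (fun X => ∑' i, ENNReal.ofReal (-f i X)) :=
    Measurable.ennreal_tsum fun i => (hf i).neg.ennreal_ofReal
  refine Measurable.ite ?_ (hm2.ennreal_toReal.sub hm3.ennreal_toReal) measurable_const
  exact hm1 (measurableSet_singleton (⊤ : ENNReal)).compl

/-- `wt k X (u i) ≤ exp (a^(2^(k+1)) X) e^{-a u i}` (`wt_le` with `A = a`). -/
theorem Phi_summable (H : Hyp c u a L) (k : ℕ) (X : ℝ) (hX : 0 < X) :
    Summable (fun i => |c i| * wt k X (u i)) := by
  have ha : 0 ≤ a := by linarith [H.apos]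
  refine Summable.of_nonneg_of_le (PhiBasic_nonneg H k X) (fun i => ?_)
    (H.sm.mul_left (Real.exp (a ^ (2 ^ (k + 1)) * X)))
  have h1 := wt_le k a X (u i) ha hX (PhiBasic_upos H i)
  rw [sub_eq_add_neg, Real.exp_add] at h1
  calc |c i| * wt k X (u i)
      ≤ |c i| * (Real.exp (a ^ (2 ^ (k + 1)) * X) * Real.exp (-(a * u i))) :=
        mul_le_mul_of_nonneg_left h1 (abs_nonneg _)
    _ = Real.exp (a ^ (2 ^ (k + 1)) * X) * (|c i| * Real.exp (-(a * u i))) := by ring

theorem Phi_abs_le (H : Hyp c u a L) (k : ℕ) (X : ℝ) (hX : 0 < X) :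
    |Phi c u k X| ≤ ∑' i, |c i| * wt k X (u i) := by
  have h1 : ∀ i, ‖c i * wt k X (u i)‖ = |c i| * wt k X (u i) := fun i => by
    rw [norm_mul, Real.norm_eq_abs, Real.norm_eq_abs,
      abs_of_nonneg (wt_nonneg k X (u i) (PhiBasic_upos H i).le)]
  have h2 : Summable (fun i => ‖c i * wt k X (u i)‖) := by
    simp only [h1]
    exact Phi_summable H k X hX
  have h3 := norm_tsum_le_tsum_norm h2
  simp only [h1] at h3
  exact h3

theorem Phi_meas (H : Hyp c u a L) (k : ℕ) : Measurable (Phi c u k) := by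
  have : Countable ι := H.cnt
  apply PhiBasic_tsum_meas (fun i X => c i * wt k X (u i))
  intro i
  have h1 : Measurable (fun X : ℝ => wt k X (u i)) :=
    (wt_meas k).comp (f := fun X : ℝ => (X, u i)) (by fun_prop)
  exact h1.const_mul (c i)

/-- Bounded on `(0,1]` by monotonicity in `X` (`wt_mono`). -/
theorem Phi_bound_one (H : Hyp c u a L) (k : ℕ) :
    ∃ K : ℝ, ∀ X : ℝ, 0 < X → X ≤ 1 → |Phi c u k X| ≤ K := by
  refine ⟨∑' i, |c i| * wt k 1 (u i), fun X hX hX1 => ?_⟩
  refine (Phi_abs_le H k X hX).trans ?_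
  exact Summable.tsum_le_tsum (fun i => mul_le_mul_of_nonneg_left
    (wt_mono k X 1 (u i) hX hX1 (PhiBasic_upos H i)) (abs_nonneg _))
    (Phi_summable H k X hX) (Phi_summable H k 1 one_pos)

end BSDS
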