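import Pool.Agent.W_92892c.WtLaplace
import Pool.Agent.W_92892c.PhiBasic

open MeasureTheory Set

namespace BSDS

variable {ι : Type} {c u : ι → ℝ} {a : ℝ} {L : ℂ → ℂ}

lemma PhiLaplace_int {α κ : Type} [MeasurableSpace α] {μ : Measure α} [Countable κ]
    {F : κ → α → ℝ} (hF : ∀ i, Integrable (F i) μ) (hs : Summable fun i => ∫ y, ‖F i y‖ ∂μ)
    (hG : AEStronglyMeasurable (fun y => ∑' i, F i y) μ) :
    Integrable (fun y => ∑' i, F i y) μ := by
  refine ⟨hG, ?_⟩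
  have h1 : ∀ i, ∫⁻ y, ‖F i y‖ₑ ∂μ = ENNReal.ofReal (∫ y, ‖F i y‖ ∂μ) := fun i =>
    (ofReal_integral_norm_eq_lintegral_enorm (hF i)).symm
  calc ∫⁻ y, ‖∑' i, F i y‖ₑ ∂μ ≤ ∫⁻ y, ∑' i, ‖F i y‖ₑ ∂μ :=
        lintegral_mono fun y => enorm_tsum_le_tsum_enorm
    _ = ∑' i, ENNReal.ofReal (∫ y, ‖F i y‖ ∂μ) := by
        rw [lintegral_tsum fun i => (hF i).1.enorm]
        simp only [h1]
    _ < ⊤ := hs.tsum_ofReal_lt_top

/-- Termwise integration (`hasSum_integral_of_summable_integral_norm`, `ι` countable): the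
integral of the norm of the `i`-th term is `|c i| √(π/x) exp(-u i x^{1/2^(k+1)})`, at most
`|c i| √(π/x) e^{-a u i}`, summable. -/
theorem Phi_laplace (H : Hyp c u a L) (k : ℕ) (x : ℝ) (hx : 0 < x)
    (hxa : a ≤ x ^ (((2 : ℝ) ^ (k + 1))⁻¹)) :
    IntegrableOn (fun X : ℝ => Real.exp (-(x * X)) * X ^ (-(1 / 2) : ℝ) * Phi c u k X) (Ioi 0) ∧
    ∫ X in Ioi (0 : ℝ), Real.exp (-(x * X)) * X ^ (-(1 / 2) : ℝ) * Phi c u k X
      = Real.sqrt (Real.pi / x) * ∑' i, c i * Real.exp (-(u i * x ^ (((2 : ℝ) ^ (k + 1))⁻¹))) := by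
  have hcnt := H.cnt
  have hu : ∀ i, 0 < u i := fun i => lt_of_lt_of_le (by norm_num) (H.upos i)
  obtain ⟨W, hW⟩ : ∃ W : ι → ℝ → ℝ, W = fun i X =>
      Real.exp (-(x * X)) * X ^ (-(1 / 2) : ℝ) * wt k X (u i) := ⟨_, rfl⟩
  have hWi : ∀ i, IntegrableOn (W i) (Ioi 0) := fun i => by
    rw [hW]
    exact (wt_laplace k x (u i) hx (hu i)).1
  have hWv : ∀ i, ∫ X in Ioi (0 : ℝ), W i X =
      Real.sqrt (Real.pi / x) * Real.exp (-(u i * x ^ (((2 : ℝ) ^ (k + 1))⁻¹))) := fun i => by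
    rw [hW]
    exact (wt_laplace k x (u i) hx (hu i)).2
  have hWn : ∀ i, ∀ X ∈ Ioi (0 : ℝ), 0 ≤ W i X := fun i X hX => by
    rw [hW]
    exact mul_nonneg (mul_nonneg (Real.exp_pos _).le (Real.rpow_nonneg (le_of_lt hX) _))
      (wt_nonneg k X (u i) (hu i).le)
  have hFi : ∀ i, Integrable (fun X => c i * W i X) (volume.restrict (Ioi 0)) := fun i =>
    (hWi i).const_mul (c i)
  have hnorm : ∀ i, ∫ X in Ioi (0 : ℝ), ‖c i * W i X‖ = |c i| *
      (Real.sqrt (Real.pi / x) * Real.exp (-(u i * x ^ (((2 : ℝ) ^ (k + 1))⁻¹)))) := fun i => by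
    rw [← hWv i, ← integral_const_mul]
    refine setIntegral_congr_fun measurableSet_Ioi fun X hX => ?_
    show ‖c i * W i X‖ = |c i| * W i X
    rw [norm_mul, Real.norm_eq_abs, Real.norm_of_nonneg (hWn i X hX)]
  have hsum : Summable fun i => ∫ X in Ioi (0 : ℝ), ‖c i * W i X‖ := by
    simp only [hnorm]
    refine Summable.of_nonneg_of_le (fun i => by positivity) (fun i => ?_)
      (H.sm.mul_left (Real.sqrt (Real.pi / x)))
    have h1 : Real.exp (-(u i * x ^ (((2 : ℝ) ^ (k + 1))⁻¹))) ≤ Real.exp (-(a * u i)) := by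
      refine Real.exp_le_exp.2 ?_
      have h2 := mul_le_mul_of_nonneg_left hxa (hu i).le
      linarith
    calc |c i| * (Real.sqrt (Real.pi / x) * Real.exp (-(u i * x ^ (((2 : ℝ) ^ (k + 1))⁻¹))))
        = Real.sqrt (Real.pi / x) * (|c i| *
            Real.exp (-(u i * x ^ (((2 : ℝ) ^ (k + 1))⁻¹)))) := by ring
      _ ≤ Real.sqrt (Real.pi / x) * (|c i| * Real.exp (-(a * u i))) :=
          mul_le_mul_of_nonneg_left (mul_le_mul_of_nonneg_left h1 (abs_nonneg _))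
            (Real.sqrt_nonneg _)
  have hPhi : ∀ X : ℝ, ∑' i, c i * W i X =
      Real.exp (-(x * X)) * X ^ (-(1 / 2) : ℝ) * Phi c u k X := fun X => by
    unfold Phi
    rw [← tsum_mul_left]
    refine tsum_congr fun i => ?_
    rw [hW]
    ring
  have hmeas : AEStronglyMeasurable (fun X => ∑' i, c i * W i X)
      (volume.restrict (Ioi (0 : ℝ))) := by
    simp only [hPhi]
    refine Measurable.aestronglyMeasurable ?_
    exact ((by fun_prop : Measurable fun X : ℝ => Real.exp (-(x * X)) * X ^ (-(1 / 2) : ℝ))).mul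
      (Phi_meas H k)
  have h1 := PhiLaplace_int hFi hsum hmeas
  have h2 := (hasSum_integral_of_summable_integral_norm hFi hsum).tsum_eq
  simp only [hPhi] at h1 h2
  refine ⟨h1, ?_⟩
  rw [← h2, ← tsum_mul_left]
  refine tsum_congr fun i => ?_
  rw [integral_const_mul, hWv]
  ring

end BSDS
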