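import Pool.Agent.W_92892c.Defs

open Complex Set

namespace BSDS

theorem rt_zero (z : ℂ) : rt 0 z = z := by
  simp [rt]

lemma Root_cast (k : ℕ) : ((2 : ℂ) ^ k)⁻¹ = ((((2 : ℝ) ^ k)⁻¹ : ℝ) : ℂ) := by
  push_cast
  rfl

lemma Root_exp (k : ℕ) {z : ℂ} (hz : z ≠ 0) :
    rt k z = Complex.exp (Complex.log z * (((2 : ℝ) ^ k)⁻¹ : ℝ)) := by
  unfold rt
  rw [Complex.cpow_def_of_ne_zero hz, Root_cast]

lemma Root_im (k : ℕ) (z : ℂ) :
    (Complex.log z * (((2 : ℝ) ^ k)⁻¹ : ℝ)).im = z.arg / 2 ^ k := by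
  rw [Complex.im_mul_ofReal, Complex.log_im]
  rfl

lemma Root_two (k : ℕ) : (1 : ℝ) ≤ 2 ^ k := one_le_pow₀ (by norm_num)

lemma Root_im_mem (k : ℕ) (z : ℂ) :
    -Real.pi < z.arg / 2 ^ k ∧ z.arg / 2 ^ k ≤ Real.pi := by
  have h1 := Complex.neg_pi_lt_arg z
  have h2 := Complex.arg_le_pi z
  have h3 := Root_two k
  have hpi := Real.pi_pos
  have h4 : (0 : ℝ) < 2 ^ k := by positivity
  constructor
  · rw [lt_div_iff₀ h4]
    nlinarith
  · rw [div_le_iff₀ h4]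
    nlinarith

lemma Root_log (k : ℕ) {z : ℂ} (hz : z ≠ 0) :
    Complex.log (rt k z) = Complex.log z * (((2 : ℝ) ^ k)⁻¹ : ℝ) := by
  rw [Root_exp k hz]
  obtain ⟨h1, h2⟩ := Root_im_mem k z
  rw [← Root_im] at h1 h2
  exact Complex.log_exp h1 h2

lemma Root_zero_arg (k : ℕ) : rt k 0 = 0 := by
  unfold rt
  exact Complex.zero_cpow (inv_ne_zero (pow_ne_zero _ two_ne_zero))

theorem rt_ne_zero (k : ℕ) (z : ℂ) (hz : z ≠ 0) : rt k z ≠ 0 := by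
  rw [Root_exp k hz]
  exact Complex.exp_ne_zero _

/-- `Complex.cpow_mul` (the imaginary part of `log z / 2^k` is in `(-π, π]`); `z = 0` separately. -/
theorem rt_succ (k : ℕ) (z : ℂ) : (rt k z) ^ ((1 : ℂ) / 2) = rt (k + 1) z := by
  rcases eq_or_ne z 0 with rfl | hz
  · rw [Root_zero_arg, Root_zero_arg]
    exact Complex.zero_cpow (by norm_num)
  · rw [Complex.cpow_def_of_ne_zero (rt_ne_zero k z hz), Root_log k hz, Root_exp (k + 1) hz]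
    congr 1
    push_cast
    rw [pow_succ]
    field_simp

theorem rt_ofReal (k : ℕ) (x : ℝ) (hx : 0 ≤ x) :
    rt k (x : ℂ) = ((x ^ (((2 : ℝ) ^ k)⁻¹) : ℝ) : ℂ) := by
  unfold rt
  rw [Complex.ofReal_cpow hx, Root_cast]

theorem norm_rt (k : ℕ) (z : ℂ) : ‖rt k z‖ = ‖z‖ ^ (((2 : ℝ) ^ k)⁻¹) := by
  unfold rt
  rw [Root_cast, Complex.norm_cpow_real]

/-- `arg (z^(1/2^k)) = arg z / 2^k` (use `Complex.exp_log`, `Complex.cpow_def` and
`Complex.arg_exp_mul_I`-type facts, or `Complex.log_im` and `Complex.arg_cos_add_sin_mul_I`). -/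
theorem arg_rt (k : ℕ) (z : ℂ) (hz : z ≠ 0) : (rt k z).arg = z.arg / 2 ^ k := by
  rw [← Complex.log_im, Root_log k hz, Root_im]

/-- Induction on `k` by `rt_succ` and `Re √w = √((|w| + Re w)/2) ≥ √(Re w)` for `Re w > 0`
(`Complex.cpow_inv_two_re`). -/
theorem re_rt_ge (k : ℕ) (z : ℂ) (hz : 0 < z.re) :
    z.re ^ (((2 : ℝ) ^ k)⁻¹) ≤ (rt k z).re := by
  induction k with
  | zero => rw [rt_zero]; simp
  | succ k ih =>
    have h1 : ((1 : ℂ) / 2) = 2⁻¹ := by norm_num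
    rw [← rt_succ, h1, Complex.cpow_inv_two_re]
    have h2 : (rt k z).re ≤ ‖rt k z‖ := Complex.re_le_norm _
    have h3 : z.re ^ (((2 : ℝ) ^ (k + 1))⁻¹) = Real.sqrt (z.re ^ (((2 : ℝ) ^ k)⁻¹)) := by
      rw [Real.sqrt_eq_rpow, ← Real.rpow_mul hz.le]
      congr 1
      rw [pow_succ]
      field_simp
    rw [h3]
    apply Real.sqrt_le_sqrt
    linarith

theorem re_rt_pos (k : ℕ) (z : ℂ) (hz : 0 < z.re) : 0 < (rt k z).re :=
  lt_of_lt_of_le (Real.rpow_pos_of_pos hz _) (re_rt_ge k z hz)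

theorem hasDerivAt_rt (k : ℕ) (z : ℂ) (hz : z ∈ slitPlane) :
    HasDerivAt (rt k) (((2 : ℂ) ^ k)⁻¹ * (rt k z / z)) z := by
  have hz0 : z ≠ 0 := Complex.slitPlane_ne_zero hz
  have h1 := (Complex.hasStrictDerivAt_cpow_const (c := ((2 : ℂ) ^ k)⁻¹) hz).hasDerivAt
  have h2 : z ^ (((2 : ℂ) ^ k)⁻¹ - 1) = rt k z / z := by
    rw [Complex.cpow_sub _ _ hz0, Complex.cpow_one]
    rfl
  rw [h2] at h1
  exact h1

/-- If `|arg s| < π / 2^k` then `s` is the principal root of its power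
(`Complex.pow_cpow_nat_inv`). -/
theorem rt_pow (k : ℕ) (s : ℂ) (hs : |s.arg| < Real.pi / 2 ^ k) : rt k (s ^ (2 ^ k)) = s := by
  have h1 := abs_lt.1 hs
  have h2 := Complex.pow_cpow_nat_inv (x := s) (n := 2 ^ k) (by positivity)
    (by push_cast; exact h1.1) (by push_cast; exact h1.2.le)
  unfold rt
  push_cast at h2
  exact h2

/-- If `s ≠ 0`, `|arg s| < π / 2^(k+1)`, then `Re (s^(2^k)) > 0`, and if `|arg s| < θ / 2^k`,
`θ ≤ π`, then `|arg (s^(2^k))| < θ`. -/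
theorem re_pow_pos (k : ℕ) (s : ℂ) (h0 : s ≠ 0) (hs : |s.arg| < Real.pi / 2 ^ (k + 1)) :
    0 < (s ^ (2 ^ k)).re := by
  have h4 : (0 : ℝ) < 2 ^ k := by positivity
  have hpi := Real.pi_pos
  have h5 : Real.pi / 2 ^ (k + 1) ≤ Real.pi / 2 ^ k := by
    apply div_le_div_of_nonneg_left hpi.le h4
    exact pow_le_pow_right₀ (by norm_num) (Nat.le_succ k)
  have hw : s ^ (2 ^ k) ≠ 0 := pow_ne_zero _ h0
  have h1 := arg_rt k (s ^ (2 ^ k)) hw
  rw [rt_pow k s (lt_of_lt_of_le hs h5)] at h1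
  rw [h1, abs_div, abs_of_pos h4, pow_succ, ← div_div, div_lt_iff₀ h4] at hs
  have h6 : |(s ^ (2 ^ k)).arg| < Real.pi / 2 := by
    calc |(s ^ (2 ^ k)).arg| < Real.pi / 2 ^ k / 2 * 2 ^ k := hs
      _ = Real.pi / 2 := by field_simp
  rcases Complex.abs_arg_lt_pi_div_two_iff.1 h6 with h | h
  · exact h
  · exact absurd h hw

end BSDS
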