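import Pool.Agent.W_92892c.LaplaceAn
import Pool.Agent.W_92892c.PhiLaplace
import Pool.Agent.W_92892c.Root

open Filter Topology Set MeasureTheory

namespace BSDS

variable {ι : Type} {c u : ι → ℝ} {a : ℝ} {L : ℂ → ℂ}

theorem idthm_bound (H : Hyp c u a L) (k : ℕ) (ρ κ : ℝ)
    (h : Tendsto (fun X : ℝ => Phi c u k X + ρ * Real.log X) atTop (𝓝 κ)) :
    ∃ K : ℝ, ∀ X : ℝ, 1 ≤ X → |Phi c u k X + ρ * Real.log X| ≤ K := by
  have h1 : ∀ᶠ X : ℝ in atTop, |Phi c u k X + ρ * Real.log X - κ| < 1 := by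
    have h2 := (tendsto_iff_norm_sub_tendsto_zero.1 h).eventually (gt_mem_nhds one_pos)
    simpa [Real.norm_eq_abs] using h2
  obtain ⟨X₀, hX₀⟩ := eventually_atTop.1 h1
  set Y : ℝ := max X₀ 1 with hY
  have hY1 : 1 ≤ Y := le_max_right _ _
  refine ⟨max (|κ| + 1) ((∑' i, |c i| * wt k Y (u i)) + |ρ| * Real.log Y), fun X hX => ?_⟩
  rcases le_total X Y with hXY | hXY
  · refine le_trans ?_ (le_max_right _ _)
    have hX0 : 0 < X := by linarith
    have h3 : |Phi c u k X| ≤ ∑' i, |c i| * wt k Y (u i) := by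
      refine (Phi_abs_le H k X hX0).trans ?_
      refine (Phi_summable H k X hX0).tsum_le_tsum (fun i => ?_) (Phi_summable H k Y (by linarith))
      exact mul_le_mul_of_nonneg_left
        (wt_mono k X Y (u i) hX0 hXY (by linarith [H.upos i])) (abs_nonneg _)
    have h4 : |ρ * Real.log X| ≤ |ρ| * Real.log Y := by
      rw [abs_mul, abs_of_nonneg (Real.log_nonneg hX)]
      exact mul_le_mul_of_nonneg_left (Real.log_le_log hX0 hXY) (abs_nonneg _)
    exact (abs_add_le _ _).trans (add_le_add h3 h4)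
  · refine le_trans ?_ (le_max_left _ _)
    have h3 := hX₀ X ((le_max_left _ _).trans hXY)
    have h4 : Phi c u k X + ρ * Real.log X = (Phi c u k X + ρ * Real.log X - κ) + κ := by ring
    rw [h4]
    refine (abs_add_le _ _).trans ?_
    linarith

/-- The integrand is integrable near `0` by `Phi_bound_one` (`X^{-1/2}`), and on `[1,∞)` because
`Phi` is measurable and `|Phi X| ≤ K (1 + log X)` there (for large `X` by the limit; on compact
parts `Phi` is bounded by `wt_mono` and `Phi_abs_le`).  -/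
theorem Phi_integrable (H : Hyp c u a L) (k : ℕ) (ρ κ : ℝ)
    (h : Tendsto (fun X : ℝ => Phi c u k X + ρ * Real.log X) atTop (𝓝 κ)) (ε : ℝ) (hε : 0 < ε) :
    IntegrableOn (fun X : ℝ => Real.exp (-(ε * X)) * (X ^ (-(1 / 2) : ℝ) * Phi c u k X))
      (Ioi 0) := by
  obtain ⟨K₁, hK₁⟩ := Phi_bound_one H k
  obtain ⟨K₂, hK₂⟩ := idthm_bound H k ρ κ h
  have hb : ∀ X : ℝ, 0 < X → |Phi c u k X| ≤ (|K₁| + |K₂|) + |ρ| * X := by
    intro X hX
    rcases le_total X 1 with h1 | h1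
    · have h2 := (hK₁ X hX h1).trans (le_abs_self K₁)
      have h3 : 0 ≤ |ρ| * X := by positivity
      have h4 := abs_nonneg K₂
      linarith
    · have h2 := (hK₂ X h1).trans (le_abs_self K₂)
      have h3 : Phi c u k X = (Phi c u k X + ρ * Real.log X) - ρ * Real.log X := by ring
      have h4 : |ρ * Real.log X| ≤ |ρ| * X := by
        rw [abs_mul, abs_of_nonneg (Real.log_nonneg h1)]
        exact mul_le_mul_of_nonneg_left
          ((Real.log_le_sub_one_of_pos hX).trans (by linarith)) (abs_nonneg _)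
      have h5 := abs_nonneg K₁
      rw [h3]
      refine (abs_sub _ _).trans ?_
      linarith
  have i1 : IntegrableOn (fun X : ℝ => X ^ (-(1 / 2) : ℝ) * Real.exp (-ε * X ^ (1 : ℝ)))
      (Ioi 0) := integrableOn_rpow_mul_exp_neg_mul_rpow (by norm_num) one_pos hε
  have i2 : IntegrableOn (fun X : ℝ => X ^ (1 / 2 : ℝ) * Real.exp (-ε * X ^ (1 : ℝ)))
      (Ioi 0) := integrableOn_rpow_mul_exp_neg_mul_rpow (by norm_num) one_pos hε
  have i3 := (i1.const_mul (|K₁| + |K₂|)).add (i2.const_mul |ρ|)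
  refine Integrable.mono' i3 ?_ ?_
  · have hm : Measurable (fun X : ℝ =>
        Real.exp (-(ε * X)) * (X ^ (-(1 / 2) : ℝ) * Phi c u k X)) := by
      have := Phi_meas H k
      fun_prop
    exact hm.aestronglyMeasurable
  · refine (ae_restrict_iff' measurableSet_Ioi).2 (Eventually.of_forall fun X hX => ?_)
    have hX0 : (0 : ℝ) < X := hX
    rw [Real.norm_eq_abs, abs_mul, abs_mul, abs_of_pos (Real.exp_pos _),
      abs_of_nonneg (Real.rpow_nonneg hX0.le _)]
    have h1 := hb X hX0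
    have h2 : X ^ (1 / 2 : ℝ) = X ^ (-(1 / 2) : ℝ) * X := by
      nth_rewrite 3 [← Real.rpow_one X]
      rw [← Real.rpow_add hX0]
      norm_num
    simp only [Real.rpow_one, Pi.add_apply]
    rw [h2, neg_mul]
    have h3 : 0 ≤ Real.exp (-(ε * X)) * X ^ (-(1 / 2) : ℝ) := by positivity
    nlinarith [mul_le_mul_of_nonneg_left h1 h3]

/-- The bound used above, separately: for some `K` and all `X ≥ 1`,
`|Phi X + ρ log X| ≤ K`. -/
theorem Phi_add_bound (H : Hyp c u a L) (k : ℕ) (ρ κ : ℝ)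
    (h : Tendsto (fun X : ℝ => Phi c u k X + ρ * Real.log X) atTop (𝓝 κ)) :
    ∃ K : ℝ, ∀ X : ℝ, 1 ≤ X → |Phi c u k X + ρ * Real.log X| ≤ K :=
  idthm_bound H k ρ κ h

/-- The identity at large real points. -/
theorem idthm_real (H : Hyp c u a L) (k : ℕ) (x : ℝ) (hx : 0 < x)
    (hxa : a ≤ x ^ (((2 : ℝ) ^ (k + 1))⁻¹)) :
    L (rt (k + 1) (x : ℂ)) = Complex.exp ((x : ℂ) ^ ((1 : ℂ) / 2) / (Real.sqrt Real.pi : ℂ) *
      ∫ X in Ioi (0 : ℝ), Complex.exp (-((x : ℂ) * X)) *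
        ((X ^ (-(1 / 2) : ℝ) * Phi c u k X : ℝ) : ℂ)) := by
  have h2 : (∫ X in Ioi (0 : ℝ), Complex.exp (-((x : ℂ) * X)) *
        ((X ^ (-(1 / 2) : ℝ) * Phi c u k X : ℝ) : ℂ)) =
      ((∫ X in Ioi (0 : ℝ), Real.exp (-(x * X)) * X ^ (-(1 / 2) : ℝ) * Phi c u k X : ℝ) : ℂ) := by
    rw [← integral_complex_ofReal]
    refine integral_congr_ae (Eventually.of_forall fun X => ?_)
    simp only [Complex.ofReal_mul, Complex.ofReal_exp, Complex.ofReal_neg, mul_assoc]
  have h3 : (x : ℂ) ^ ((1 : ℂ) / 2) = ((Real.sqrt x : ℝ) : ℂ) := by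
    rw [Real.sqrt_eq_rpow, Complex.ofReal_cpow hx.le]
    norm_num
  rw [h2, h3, (Phi_laplace H k x hx hxa).2, rt_ofReal (k + 1) x hx.le,
    H.LD _ (by simpa using hxa), Dser_ofReal H _ hxa]
  congr 1
  rw [← Complex.ofReal_div, ← Complex.ofReal_mul]
  congr 1
  have h4 : Real.sqrt (Real.pi / x) = Real.sqrt Real.pi / Real.sqrt x :=
    Real.sqrt_div Real.pi_pos.le _
  have h5 : Real.sqrt Real.pi ≠ 0 := (Real.sqrt_pos.2 Real.pi_pos).ne'
  have h6 : Real.sqrt x ≠ 0 := (Real.sqrt_pos.2 hx).ne'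
  rw [h4]
  generalize hS : (∑' i, c i * Real.exp (-(u i * x ^ (((2 : ℝ) ^ (k + 1))⁻¹)))) = S
  field_simp

/-- Put `G(z) = exp (z^{1/2}/√π * ∫_0^∞ e^{-zX} X^{-1/2} Phi(X) dX)`, holomorphic on `Re z > 0` by
`laplace_analytic` and `Phi_integrable`.  For real `x` with `x^{1/2^(k+1)} ≥ a`, `Phi_laplace`,
`Dser_ofReal` and `Hyp.LD` give `G(x) = exp (Dser (x^{1/2^(k+1)})) = L (rt (k+1) x)`.  The
right side is holomorphic on `Re z > 0` too (`hasDerivAt_rt`), so they agree there by the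
identity theorem. -/
theorem L_eq_exp (H : Hyp c u a L) (k : ℕ) (ρ κ : ℝ)
    (h : Tendsto (fun X : ℝ => Phi c u k X + ρ * Real.log X) atTop (𝓝 κ)) (z : ℂ)
    (hz : 0 < z.re) :
    L (rt (k + 1) z) = Complex.exp (z ^ ((1 : ℂ) / 2) / (Real.sqrt Real.pi : ℂ) *
      ∫ X in Ioi (0 : ℝ), Complex.exp (-(z * X)) *
        ((X ^ (-(1 / 2) : ℝ) * Phi c u k X : ℝ) : ℂ)) := by
  set U : Set ℂ := {z : ℂ | 0 < z.re} with hU
  have hUo : IsOpen U := isOpen_lt continuous_const Complex.continuous_re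
  have hUc : IsPreconnected U := (convex_halfSpace_re_gt 0).isPreconnected
  have hslit : ∀ w ∈ U, w ∈ Complex.slitPlane := fun w hw => Or.inl hw
  have hF : DifferentiableOn ℂ (fun w => L (rt (k + 1) w)) U := by
    intro w hw
    exact ((H.Lent _).comp w
      (hasDerivAt_rt (k + 1) w (hslit w hw)).differentiableAt).differentiableWithinAt
  have hI := laplace_analytic (fun X : ℝ => X ^ (-(1 / 2) : ℝ) * Phi c u k X)
    (fun ε hε => Phi_integrable H k ρ κ h ε hε)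
  have hG : DifferentiableOn ℂ (fun w : ℂ => Complex.exp (w ^ ((1 : ℂ) / 2) /
      (Real.sqrt Real.pi : ℂ) * ∫ X in Ioi (0 : ℝ), Complex.exp (-(w * X)) *
        ((X ^ (-(1 / 2) : ℝ) * Phi c u k X : ℝ) : ℂ))) U := by
    refine DifferentiableOn.cexp (DifferentiableOn.mul ?_ hI)
    intro w hw
    exact ((differentiableAt_id.cpow (differentiableAt_const _)
      (hslit w hw)).div_const _).differentiableWithinAt
  have hFa := hF.analyticOnNhd hUo
  have hGa := hG.analyticOnNhd hUo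
  have ha0 : 0 < a := by linarith [H.apos]
  set x₀ : ℝ := a ^ (2 ^ (k + 1)) + 1 with hx₀
  have hx₀0 : 0 < x₀ := by positivity
  have hfreq : ∃ᶠ w in 𝓝[≠] (x₀ : ℂ), L (rt (k + 1) w) =
      Complex.exp (w ^ ((1 : ℂ) / 2) / (Real.sqrt Real.pi : ℂ) *
      ∫ X in Ioi (0 : ℝ), Complex.exp (-(w * X)) *
        ((X ^ (-(1 / 2) : ℝ) * Phi c u k X : ℝ) : ℂ)) := by
    have ht : Tendsto (fun x : ℝ => (x : ℂ)) (𝓝[≠] x₀) (𝓝[≠] (x₀ : ℂ)) := by
      refine tendsto_nhdsWithin_iff.2 ⟨?_, ?_⟩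
      · exact (Complex.continuous_ofReal.tendsto x₀).mono_left nhdsWithin_le_nhds
      · filter_upwards [self_mem_nhdsWithin] with x hx
        intro hxx
        exact hx (Complex.ofReal_injective hxx)
    refine ht.frequently (Eventually.frequently ?_)
    have hn : ∀ᶠ x : ℝ in 𝓝[≠] x₀, a ^ (2 ^ (k + 1)) < x :=
      nhdsWithin_le_nhds (lt_mem_nhds (by rw [hx₀]; linarith))
    filter_upwards [hn] with x hx
    have hx0 : 0 < x := lt_of_le_of_lt (by positivity) hx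
    refine idthm_real H k x hx0 ?_
    have h1 : a = (a ^ (2 ^ (k + 1))) ^ (((2 : ℝ) ^ (k + 1))⁻¹) := by
      rw [← Real.rpow_natCast, ← Real.rpow_mul ha0.le]
      push_cast
      rw [mul_inv_cancel₀ (by positivity), Real.rpow_one]
    calc a = (a ^ (2 ^ (k + 1))) ^ (((2 : ℝ) ^ (k + 1))⁻¹) := h1
      _ ≤ x ^ (((2 : ℝ) ^ (k + 1))⁻¹) :=
        Real.rpow_le_rpow (by positivity) hx.le (by positivity)
  exact hFa.eqOn_of_preconnected_of_frequently_eq hGa hUc
    (show (x₀ : ℂ) ∈ U by simpa [hU] using hx₀0) hfreq hz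

end BSDS
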