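import Mathlib

open MeasureTheory Set

namespace BSDS

lemma LaplaceAn_meas (h : ℝ → ℝ)
    (hi : ∀ ε : ℝ, 0 < ε → IntegrableOn (fun X : ℝ => Real.exp (-(ε * X)) * h X) (Ioi 0)) :
    AEStronglyMeasurable (fun X : ℝ => (h X : ℂ)) (volume.restrict (Ioi 0)) := by
  have h1 := (hi 1 one_pos).aestronglyMeasurable
  have h2 : AEStronglyMeasurable (fun X : ℝ => Real.exp X) (volume.restrict (Ioi 0)) :=
    Real.continuous_exp.aestronglyMeasurable
  have h3 := h2.mul h1
  have h4 : AEStronglyMeasurable h (volume.restrict (Ioi 0)) := by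
    apply h3.congr
    apply Filter.Eventually.of_forall
    intro X
    show Real.exp X * (Real.exp (-(1 * X)) * h X) = h X
    rw [← mul_assoc, ← Real.exp_add]
    simp
  exact Complex.continuous_ofReal.comp_aestronglyMeasurable h4

lemma LaplaceAn_bound {ε X : ℝ} (hε : 0 < ε) :
    X * Real.exp (-(ε * X)) ≤ 2 / ε * Real.exp (-(ε / 2 * X)) := by
  have h1 : Real.exp (-(ε * X)) = Real.exp (-(ε / 2 * X)) * Real.exp (-(ε / 2 * X)) := by
    rw [← Real.exp_add]; ring_nf
  have h2 : ε / 2 * X * Real.exp (-(ε / 2 * X)) ≤ 1 := by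
    have h3 := Real.add_one_le_exp (ε / 2 * X)
    have h4 : Real.exp (ε / 2 * X) * Real.exp (-(ε / 2 * X)) = 1 := by
      rw [← Real.exp_add]; simp
    have h5 := Real.exp_pos (-(ε / 2 * X))
    nlinarith
  have h3 : X * Real.exp (-(ε / 2 * X)) ≤ 2 / ε := by
    rw [le_div_iff₀ hε]
    linarith
  rw [h1, ← mul_assoc]
  exact mul_le_mul_of_nonneg_right h3 (Real.exp_pos _).le

/-- A Laplace transform is holomorphic in the half plane of absolute convergence
(`hasDerivAt_integral_of_dominated_loc_of_deriv_le`: near `z` with `Re z = 2ε` the derivative of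
the integrand is at most `X e^{-εX/2} e^{-εX/2} |h X| ≤ (2/ε) e^{-εX/2} |h X|`). -/
theorem laplace_analytic (h : ℝ → ℝ)
    (hi : ∀ ε : ℝ, 0 < ε → IntegrableOn (fun X : ℝ => Real.exp (-(ε * X)) * h X) (Ioi 0)) :
    DifferentiableOn ℂ (fun z : ℂ => ∫ X in Ioi (0 : ℝ), Complex.exp (-(z * X)) * (h X : ℂ))
      {z : ℂ | 0 < z.re} := by
  intro z hz
  have hz' : 0 < z.re := hz
  set ε : ℝ := z.re / 2 with hε
  have hε0 : 0 < ε := by rw [hε]; linarith
  have hmeas := LaplaceAn_meas h hi
  have hcexp : ∀ w : ℂ, AEStronglyMeasurable (fun X : ℝ => Complex.exp (-(w * X)))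
      (volume.restrict (Ioi 0)) := by
    intro w
    apply Continuous.aestronglyMeasurable
    fun_prop
  have hnorm : ∀ (w : ℂ) (X : ℝ), ‖Complex.exp (-(w * X))‖ = Real.exp (-(w.re * X)) := by
    intro w X
    rw [Complex.norm_exp]
    simp
  have key := hasDerivAt_integral_of_dominated_loc_of_deriv_le (𝕜 := ℂ) (E := ℂ)
    (μ := volume.restrict (Ioi (0 : ℝ))) (s := Metric.ball z ε) (x₀ := z)
    (F := fun (w : ℂ) (X : ℝ) => Complex.exp (-(w * X)) * (h X : ℂ))
    (F' := fun (w : ℂ) (X : ℝ) => Complex.exp (-(w * X)) * (-(X : ℂ)) * (h X : ℂ))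
    (bound := fun X : ℝ => 2 / ε * ‖Real.exp (-(ε / 2 * X)) * h X‖)
    (Metric.ball_mem_nhds z hε0)
    (Filter.Eventually.of_forall (fun w => (hcexp w).mul hmeas))
    ?_ ?_ ?_ ?_ ?_
  · exact key.2.differentiableAt.differentiableWithinAt
  · have h1 := (hi z.re hz').norm
    refine Integrable.mono' h1 ((hcexp z).mul hmeas) ?_
    apply Filter.Eventually.of_forall
    intro X
    show ‖Complex.exp (-(z * X)) * (h X : ℂ)‖ ≤ ‖Real.exp (-(z.re * X)) * h X‖
    rw [norm_mul, norm_mul, hnorm, Complex.norm_real, Real.norm_of_nonneg (Real.exp_pos _).le]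
  · apply AEStronglyMeasurable.mul _ hmeas
    apply (hcexp z).mul
    apply Continuous.aestronglyMeasurable
    fun_prop
  · rw [ae_restrict_iff' measurableSet_Ioi]
    apply Filter.Eventually.of_forall
    intro X hX w hw
    have hX' : 0 < X := hX
    have hwre : ε ≤ w.re := by
      rw [Metric.mem_ball, dist_eq_norm] at hw
      have h1 : |(w - z).re| ≤ ‖w - z‖ := Complex.abs_re_le_norm _
      rw [Complex.sub_re] at h1
      have h2 := (abs_le.1 h1).1
      linarith
    show ‖Complex.exp (-(w * X)) * (-(X : ℂ)) * (h X : ℂ)‖ ≤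
      2 / ε * ‖Real.exp (-(ε / 2 * X)) * h X‖
    rw [norm_mul, norm_mul, norm_mul, hnorm, norm_neg, Complex.norm_real, Complex.norm_real,
      Real.norm_of_nonneg hX'.le, Real.norm_of_nonneg (Real.exp_pos _).le, ← mul_assoc]
    apply mul_le_mul_of_nonneg_right _ (norm_nonneg _)
    calc Real.exp (-(w.re * X)) * X ≤ Real.exp (-(ε * X)) * X := by
          apply mul_le_mul_of_nonneg_right _ hX'.le
          apply Real.exp_le_exp.2
          have := mul_le_mul_of_nonneg_right hwre hX'.le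
          linarith
      _ = X * Real.exp (-(ε * X)) := mul_comm _ _
      _ ≤ 2 / ε * Real.exp (-(ε / 2 * X)) := LaplaceAn_bound hε0
  · exact ((hi (ε / 2) (by linarith)).norm).const_mul _
  · apply Filter.Eventually.of_forall
    intro X w _
    show HasDerivAt (fun w : ℂ => Complex.exp (-(w * X)) * (h X : ℂ))
      (Complex.exp (-(w * X)) * (-(X : ℂ)) * (h X : ℂ)) w
    apply HasDerivAt.mul_const
    have h1 : HasDerivAt (fun w : ℂ => -(w * (X : ℂ))) (-(X : ℂ)) w := by
      have h2 : HasDerivAt (fun w : ℂ => w * (-(X : ℂ))) (-(X : ℂ)) w := by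
        simpa using (hasDerivAt_id w).mul_const (-(X : ℂ))
      have h3 : (fun w : ℂ => -(w * (X : ℂ))) = (fun w : ℂ => w * (-(X : ℂ))) := by
        ext w; ring
      rw [h3]
      exact h2
    exact h1.cexp

end BSDS
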