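import Pool.Agent.W_92892c.CS

open MeasureTheory Set

namespace BSDS

theorem lev_nonneg (u y : ℝ) (hu : 0 ≤ u) : 0 ≤ lev u y :=
  mul_nonneg (div_nonneg hu (Real.sqrt_nonneg _)) (Real.exp_nonneg _)

theorem lev_meas : Measurable (fun q : ℝ × ℝ => lev q.1 q.2) := by
  unfold lev
  fun_prop

lemma Levy_sqrt {v : ℝ} (hv : 0 < v) :
    Real.sqrt (4 * Real.pi * (v⁻¹ ^ 2) ^ 3) = 2 * Real.sqrt Real.pi * (v⁻¹) ^ 3 := by
  have h1 : 4 * Real.pi * (v⁻¹ ^ 2) ^ 3 = (2 * v⁻¹ ^ 3) ^ 2 * Real.pi := by ring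
  have hv' : 0 < v⁻¹ := inv_pos.2 hv
  rw [h1, Real.sqrt_mul (by positivity), Real.sqrt_sq (by positivity)]
  ring

lemma Levy_point {u w v : ℝ} (hw : 0 ≤ w) (hv : 0 < v) :
    |(-2 * v⁻¹ ^ 3)| • (lev u (v⁻¹ ^ 2) * Real.exp (-(w * v⁻¹ ^ 2))) =
      (u / Real.sqrt Real.pi * Real.exp (-(u * Real.sqrt w))) *
        Real.exp (-(u / 2 * v - Real.sqrt w / v) ^ 2) := by
  have hv' : 0 < v⁻¹ := inv_pos.2 hv
  have hpi : 0 < Real.sqrt Real.pi := Real.sqrt_pos.2 Real.pi_pos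
  have h1 : |(-2 * v⁻¹ ^ 3)| = 2 * v⁻¹ ^ 3 := by
    rw [abs_of_nonpos (by nlinarith [pow_pos hv' 3])]
    ring
  have hsw : Real.sqrt w ^ 2 = w := Real.sq_sqrt hw
  have h2 : -(u ^ 2) / (4 * v⁻¹ ^ 2) + -(w * v⁻¹ ^ 2) =
      -(u * Real.sqrt w) + -(u / 2 * v - Real.sqrt w / v) ^ 2 := by
    have h3 : (u / 2 * v - Real.sqrt w / v) ^ 2 =
        u ^ 2 * v ^ 2 / 4 - u * Real.sqrt w * (v * v⁻¹) + Real.sqrt w ^ 2 * v⁻¹ ^ 2 := by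
      rw [div_eq_mul_inv (Real.sqrt w) v]
      ring
    have h4 : -(u ^ 2) / (4 * v⁻¹ ^ 2) = -(u ^ 2 * v ^ 2 / 4) := by
      field_simp
    rw [h3, h4, mul_inv_cancel₀ hv.ne', hsw]
    ring
  unfold lev
  rw [h1, Levy_sqrt hv, smul_eq_mul]
  have h5 : 2 * v⁻¹ ^ 3 * (u / (2 * Real.sqrt Real.pi * v⁻¹ ^ 3) *
      Real.exp (-(u ^ 2) / (4 * v⁻¹ ^ 2)) * Real.exp (-(w * v⁻¹ ^ 2))) =
      u / Real.sqrt Real.pi * (Real.exp (-(u ^ 2) / (4 * v⁻¹ ^ 2)) *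
        Real.exp (-(w * v⁻¹ ^ 2))) := by
    have h6 : 2 * v⁻¹ ^ 3 * (u / (2 * Real.sqrt Real.pi * v⁻¹ ^ 3)) = u / Real.sqrt Real.pi := by
      field_simp
    calc _ = (2 * v⁻¹ ^ 3 * (u / (2 * Real.sqrt Real.pi * v⁻¹ ^ 3))) *
          (Real.exp (-(u ^ 2) / (4 * v⁻¹ ^ 2)) * Real.exp (-(w * v⁻¹ ^ 2))) := by ring
      _ = _ := by rw [h6]
  rw [h5, ← Real.exp_add, h2, Real.exp_add]
  ring

lemma Levy_image : (fun v : ℝ => v⁻¹ ^ 2) '' Ioi 0 = Ioi 0 := by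
  ext y
  constructor
  · rintro ⟨v, hv, rfl⟩
    have hv' : 0 < v⁻¹ := inv_pos.2 hv
    exact pow_pos hv' 2
  · intro hy
    have hy' : (0 : ℝ) < y := hy
    refine ⟨(Real.sqrt y)⁻¹, inv_pos.2 (Real.sqrt_pos.2 hy'), ?_⟩
    show ((Real.sqrt y)⁻¹)⁻¹ ^ 2 = y
    rw [inv_inv, Real.sq_sqrt hy'.le]

lemma Levy_deriv : ∀ v ∈ Ioi (0 : ℝ),
    HasDerivWithinAt (fun v : ℝ => v⁻¹ ^ 2) (-2 * v⁻¹ ^ 3) (Ioi 0) v := by
  intro v hv
  have hv' : v ≠ 0 := ne_of_gt hv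
  have h1 := ((hasDerivAt_inv hv').pow 2).hasDerivWithinAt (s := Ioi (0 : ℝ))
  refine h1.congr_deriv ?_
  rw [inv_pow]
  field_simp
  ring

lemma Levy_inj : InjOn (fun v : ℝ => v⁻¹ ^ 2) (Ioi 0) := by
  intro v hv v' hv' h
  have h1 : 0 < v⁻¹ := inv_pos.2 hv
  have h2 : 0 < v'⁻¹ := inv_pos.2 hv'
  have h3 : v⁻¹ = v'⁻¹ := by
    have h4 : v⁻¹ ^ 2 = v'⁻¹ ^ 2 := h
    nlinarith [sq_nonneg (v⁻¹ - v'⁻¹)]
  exact inv_injective h3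

/-- Laplace transform of the Levy density.  Substitute `y = 1/v²`, `dy = -2 v^{-3} dv`:
`lev u y e^{-wy} dy = (u/√π) exp(-(u v/2)² - w/v²) dv`, and with `a = u/2`, `b = √w`:
`(u v/2)² + w/v² = (a v - b/v)² + 2ab`; `cs_integral a b` (here `a > 0`, `b ≥ 0`) gives
`(u/√π) e^{-u√w} √π/(2·u/2) = e^{-u√w}`. -/
theorem lev_laplace (u w : ℝ) (hu : 0 < u) (hw : 0 ≤ w) :
    IntegrableOn (fun y : ℝ => lev u y * Real.exp (-(w * y))) (Ioi 0) ∧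
    ∫ y in Ioi (0 : ℝ), lev u y * Real.exp (-(w * y)) = Real.exp (-(u * Real.sqrt w)) := by
  obtain ⟨h1, h2⟩ := cs_integral (u / 2) (Real.sqrt w) (by linarith) (Real.sqrt_nonneg w)
  have hpi : 0 < Real.sqrt Real.pi := Real.sqrt_pos.2 Real.pi_pos
  have hcongr : ∀ v ∈ Ioi (0 : ℝ), |(-2 * v⁻¹ ^ 3)| •
      (lev u (v⁻¹ ^ 2) * Real.exp (-(w * v⁻¹ ^ 2))) =
      (u / Real.sqrt Real.pi * Real.exp (-(u * Real.sqrt w))) *
        Real.exp (-(u / 2 * v - Real.sqrt w / v) ^ 2) := fun v hv => Levy_point hw hv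
  constructor
  · rw [← Levy_image]
    rw [integrableOn_image_iff_integrableOn_abs_deriv_smul measurableSet_Ioi Levy_deriv Levy_inj]
    exact (IntegrableOn.congr_fun (h1.const_mul _) (fun v hv => (hcongr v hv).symm)
      measurableSet_Ioi)
  · have h3 : ∫ y in Ioi (0 : ℝ), lev u y * Real.exp (-(w * y)) =
        ∫ y in (fun v : ℝ => v⁻¹ ^ 2) '' Ioi 0, lev u y * Real.exp (-(w * y)) := by
      rw [Levy_image]
    rw [h3, integral_image_eq_integral_abs_deriv_smul measurableSet_Ioi Levy_deriv Levy_inj,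
      setIntegral_congr_fun measurableSet_Ioi hcongr, integral_const_mul, h2]
    field_simp

/-- The case `w = 0`. -/
theorem lev_integrable (u : ℝ) (hu : 0 < u) :
    IntegrableOn (fun y : ℝ => lev u y) (Ioi 0) ∧ ∫ y in Ioi (0 : ℝ), lev u y = 1 := by
  have h := lev_laplace u 0 hu le_rfl
  simp only [zero_mul, neg_zero, Real.exp_zero, mul_one, Real.sqrt_zero, mul_zero] at h
  exact h

end BSDS
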