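import Pool.Agent.W_92892c.Levy

open MeasureTheory Set

namespace BSDS

theorem levyC_norm (u y : ℝ) (hu : 0 < u) (w : ℂ) :
    ‖(lev u y : ℂ) * Complex.exp (-(w * y))‖ = lev u y * Real.exp (-(w.re * y)) := by
  rw [norm_mul, Complex.norm_real, Complex.norm_exp, Real.norm_of_nonneg (lev_nonneg u y hu.le)]
  congr 2
  simp

theorem levyC_meas (u : ℝ) (w : ℂ) :
    Measurable (fun y : ℝ => (lev u y : ℂ) * Complex.exp (-(w * y))) := by
  have h1 : Measurable (fun y : ℝ => lev u y) :=
    lev_meas.comp (measurable_const.prodMk measurable_id)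
  have h2 : Continuous (fun y : ℝ => Complex.exp (-(w * y))) := by fun_prop
  exact (Complex.measurable_ofReal.comp h1).mul h2.measurable

theorem levyC_int (u : ℝ) (hu : 0 < u) (w : ℂ) (hw : 0 < w.re) :
    IntegrableOn (fun y : ℝ => (lev u y : ℂ) * Complex.exp (-(w * y))) (Ioi 0) := by
  have h := (lev_laplace u w.re hu hw.le).1
  unfold IntegrableOn at h ⊢
  rw [← integrable_norm_iff (levyC_meas u w).aestronglyMeasurable]
  refine h.congr (Filter.Eventually.of_forall fun y => ?_)
  exact (levyC_norm u y hu w).symm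

theorem levyC_diff (u : ℝ) (hu : 0 < u) (w : ℂ) (hw : 0 < w.re) :
    DifferentiableAt ℂ (fun w : ℂ => ∫ y in Ioi (0 : ℝ),
      (lev u y : ℂ) * Complex.exp (-(w * y))) w := by
  set c : ℝ := w.re / 2 with hc
  have hc0 : 0 < c := by rw [hc]; linarith
  have key := hasDerivAt_integral_of_dominated_loc_of_deriv_le
    (μ := volume.restrict (Ioi (0 : ℝ)))
    (F := fun (w : ℂ) (y : ℝ) => (lev u y : ℂ) * Complex.exp (-(w * y)))
    (F' := fun (w : ℂ) (y : ℝ) => (lev u y : ℂ) * (Complex.exp (-(w * y)) * (-(y : ℂ))))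
    (x₀ := w) (s := Metric.ball w c) (bound := fun y => lev u y * (1 / c))
    (Metric.ball_mem_nhds w hc0)
    (Filter.Eventually.of_forall fun z => (levyC_meas u z).aestronglyMeasurable)
    (levyC_int u hu w hw) ?_ ?_ ?_ ?_
  · exact key.2.differentiableAt
  · have h1 : Measurable (fun y : ℝ => lev u y) :=
      lev_meas.comp (measurable_const.prodMk measurable_id)
    have h2 : Continuous (fun y : ℝ => Complex.exp (-(w * y)) * (-(y : ℂ))) := by fun_prop
    exact ((Complex.measurable_ofReal.comp h1).mul h2.measurable).aestronglyMeasurable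
  · rw [ae_restrict_iff' measurableSet_Ioi]
    refine Filter.Eventually.of_forall fun y hy z hz => ?_
    have hy0 : 0 < y := hy
    have hz1 : c ≤ z.re := by
      have h1 : |(z - w).re| < c := lt_of_le_of_lt (Complex.abs_re_le_norm _)
        (by rw [← Complex.dist_eq]; exact hz)
      rw [Complex.sub_re] at h1
      have h2 := (abs_lt.1 h1).1
      linarith [hc]
    rw [← mul_assoc, norm_mul, levyC_norm u y hu z, norm_neg, Complex.norm_real,
      Real.norm_of_nonneg hy0.le]
    rw [mul_assoc]
    apply mul_le_mul_of_nonneg_left _ (lev_nonneg u y hu.le)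
    have h3 : Real.exp (-(z.re * y)) ≤ Real.exp (-(c * y)) := by
      apply Real.exp_le_exp.2
      nlinarith
    have h4 : c * y ≤ Real.exp (c * y) := by linarith [Real.add_one_le_exp (c * y)]
    have h5 : Real.exp (-(c * y)) * Real.exp (c * y) = 1 := by
      rw [← Real.exp_add]; simp
    calc Real.exp (-(z.re * y)) * y ≤ Real.exp (-(c * y)) * y :=
          mul_le_mul_of_nonneg_right h3 hy0.le
      _ = Real.exp (-(c * y)) * (c * y) * (1 / c) := by field_simp
      _ ≤ Real.exp (-(c * y)) * Real.exp (c * y) * (1 / c) := by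
          apply mul_le_mul_of_nonneg_right _ (by positivity)
          exact mul_le_mul_of_nonneg_left h4 (Real.exp_pos _).le
      _ = 1 / c := by rw [h5, one_mul]
  · exact ((lev_integrable u hu).1).mul_const (1 / c)
  · refine Filter.Eventually.of_forall fun y z _ => ?_
    have h0 : HasDerivAt (fun z : ℂ => z * (y : ℂ)) (1 * (y : ℂ)) z :=
      (hasDerivAt_id z).mul_const (y : ℂ)
    have h1 : HasDerivAt (fun z : ℂ => -(z * (y : ℂ))) (-(y : ℂ)) z := by
      rw [one_mul] at h0
      exact h0.neg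
    exact (h1.cexp).const_mul _

/-- Both sides are analytic in `w` on the right half plane (left: differentiation under the
integral sign, `|lev u y e^{-wy}| ≤ lev u y` and `y e^{-wy}` is bounded by `2/(w.re)` near `w`;
right: `w ↦ w^(1/2)` is analytic on the slit plane); they agree for real `w > 0` by
`lev_laplace`, hence everywhere by the identity theorem
(`AnalyticOnNhd.eqOn_of_preconnected_of_frequently_eq`, the half plane is convex).  Integrability:
norm at most `lev u y`. -/
theorem lev_laplace_complex (u : ℝ) (hu : 0 < u) (w : ℂ) (hw : 0 < w.re) :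
    IntegrableOn (fun y : ℝ => (lev u y : ℂ) * Complex.exp (-(w * y))) (Ioi 0) ∧
    ∫ y in Ioi (0 : ℝ), (lev u y : ℂ) * Complex.exp (-(w * y))
      = Complex.exp (-(u * w ^ ((1 : ℂ) / 2))) := by
  refine ⟨levyC_int u hu w hw, ?_⟩
  set U : Set ℂ := {z : ℂ | 0 < z.re} with hU
  have hUo : IsOpen U := isOpen_lt continuous_const Complex.continuous_re
  have hUc : IsPreconnected U := (convex_halfSpace_re_gt 0).isPreconnected
  have hf : AnalyticOnNhd ℂ (fun w : ℂ => ∫ y in Ioi (0 : ℝ),
      (lev u y : ℂ) * Complex.exp (-(w * y))) U := by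
    apply DifferentiableOn.analyticOnNhd _ hUo
    intro z hz
    exact (levyC_diff u hu z hz).differentiableWithinAt
  have hg : AnalyticOnNhd ℂ (fun w : ℂ => Complex.exp (-(u * w ^ ((1 : ℂ) / 2)))) U := by
    apply DifferentiableOn.analyticOnNhd _ hUo
    intro z hz
    have hz' : z ∈ Complex.slitPlane := Or.inl hz
    have h1 : DifferentiableAt ℂ (fun w : ℂ => w ^ ((1 : ℂ) / 2)) z :=
      (differentiableAt_id).cpow_const hz'
    exact ((h1.const_mul (u : ℂ)).neg.cexp).differentiableWithinAt
  have h1U : (1 : ℂ) ∈ U := by rw [hU]; simp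
  have hfr : ∃ᶠ z in nhdsWithin (1 : ℂ) {(1 : ℂ)}ᶜ, (∫ y in Ioi (0 : ℝ),
      (lev u y : ℂ) * Complex.exp (-(z * y))) = Complex.exp (-(u * z ^ ((1 : ℂ) / 2))) := by
    have ht : Filter.Tendsto (fun t : ℝ => (t : ℂ)) (nhdsWithin (1 : ℝ) {(1 : ℝ)}ᶜ)
        (nhdsWithin (1 : ℂ) {(1 : ℂ)}ᶜ) := by
      apply tendsto_nhdsWithin_of_tendsto_nhds_of_eventually_within
      · have : Filter.Tendsto (fun t : ℝ => (t : ℂ)) (nhds (1 : ℝ)) (nhds ((1 : ℝ) : ℂ)) :=
          Complex.continuous_ofReal.tendsto 1
        rw [Complex.ofReal_one] at this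
        exact this.mono_left nhdsWithin_le_nhds
      · filter_upwards [self_mem_nhdsWithin] with t ht
        intro h
        apply ht
        have h' : (t : ℂ) = 1 := h
        have : t = 1 := by exact_mod_cast h'
        exact this
    apply ht.frequently
    apply Filter.Eventually.frequently
    have hpos : ∀ᶠ t : ℝ in nhdsWithin (1 : ℝ) {(1 : ℝ)}ᶜ, 0 < t :=
      nhdsWithin_le_nhds (lt_mem_nhds one_pos)
    filter_upwards [hpos] with t ht0
    have h1 := (lev_laplace u t hu ht0.le).2
    have h2 : (∫ y in Ioi (0 : ℝ), (lev u y : ℂ) * Complex.exp (-((t : ℂ) * y)))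
        = ((∫ y in Ioi (0 : ℝ), lev u y * Real.exp (-(t * y)) : ℝ) : ℂ) := by
      rw [← integral_complex_ofReal]
      congr 1
      ext y
      push_cast
      rfl
    rw [h2, h1]
    have h3 : (t : ℂ) ^ ((1 : ℂ) / 2) = ((Real.sqrt t : ℝ) : ℂ) := by
      rw [Real.sqrt_eq_rpow, Complex.ofReal_cpow ht0.le]
      push_cast
      rfl
    rw [h3]
    push_cast
    rfl
  exact hf.eqOn_of_preconnected_of_frequently_eq hg hUc h1U hfr hw

end BSDS
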