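import Pool.Agent.W_92892c.ThmC
import Pool.Agent.W_92892c.Euler

open Filter Topology Set

namespace BSDS

/-- `smoothProd W k X ~ (4 e^γ X)^(r/2^(k+1)) / lam` as `X → ∞`. -/
def SmoothAsymp (W : WeierstrassCurve ℤ) (k r : ℕ) (lam : ℝ) : Prop :=
  Tendsto (fun X : ℝ => lam * smoothProd W k X /
    (4 * Real.exp Real.eulerMascheroniConstant * X) ^ ((r : ℝ) / 2 ^ (k + 1))) atTop (𝓝 1)

theorem SmoothAsymp_iff (W : WeierstrassCurve ℤ) (k r : ℕ) (lam : ℝ) :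
    SmoothAsymp W k r lam ↔ AS (cW W) uW k r lam := Iff.rfl

theorem tendsto_shift (L : ℂ → ℂ) (r : ℕ) (l : ℂ) :
    Tendsto (fun s : ℂ => L s / (s - 1) ^ r) (𝓝[≠] 1) (𝓝 l) ↔
      Tendsto (fun s : ℂ => L (1 + s) / s ^ r) (𝓝[≠] 0) (𝓝 l) := by
  have hmap : Filter.map (fun s : ℂ => 1 + s) (𝓝[≠] 0) = 𝓝[≠] 1 := by
    have h := (Homeomorph.addLeft (1 : ℂ)).isEmbedding.map_nhdsWithin_eq {(0 : ℂ)}ᶜ 0
    simpa [Homeomorph.addLeft, Set.image_compl_eq (Homeomorph.addLeft (1 : ℂ)).bijective] using h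
  rw [← hmap, Filter.tendsto_map'_iff]
  refine tendsto_congr fun s => ?_
  simp

theorem main (W : WeierstrassCurve ℤ) (L : ℂ → ℂ) (hL : Differentiable ℂ L)
    (hprod : ∀ s : ℂ, 3 / 2 < s.re → Tendsto (fun N : ℕ =>
      ∏ p ∈ (Finset.range N).filter Nat.Prime, (locFactor W p s)⁻¹) atTop (𝓝 (L s)))
    (r : ℕ) (lam : ℝ) (hlam : 0 < lam) :
    (∀ k : ℕ, SmoothAsymp W k r lam →
      Tendsto (fun s : ℂ => L s / (s - 1) ^ r) (𝓝[≠] 1) (𝓝 (lam : ℂ)) ∧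
      ∀ s : ℂ, s ≠ 1 → |(s - 1).arg| < Real.pi / 2 ^ (k + 2) → L s ≠ 0) ∧
    (∀ k : ℕ, Tendsto (fun s : ℂ => L s / (s - 1) ^ r) (𝓝[≠] 1) (𝓝 (lam : ℂ)) →
      (∀ s : ℂ, s ≠ 1 → |(s - 1).arg| < Real.pi / (3 * 2 ^ k) → L s ≠ 0) →
      SmoothAsymp W k r lam) ∧
    ((Tendsto (fun s : ℂ => L s / (s - 1) ^ r) (𝓝[≠] 1) (𝓝 (lam : ℂ)) ∧
      ∀ σ : ℝ, 1 < σ → L σ ≠ 0) ↔ ∃ k : ℕ, SmoothAsymp W k r lam) := by
  have H := hyp_W W L hL hprod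
  refine ⟨fun k hk => ?_, fun k h hs => ?_, ?_⟩
  · obtain ⟨h1, h2⟩ := thmC_one H k r lam hlam ((SmoothAsymp_iff W k r lam).1 hk)
    refine ⟨(tendsto_shift L r _).2 h1, fun s hs harg => ?_⟩
    have := h2 (s - 1) (sub_ne_zero.2 hs) harg
    simpa using this
  · refine (SmoothAsymp_iff W k r lam).2
      (thmC_two H k r lam hlam ((tendsto_shift L r _).1 h) fun s h0 harg => ?_)
    refine hs (1 + s) ?_ (by simpa using harg)
    intro h1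
    apply h0
    linear_combination h1
  · rw [tendsto_shift]
    have h3 := thmC H r lam hlam
    constructor
    · rintro ⟨h1, h2⟩
      obtain ⟨k, hk⟩ := h3.1 ⟨h1, fun x hx => by
        have := h2 (1 + x) (by linarith)
        simpa using this⟩
      exact ⟨k, (SmoothAsymp_iff W k r lam).2 hk⟩
    · rintro ⟨k, hk⟩
      obtain ⟨h1, h2⟩ := h3.2 ⟨k, (SmoothAsymp_iff W k r lam).1 hk⟩
      refine ⟨h1, fun σ hσ => ?_⟩
      have := h2 (σ - 1) (by linarith)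
      simpa using this

end BSDS
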