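import Pool.Agent.W_92892c.SectorCauchy
import Pool.Agent.W_92892c.NearZero
import Pool.Agent.W_92892c.Root
import Pool.Agent.W_92892c.DserBasic

open Filter Topology Set

namespace BSDS

variable {ι : Type} {c u : ι → ℝ} {a : ℝ} {L : ℂ → ℂ}

/-- `2^{-k} (s L'(s)/L(s) - r)` at `s = rt k z`. -/
noncomputable def Nf (L : ℂ → ℂ) (r k : ℕ) (z : ℂ) : ℂ :=
  ((2 : ℂ) ^ k)⁻¹ * (rt k z * deriv L (rt k z) / L (rt k z) - r)

theorem NFun_re_pos {z : ℂ} (h : z ∈ Sec) : 0 < z.re := by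
  have h1 := (mem_Sec_iff z).1 h
  have h2 : 0 < Real.sqrt 3 := Real.sqrt_pos.2 (by norm_num)
  have h3 : 0 < Real.sqrt 3 * z.re := lt_of_le_of_lt (abs_nonneg _) h1
  exact (mul_pos_iff_of_pos_left h2).1 h3

theorem NFun_slit {z : ℂ} (h : z ∈ Sec) : z ∈ Complex.slitPlane :=
  Or.inl (NFun_re_pos h)

theorem NFun_smul_mem {w : ℂ} (hw : w ∈ Sec) {x : ℝ} (hx : 0 < x) : (x : ℂ) * w ∈ Sec := by
  refine ⟨mul_ne_zero (Complex.ofReal_ne_zero.2 hx.ne') hw.1, ?_⟩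
  rw [Complex.arg_real_mul w hx]
  exact hw.2

theorem NFun_exp_pos (k : ℕ) : 0 < (((2 : ℝ) ^ k)⁻¹) := by positivity

theorem NFun_exp_le (k : ℕ) : (((2 : ℝ) ^ k)⁻¹) ≤ 1 := by
  apply inv_le_one_of_one_le₀
  exact one_le_pow₀ (by norm_num)

theorem NFun_norm_inv (k : ℕ) : ‖((2 : ℂ) ^ k)⁻¹‖ ≤ 1 := by
  rw [norm_inv, norm_pow, Complex.norm_two]
  exact NFun_exp_le k

theorem Nf_differentiableOn (L : ℂ → ℂ) (hL : Differentiable ℂ L) (r k : ℕ)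
    (hz : ∀ z ∈ Sec, L (rt k z) ≠ 0) : DifferentiableOn ℂ (Nf L r k) Sec := by
  intro z hzS
  have h1 : DifferentiableAt ℂ (rt k) z := (hasDerivAt_rt k z (NFun_slit hzS)).differentiableAt
  have h2 : DifferentiableAt ℂ (fun z => L (rt k z)) z :=
    DifferentiableAt.comp (g := L) z (hL _) h1
  have h3 : Differentiable ℂ (deriv L) := by
    have : DifferentiableOn ℂ (deriv L) Set.univ := hL.differentiableOn.deriv isOpen_univ
    exact differentiableOn_univ.1 this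
  have h4 : DifferentiableAt ℂ (fun z => deriv L (rt k z)) z :=
    DifferentiableAt.comp (g := deriv L) z (h3 _) h1
  have h5 : DifferentiableAt ℂ (Nf L r k) z := by
    unfold Nf
    exact (((h1.mul h4).div h2 (hz z hzS)).sub_const _).const_mul _
  exact h5.differentiableWithinAt

/-- Near `0`: `near_zero` at `s = rt k z`, `‖s‖ = ‖z‖^{1/2^k}`. -/
theorem Nf_near_zero (L : ℂ → ℂ) (hL : Differentiable ℂ L) (r k : ℕ) (ℓ : ℂ) (hℓ : ℓ ≠ 0)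
    (h : Tendsto (fun s : ℂ => L s / s ^ r) (𝓝[≠] 0) (𝓝 ℓ)) :
    ∃ δ : ℝ, 0 < δ ∧ ∃ K : ℝ, 0 ≤ K ∧ ∀ z : ℂ, z ≠ 0 → ‖z‖ ≤ δ →
      ‖Nf L r k z‖ ≤ K * ‖z‖ ^ (((2 : ℝ) ^ k)⁻¹) := by
  obtain ⟨ε, hε, K, hK, hb⟩ := near_zero L hL r ℓ hℓ h
  refine ⟨(ε / 2) ^ (2 ^ k), by positivity, K, hK, ?_⟩
  intro z hz0 hz
  have h1 : ‖rt k z‖ ≤ ε / 2 := by
    rw [norm_rt]
    calc ‖z‖ ^ (((2 : ℝ) ^ k)⁻¹) ≤ ((ε / 2) ^ (2 ^ k)) ^ (((2 : ℝ) ^ k)⁻¹) :=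
          Real.rpow_le_rpow (norm_nonneg _) hz (NFun_exp_pos k).le
      _ = ε / 2 := by
          have h2 := Real.pow_rpow_inv_natCast (x := ε / 2) (n := 2 ^ k) (by positivity)
            (by positivity)
          push_cast at h2
          exact h2
  have h3 := (hb (rt k z) (rt_ne_zero k z hz0) (by linarith)).2
  unfold Nf
  rw [norm_mul]
  calc ‖((2 : ℂ) ^ k)⁻¹‖ * ‖rt k z * deriv L (rt k z) / L (rt k z) - r‖
      ≤ 1 * (K * ‖rt k z‖) := mul_le_mul (NFun_norm_inv k) h3 (norm_nonneg _) zero_le_one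
    _ = K * ‖z‖ ^ (((2 : ℝ) ^ k)⁻¹) := by rw [one_mul, norm_rt]

/-- On a ray of the sector: near `0` by `Nf_near_zero`, on the rest of `(0,1]` by compactness
(continuity of `x ↦ Nf (x w)` on `[δ', 1]`). -/
theorem Nf_ray (L : ℂ → ℂ) (hL : Differentiable ℂ L) (r k : ℕ) (ℓ : ℂ) (hℓ : ℓ ≠ 0)
    (h : Tendsto (fun s : ℂ => L s / s ^ r) (𝓝[≠] 0) (𝓝 ℓ))
    (hz : ∀ z ∈ Sec, L (rt k z) ≠ 0) (w : ℂ) (hw : w ∈ Sec) :
    ∃ K : ℝ, 0 ≤ K ∧ ∀ x : ℝ, 0 < x → x ≤ 1 → ‖Nf L r k (x * w)‖ ≤ K * x ^ (((2 : ℝ) ^ k)⁻¹) := by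
  obtain ⟨δ, hδ, K₀, hK₀, hb⟩ := Nf_near_zero L hL r k ℓ hℓ h
  have hw0 : 0 < ‖w‖ := norm_pos_iff.2 hw.1
  set p : ℝ := ((2 : ℝ) ^ k)⁻¹ with hp
  have hp0 : 0 < p := NFun_exp_pos k
  set d : ℝ := δ / ‖w‖ with hd
  have hd0 : 0 < d := div_pos hδ hw0
  have hcont : ContinuousOn (fun x : ℝ => ‖Nf L r k ((x : ℂ) * w)‖) (Set.Icc d 1) := by
    have h1 : ContinuousOn (Nf L r k) Sec := (Nf_differentiableOn L hL r k hz).continuousOn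
    refine ContinuousOn.norm (h1.comp (f := fun x : ℝ => (x : ℂ) * w) ?_ ?_)
    · exact (Complex.continuous_ofReal.mul continuous_const).continuousOn
    · intro x hx
      exact NFun_smul_mem hw (lt_of_lt_of_le hd0 hx.1)
  obtain ⟨K₁, hK₁⟩ := (isCompact_Icc (a := d) (b := (1 : ℝ))).exists_bound_of_continuousOn hcont
  refine ⟨K₀ * ‖w‖ ^ p + |K₁| * (d ^ p)⁻¹, by positivity, ?_⟩
  intro x hx0 hx1
  have hnorm : ‖(x : ℂ) * w‖ = x * ‖w‖ := by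
    rw [norm_mul, Complex.norm_real, Real.norm_of_nonneg hx0.le]
  have hxp : 0 ≤ x ^ p := Real.rpow_nonneg hx0.le _
  by_cases hc : x ≤ d
  · have h1 : ‖(x : ℂ) * w‖ ≤ δ := by
      rw [hnorm]
      calc x * ‖w‖ ≤ d * ‖w‖ := by gcongr
        _ = δ := by rw [hd]; field_simp
    have h2 := hb ((x : ℂ) * w) (NFun_smul_mem hw hx0).1 h1
    rw [hnorm, Real.mul_rpow hx0.le hw0.le] at h2
    calc ‖Nf L r k (x * w)‖ ≤ K₀ * (x ^ p * ‖w‖ ^ p) := h2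
      _ = K₀ * ‖w‖ ^ p * x ^ p := by ring
      _ ≤ (K₀ * ‖w‖ ^ p + |K₁| * (d ^ p)⁻¹) * x ^ p := by
          apply mul_le_mul_of_nonneg_right _ hxp
          have : 0 ≤ |K₁| * (d ^ p)⁻¹ := by positivity
          linarith
  · push Not at hc
    have h1 := hK₁ x ⟨hc.le, hx1⟩
    rw [norm_norm] at h1
    have h2 : 1 ≤ (d ^ p)⁻¹ * x ^ p := by
      have h3 : d ^ p ≤ x ^ p := Real.rpow_le_rpow hd0.le hc.le hp0.le
      have h4 : 0 < d ^ p := Real.rpow_pos_of_pos hd0 _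
      calc (1 : ℝ) = (d ^ p)⁻¹ * d ^ p := (inv_mul_cancel₀ h4.ne').symm
        _ ≤ (d ^ p)⁻¹ * x ^ p := mul_le_mul_of_nonneg_left h3 (by positivity)
    calc ‖Nf L r k (x * w)‖ ≤ K₁ := h1
      _ ≤ |K₁| * 1 := by rw [mul_one]; exact le_abs_self _
      _ ≤ |K₁| * ((d ^ p)⁻¹ * x ^ p) := mul_le_mul_of_nonneg_left h2 (abs_nonneg _)
      _ = (|K₁| * (d ^ p)⁻¹) * x ^ p := by ring
      _ ≤ (K₀ * ‖w‖ ^ p + |K₁| * (d ^ p)⁻¹) * x ^ p := by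
          apply mul_le_mul_of_nonneg_right _ hxp
          have : 0 ≤ K₀ * ‖w‖ ^ p := by positivity
          linarith

/-- On the line `Re z = b`, `b` large: `s L'/L = s Dser'(s)`, `Re s ≥ b^{1/2^k} > a + 1`,
`‖Dser'(s)‖ ≤ M`, `‖s‖ = ‖z‖^{1/2^k} ≤ ‖z‖ ≤ b + |t|`. -/
theorem Nf_line (H : Hyp c u a L) (r k : ℕ) (b : ℝ) (hb : 1 ≤ b)
    (hba : a + 1 < b ^ (((2 : ℝ) ^ k)⁻¹)) :
    ∃ K : ℝ, 0 ≤ K ∧ ∀ t : ℝ, ‖Nf L r k ((b : ℂ) + t * Complex.I)‖ ≤ K * (1 + |t|) := by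
  have hM := Mc_nonneg H
  set M := Mc c u a with hMd
  refine ⟨b * M + M + r, by positivity, ?_⟩
  intro t
  set z : ℂ := (b : ℂ) + t * Complex.I with hzd
  have hre : z.re = b := by simp [hzd]
  have him : z.im = t := by simp [hzd]
  have hs1 := re_rt_ge k z (by rw [hre]; linarith)
  rw [hre] at hs1
  have hs2 : a + 1 < (rt k z).re := lt_of_lt_of_le hba hs1
  have hD := Dser_deriv_bound H (rt k z) hs2
  have hE := Dser_deriv_eq H (rt k z) (by linarith)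
  have hz1 : 1 ≤ ‖z‖ := by
    calc (1 : ℝ) ≤ b := hb
      _ = z.re := hre.symm
      _ ≤ |z.re| := le_abs_self _
      _ ≤ ‖z‖ := Complex.abs_re_le_norm z
  have hz2 : ‖z‖ ≤ b + |t| := by
    calc ‖z‖ ≤ |z.re| + |z.im| := Complex.norm_le_abs_re_add_abs_im z
      _ = b + |t| := by rw [hre, him, abs_of_nonneg (by linarith)]
  have hs3 : ‖rt k z‖ ≤ b + |t| := by
    rw [norm_rt]
    calc ‖z‖ ^ (((2 : ℝ) ^ k)⁻¹) ≤ ‖z‖ ^ (1 : ℝ) :=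
          Real.rpow_le_rpow_of_exponent_le hz1 (NFun_exp_le k)
      _ = ‖z‖ := Real.rpow_one _
      _ ≤ b + |t| := hz2
  have hbt : 0 ≤ b + |t| := by positivity
  have h1 : ‖rt k z * deriv L (rt k z) / L (rt k z) - r‖ ≤ (b + |t|) * M + r := by
    rw [mul_div_assoc, ← hE]
    calc ‖rt k z * deriv (Dser c u) (rt k z) - r‖
        ≤ ‖rt k z * deriv (Dser c u) (rt k z)‖ + ‖(r : ℂ)‖ := norm_sub_le _ _
      _ = ‖rt k z‖ * ‖deriv (Dser c u) (rt k z)‖ + r := by rw [norm_mul, Complex.norm_natCast]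
      _ ≤ (b + |t|) * M + r := by
          have := mul_le_mul hs3 hD (norm_nonneg _) hbt
          linarith
  unfold Nf
  rw [norm_mul]
  have h2 : (b + |t|) * M + r ≤ (b * M + M + r) * (1 + |t|) := by
    have h3 : 0 ≤ |t| := abs_nonneg t
    have h4 : (0 : ℝ) ≤ r := Nat.cast_nonneg r
    nlinarith [mul_nonneg (mul_nonneg (by linarith : (0 : ℝ) ≤ b) hM) h3, mul_nonneg h4 h3]
  calc ‖((2 : ℂ) ^ k)⁻¹‖ * ‖rt k z * deriv L (rt k z) / L (rt k z) - r‖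
      ≤ 1 * ((b + |t|) * M + r) := mul_le_mul (NFun_norm_inv k) h1 (norm_nonneg _) zero_le_one
    _ ≤ (b * M + M + r) * (1 + |t|) := by rw [one_mul]; exact h2

end BSDS
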