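import Pool.Agent.W_92892c.WtLine
import Pool.Agent.W_92892c.PhiBasic

open MeasureTheory Set

namespace BSDS

variable {ι : Type} {c u : ι → ℝ} {a : ℝ} {L : ℂ → ℂ}

theorem PhiLine_re (b t : ℝ) : ((b : ℂ) + t * Complex.I).re = b := by
  simp

theorem PhiLine_norm (H : Hyp c u a L) (k : ℕ) (b X : ℝ) (hb : 0 < b)
    (hba : a ≤ b ^ (((2 : ℝ) ^ k)⁻¹)) (i : ι) (t : ℝ) :
    ‖Complex.exp (X * ((b : ℂ) + t * Complex.I) ^ 2) *
      ((c i : ℂ) * Complex.exp (-((u i : ℂ) * rt k ((b : ℂ) + t * Complex.I))))‖ ≤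
      Real.exp (X * (b ^ 2 - t ^ 2)) * (|c i| * Real.exp (-(a * u i))) := by
  rw [norm_mul, norm_gauss, norm_mul, Complex.norm_real, Real.norm_eq_abs, Complex.norm_exp]
  have h1 : (-((u i : ℂ) * rt k ((b : ℂ) + t * Complex.I))).re =
      -(u i * (rt k ((b : ℂ) + t * Complex.I)).re) := by
    rw [Complex.neg_re, Complex.re_ofReal_mul]
  have h2 : a ≤ (rt k ((b : ℂ) + t * Complex.I)).re := by
    have h3 := re_rt_ge k ((b : ℂ) + t * Complex.I) (by rw [PhiLine_re]; exact hb)
    rw [PhiLine_re] at h3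
    exact hba.trans h3
  have h4 : 0 ≤ u i := by linarith [H.upos i]
  rw [h1]
  have h5 : -(u i * (rt k ((b : ℂ) + t * Complex.I)).re) ≤ -(a * u i) := by
    have := mul_le_mul_of_nonneg_left h2 h4
    linarith
  have h6 := Real.exp_le_exp.2 h5
  gcongr

/-- Sum of `wt_line` over `i`, exchanged with the integral: the `i`-th integrand has norm at most
`|c i| e^{X(b²-t²)} e^{-a u i}` since `Re rt k (b+it) ≥ b^{1/2^k} ≥ a` (`re_rt_ge`). -/
theorem Phi_line (H : Hyp c u a L) (k : ℕ) (b X : ℝ) (hb : 0 < b)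
    (hba : a ≤ b ^ (((2 : ℝ) ^ k)⁻¹)) (hX : 0 < X) :
    (Phi c u k X : ℂ) = (Real.sqrt (X / Real.pi) : ℂ) *
      ∫ t : ℝ, Complex.exp (X * ((b : ℂ) + t * Complex.I) ^ 2) *
        Dser c u (rt k ((b : ℂ) + t * Complex.I)) := by
  have := H.cnt
  set F : ι → ℝ → ℂ := fun i t => Complex.exp (X * ((b : ℂ) + t * Complex.I) ^ 2) *
      ((c i : ℂ) * Complex.exp (-((u i : ℂ) * rt k ((b : ℂ) + t * Complex.I)))) with hF
  have hup : ∀ i, 0 < u i := fun i => by linarith [H.upos i]
  have hFeq : ∀ i, F i = fun t : ℝ => (c i : ℂ) *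
      (Complex.exp (X * ((b : ℂ) + t * Complex.I) ^ 2) *
        Complex.exp (-(u i * rt k ((b : ℂ) + t * Complex.I)))) := by
    intro i
    funext t
    simp only [hF]
    ring
  have hint : ∀ i, Integrable (F i) := by
    intro i
    rw [hFeq]
    exact (wt_line_integrable k b X (u i) hb hX (hup i).le).const_mul _
  have hsum : Summable fun i => ∫ t, ‖F i t‖ := by
    refine Summable.of_nonneg_of_le (fun i => integral_nonneg fun t => norm_nonneg _)
      (fun i => ?_) (H.sm.mul_left (∫ t : ℝ, Real.exp (X * (b ^ 2 - t ^ 2))))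
    rw [← integral_mul_const]
    exact integral_mono (hint i).norm ((gauss_integrable b X hX).mul_const _)
      fun t => PhiLine_norm H k b X hb hba i t
  have key := integral_tsum_of_summable_integral_norm hint hsum
  have hR : ∫ t : ℝ, ∑' i, F i t = ∫ t : ℝ, Complex.exp (X * ((b : ℂ) + t * Complex.I) ^ 2) *
        Dser c u (rt k ((b : ℂ) + t * Complex.I)) := by
    refine integral_congr_ae (Filter.Eventually.of_forall fun t => ?_)
    simp only [hF, Dser]
    exact tsum_mul_left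
  rw [← hR, ← key, ← tsum_mul_left, Phi, Complex.ofReal_tsum]
  refine tsum_congr fun i => ?_
  rw [hFeq, integral_const_mul, Complex.ofReal_mul, wt_line k b X (u i) hb hX (hup i)]
  ring

end BSDS
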