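import Pool.Agent.W_92892c.NFun

open Filter Topology Set

namespace BSDS

variable {ι : Type} {c u : ι → ℝ} {a : ℝ} {L : ℂ → ℂ}

/-- a point of positive real part with argument `0` is a positive real number -/
lemma SecExists_real {s : ℂ} (hs : 0 < s.re) (h : s.arg = 0) : s = ((s.re : ℝ) : ℂ) := by
  have h1 := (Complex.arg_eq_zero_iff.1 h).2
  exact Complex.ext rfl (by simpa using h1)

/-- `|arg s| < π/3` implies `‖s‖ ≤ 2 Re s` -/
lemma SecExists_norm {s : ℂ} (hs : s ≠ 0) (h : |s.arg| < Real.pi / 3) : ‖s‖ ≤ 2 * s.re := by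
  have h1 : Real.cos (Real.pi / 3) < Real.cos |s.arg| := by
    apply Real.cos_lt_cos_of_nonneg_of_le_pi (abs_nonneg _) _ h
    linarith [Real.pi_pos]
  rw [Real.cos_abs, Real.cos_pi_div_three, Complex.cos_arg hs] at h1
  have h2 : 0 < ‖s‖ := norm_pos_iff.2 hs
  rw [lt_div_iff₀ h2] at h1
  linarith

/-- If `L` has no zero on `(0,∞)` then for some `k` it has none in the closed sector
`0 < |s|, |arg s| ≤ π/(3·2^k)`.  Zeros have `Re s < a` (`L_ne_zero`); near `0` there is no zero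
except possibly `0` (`near_zero` with `exists_order`, or `AnalyticAt` isolated zeros); the set of
zeros with `ε ≤ ‖s‖`, `|arg s| ≤ π/3`, `Re s ≤ a` is compact and does not meet `(0,∞)`, so
`|arg|` is continuous and positive on it and has a positive minimum `θ₀` (or the set is empty);
take `π/(3·2^k) < θ₀`. -/
theorem sec_exists (H : Hyp c u a L) (hpos : ∀ x : ℝ, 0 < x → L x ≠ 0) :
    ∃ k : ℕ, ∀ s : ℂ, s ≠ 0 → |s.arg| < Real.pi / (3 * 2 ^ k) → L s ≠ 0 := by
  have ha : L (a : ℂ) ≠ 0 := L_ne_zero H a (by simp)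
  obtain ⟨n, ℓ, hℓ, hn⟩ := exists_order L H.Lent a ha
  obtain ⟨ε, hε, _, _, hz⟩ := near_zero L H.Lent n ℓ hℓ hn
  obtain ⟨K, hK⟩ : ∃ K : Set ℂ, K = {s : ℂ | ε ≤ ‖s‖ ∧ ‖s‖ ≤ 2 * s.re ∧ s.re ≤ a ∧ L s = 0} :=
    ⟨_, rfl⟩
  have hcl : IsClosed K := by
    rw [hK]
    refine (isClosed_le continuous_const continuous_norm).inter
      ((isClosed_le continuous_norm (continuous_const.mul Complex.continuous_re)).inter
      ((isClosed_le Complex.continuous_re continuous_const).inter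
      (isClosed_eq H.Lent.continuous continuous_const)))
  have hbd : K ⊆ Metric.closedBall 0 (2 * a) := by
    intro s hs
    rw [hK] at hs
    rw [mem_closedBall_zero_iff]
    linarith [hs.2.1, hs.2.2.1]
  have hcomp : IsCompact K := (isCompact_closedBall (0 : ℂ) (2 * a)).of_isClosed_subset hcl hbd
  have hre : ∀ s ∈ K, 0 < s.re := by
    intro s hs
    rw [hK] at hs
    linarith [hs.1, hs.2.1]
  have harg : ∀ s ∈ K, 0 < |s.arg| := by
    intro s hs
    rw [abs_pos]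
    intro h0
    have h1 := SecExists_real (hre s hs) h0
    have h2 := hpos s.re (hre s hs)
    rw [← h1] at h2
    rw [hK] at hs
    exact h2 hs.2.2.2
  have hmem : ∀ s : ℂ, s ≠ 0 → |s.arg| < Real.pi / 3 → L s = 0 → s ∈ K := by
    intro s hs h1 h2
    rw [hK]
    refine ⟨?_, SecExists_norm hs h1, ?_, h2⟩
    · by_contra hcon
      exact (hz s hs (not_le.1 hcon)).1 h2
    · by_contra hcon
      exact L_ne_zero H s (not_le.1 hcon).le h2
  have hcont : ContinuousOn (fun s : ℂ => |s.arg|) K := by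
    intro s hs
    have h1 : s ∈ Complex.slitPlane := Or.inl (hre s hs)
    exact ((Complex.continuousAt_arg h1).abs).continuousWithinAt
  obtain ⟨θ, hθ, hmin⟩ : ∃ θ : ℝ, 0 < θ ∧ ∀ s ∈ K, θ ≤ |s.arg| := by
    rcases K.eq_empty_or_nonempty with h | h
    · exact ⟨1, one_pos, fun s hs => by rw [h] at hs; exact absurd hs (Set.notMem_empty s)⟩
    · obtain ⟨s₀, hs₀, hm⟩ := hcomp.exists_isMinOn h hcont
      exact ⟨|s₀.arg|, harg s₀ hs₀, fun s hs => hm hs⟩
  obtain ⟨k, hk⟩ := exists_nat_gt (Real.pi / (3 * θ))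
  have hk2 : Real.pi / (3 * 2 ^ k) < θ := by
    have h1 : (k : ℝ) < 2 ^ k := by exact_mod_cast Nat.lt_two_pow_self
    rw [div_lt_iff₀ (by positivity)] at hk ⊢
    nlinarith
  have hk3 : Real.pi / (3 * 2 ^ k) ≤ Real.pi / 3 := by
    apply div_le_div_of_nonneg_left Real.pi_pos.le (by norm_num)
    have h1 : (1 : ℝ) ≤ 2 ^ k := one_le_pow₀ (by norm_num)
    linarith
  refine ⟨k, fun s hs h1 h2 => ?_⟩
  have h3 := hmin s (hmem s hs (lt_of_lt_of_le h1 hk3) h2)
  linarith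

/-- Transfer to `rt k z`, `z ∈ Sec` (`arg_rt`). -/
theorem sec_transfer (L : ℂ → ℂ) (k : ℕ)
    (h : ∀ s : ℂ, s ≠ 0 → |s.arg| < Real.pi / (3 * 2 ^ k) → L s ≠ 0) :
    ∀ z ∈ Sec, L (rt k z) ≠ 0 := by
  rintro z ⟨hz, hz2⟩
  apply h _ (rt_ne_zero k z hz)
  have h2 : (0 : ℝ) < 2 ^ k := by positivity
  rw [arg_rt k z hz, abs_div, abs_of_pos h2, div_lt_iff₀ h2]
  have h3 : Real.pi / (3 * 2 ^ k) * 2 ^ k = Real.pi / 3 := by
    field_simp
  rw [h3]
  exact hz2

/-- Conversely from `Re z > 0` (`rt_pow`, `re_pow_pos` with `k+1`). -/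
theorem sec_back (L : ℂ → ℂ) (k : ℕ)
    (h : ∀ z : ℂ, 0 < z.re → L (rt (k + 1) z) ≠ 0) :
    ∀ s : ℂ, s ≠ 0 → |s.arg| < Real.pi / 2 ^ (k + 2) → L s ≠ 0 := by
  intro s hs h1
  have h2 := re_pow_pos (k + 1) s hs h1
  have h3 : |s.arg| < Real.pi / 2 ^ (k + 1) := by
    refine h1.trans_le ?_
    apply div_le_div_of_nonneg_left Real.pi_pos.le (by positivity)
    exact pow_le_pow_right₀ (by norm_num) (by omega)
  have h4 := h _ h2
  rw [rt_pow (k + 1) s h3] at h4
  exact h4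

end BSDS
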