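import Pool.Agent.W_92892c.IdThm
import Pool.Agent.W_92892c.AbelLim

open Filter Topology Set MeasureTheory

namespace BSDS

variable {ι : Type} {c u : ι → ℝ} {a : ℝ} {L : ℂ → ℂ}

/-- Zero-free sector, from `L_eq_exp`. -/
theorem thmA_zero (H : Hyp c u a L) (k : ℕ) (ρ κ : ℝ)
    (h : Tendsto (fun X : ℝ => Phi c u k X + ρ * Real.log X) atTop (𝓝 κ)) (z : ℂ)
    (hz : 0 < z.re) : L (rt (k + 1) z) ≠ 0 := by
  rw [L_eq_exp H k ρ κ h z hz]
  exact Complex.exp_ne_zero _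

/-- The value at real points. -/
theorem thmA_real (H : Hyp c u a L) (k : ℕ) (ρ κ : ℝ)
    (h : Tendsto (fun X : ℝ => Phi c u k X + ρ * Real.log X) atTop (𝓝 κ)) (x : ℝ)
    (hx : 0 < x) :
    L ((x ^ (((2 : ℝ) ^ (k + 1))⁻¹) : ℝ) : ℂ) * ((x ^ (-ρ) : ℝ) : ℂ) =
      ((Real.exp (Real.sqrt (x / Real.pi) *
        (∫ X in Ioi (0 : ℝ), Real.exp (-(x * X)) * (X ^ (-(1 / 2) : ℝ) * Phi c u k X)) -
          ρ * Real.log x) : ℝ) : ℂ) := by
  have h1 := L_eq_exp H k ρ κ h (x : ℂ) (by simpa using hx)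
  rw [rt_ofReal (k + 1) x hx.le] at h1
  have h2 : (∫ X in Ioi (0 : ℝ), Complex.exp (-((x : ℂ) * X)) *
        ((X ^ (-(1 / 2) : ℝ) * Phi c u k X : ℝ) : ℂ)) =
      ((∫ X in Ioi (0 : ℝ), Real.exp (-(x * X)) * (X ^ (-(1 / 2) : ℝ) * Phi c u k X) : ℝ) : ℂ) := by
    rw [← integral_complex_ofReal]
    refine integral_congr_ae (Eventually.of_forall fun X => ?_)
    simp only [Complex.ofReal_mul, Complex.ofReal_exp, Complex.ofReal_neg]
  have h3 : (x : ℂ) ^ ((1 : ℂ) / 2) = ((Real.sqrt x : ℝ) : ℂ) := by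
    rw [Real.sqrt_eq_rpow, Complex.ofReal_cpow hx.le]
    norm_num
  rw [h1, h2, h3]
  have h4 : x ^ (-ρ) = Real.exp (-(ρ * Real.log x)) := by
    rw [Real.rpow_def_of_pos hx]
    congr 1
    ring
  have h5 : Real.sqrt (x / Real.pi) = Real.sqrt x / Real.sqrt Real.pi := Real.sqrt_div hx.le _
  rw [h4, h5, sub_eq_add_neg, Real.exp_add]
  push_cast
  rfl

/-- `L_eq_exp` at real `x` and `abel_lim` with `φ = Phi c u k` (`Phi_meas`, `Phi_bound_one`,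
`Phi_add_bound`): `L(x^{1/2^(k+1)}) x^{-ρ} = exp (√(x/π) ∫ ... - ρ log x)
→ exp (κ + ρ (γ + 2 log 2)) = e^κ (4 e^γ)^ρ`. -/
theorem thmA_lim (H : Hyp c u a L) (k : ℕ) (ρ κ : ℝ)
    (h : Tendsto (fun X : ℝ => Phi c u k X + ρ * Real.log X) atTop (𝓝 κ)) :
    Tendsto (fun x : ℝ => L ((x ^ (((2 : ℝ) ^ (k + 1))⁻¹) : ℝ) : ℂ) * ((x ^ (-ρ) : ℝ) : ℂ))
      (𝓝[>] 0)
      (𝓝 ((Real.exp κ * (4 * Real.exp Real.eulerMascheroniConstant) ^ ρ : ℝ) : ℂ)) := by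
  obtain ⟨K₁, hK₁⟩ := Phi_bound_one H k
  obtain ⟨K₂, hK₂⟩ := Phi_add_bound H k ρ κ h
  have h1 := abel_lim (Phi c u k) (Phi_meas H k) ρ κ (max K₁ K₂)
    (fun X hX hX1 => (hK₁ X hX hX1).trans (le_max_left _ _))
    (fun X hX => (hK₂ X hX).trans (le_max_right _ _)) h
  have h2 : Real.exp κ * (4 * Real.exp Real.eulerMascheroniConstant) ^ ρ =
      Real.exp (κ + ρ * (Real.eulerMascheroniConstant + 2 * Real.log 2)) := by
    have h3 : (0 : ℝ) < 4 * Real.exp Real.eulerMascheroniConstant := by positivity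
    rw [Real.rpow_def_of_pos h3, ← Real.exp_add]
    congr 1
    rw [Real.log_mul (by norm_num) (Real.exp_pos _).ne', Real.log_exp,
      show (4 : ℝ) = 2 ^ 2 by norm_num, Real.log_pow]
    push_cast
    ring
  rw [h2]
  have h4 := (Complex.continuous_ofReal.comp Real.continuous_exp).tendsto
    (κ + ρ * (Real.eulerMascheroniConstant + 2 * Real.log 2))
  refine (h4.comp h1).congr' ?_
  filter_upwards [self_mem_nhdsWithin] with x hx
  exact (thmA_real H k ρ κ h x hx).symm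

end BSDS
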