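import Pool.Agent.W_92892c.ILine
import Pool.Agent.W_92892c.PhiLine

open Filter Topology Set MeasureTheory

namespace BSDS

variable {ι : Type} {c u : ι → ℝ} {a : ℝ} {L : ℂ → ℂ}

theorem ThmB_re (b t : ℝ) : ((b : ℂ) + t * Complex.I).re = b := by
  simp

theorem ThmB_slit (b t : ℝ) (hb : 1 ≤ b) : (b : ℂ) + t * Complex.I ∈ Complex.slitPlane := by
  left
  rw [ThmB_re]
  linarith

theorem ThmB_norm_ge (b t : ℝ) (hb : 1 ≤ b) : 1 ≤ ‖(b : ℂ) + t * Complex.I‖ := by
  have h1 := Complex.abs_re_le_norm ((b : ℂ) + t * Complex.I)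
  rw [ThmB_re] at h1
  exact hb.trans ((le_abs_self b).trans h1)

theorem ThmB_rt_re (a : ℝ) (k : ℕ) (b t : ℝ) (hb : 1 ≤ b)
    (hba : a + 1 < b ^ (((2 : ℝ) ^ k)⁻¹)) : a + 1 < (rt k ((b : ℂ) + t * Complex.I)).re := by
  have h3 := re_rt_ge k ((b : ℂ) + t * Complex.I) (by rw [ThmB_re]; linarith)
  rw [ThmB_re] at h3
  exact hba.trans_le h3

theorem ThmB_deriv (H : Hyp c u a L) (k : ℕ) (b t : ℝ) (hb : 1 ≤ b)
    (hba : a + 1 < b ^ (((2 : ℝ) ^ k)⁻¹)) :
    HasDerivAt (fun z => Dser c u (rt k z))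
      (deriv (Dser c u) (rt k ((b : ℂ) + t * Complex.I)) *
        (((2 : ℂ) ^ k)⁻¹ * (rt k ((b : ℂ) + t * Complex.I) / ((b : ℂ) + t * Complex.I))))
      ((b : ℂ) + t * Complex.I) := by
  have h1 := hasDerivAt_rt k _ (ThmB_slit b t hb)
  have h2 := (Dser_differentiableAt H (rt k ((b : ℂ) + t * Complex.I))
    (by linarith [ThmB_rt_re a k b t hb hba])).hasDerivAt
  exact h2.comp _ h1

theorem ThmB_cont (H : Hyp c u a L) (k : ℕ) (b : ℝ) (hb : 1 ≤ b)
    (hba : a + 1 < b ^ (((2 : ℝ) ^ k)⁻¹)) :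
    Continuous fun t : ℝ => deriv (fun z => Dser c u (rt k z)) ((b : ℂ) + t * Complex.I) := by
  have h0 : (fun t : ℝ => deriv (fun z => Dser c u (rt k z)) ((b : ℂ) + t * Complex.I)) =
      fun t : ℝ => deriv (Dser c u) (rt k ((b : ℂ) + t * Complex.I)) *
        (((2 : ℂ) ^ k)⁻¹ * (rt k ((b : ℂ) + t * Complex.I) / ((b : ℂ) + t * Complex.I))) := by
    funext t
    exact (ThmB_deriv H k b t hb hba).deriv
  rw [h0]
  have h1 : DifferentiableOn ℂ (Dser c u) {s : ℂ | a < s.re} := fun s hs =>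
    (Dser_differentiableAt H s hs).differentiableWithinAt
  have h2 : ContinuousOn (deriv (Dser c u)) {s : ℂ | a < s.re} :=
    (h1.deriv (DserBasic_open a)).continuousOn
  have h3 : Continuous fun t : ℝ => rt k ((b : ℂ) + t * Complex.I) :=
    wtline_cont k b (by linarith)
  have h4 : Continuous fun t : ℝ => deriv (Dser c u) (rt k ((b : ℂ) + t * Complex.I)) :=
    h2.comp_continuous h3 fun t => by
      have := ThmB_rt_re a k b t hb hba
      change a < _
      linarith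
  have h5 : Continuous fun t : ℝ => (b : ℂ) + t * Complex.I := by fun_prop
  refine h4.mul (continuous_const.mul (h3.div h5 fun t h => ?_))
  have := ThmB_norm_ge b t hb
  rw [h, norm_zero] at this
  linarith

theorem ThmB_bound (H : Hyp c u a L) (k : ℕ) (b t : ℝ) (hb : 1 ≤ b)
    (hba : a + 1 < b ^ (((2 : ℝ) ^ k)⁻¹)) :
    ‖deriv (fun z => Dser c u (rt k z)) ((b : ℂ) + t * Complex.I)‖ ≤ Mc c u a := by
  rw [(ThmB_deriv H k b t hb hba).deriv, norm_mul, norm_mul]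
  have h1 := Dser_deriv_bound H (rt k ((b : ℂ) + t * Complex.I)) (ThmB_rt_re a k b t hb hba)
  have h2 := NFun_norm_inv k
  have hz := ThmB_norm_ge b t hb
  have h3 : ‖rt k ((b : ℂ) + t * Complex.I) / ((b : ℂ) + t * Complex.I)‖ ≤ 1 := by
    rw [norm_div, norm_rt]
    refine div_le_one_of_le₀ ?_ (norm_nonneg _)
    calc ‖(b : ℂ) + t * Complex.I‖ ^ (((2 : ℝ) ^ k)⁻¹) ≤ ‖(b : ℂ) + t * Complex.I‖ ^ (1 : ℝ) :=
          Real.rpow_le_rpow_of_exponent_le hz (NFun_exp_le k)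
      _ = ‖(b : ℂ) + t * Complex.I‖ := Real.rpow_one _
  have h4 : ‖((2 : ℂ) ^ k)⁻¹‖ * ‖rt k ((b : ℂ) + t * Complex.I) / ((b : ℂ) + t * Complex.I)‖ ≤ 1 :=
    mul_le_one₀ h2 (norm_nonneg _) h3
  calc _ ≤ Mc c u a * 1 := mul_le_mul h1 h4 (by positivity) (Mc_nonneg H)
    _ = Mc c u a := mul_one _

theorem ThmB_int (F : ℂ → ℂ) (b M X : ℝ) (hX : 0 < X)
    (hc : Continuous fun t : ℝ => F ((b : ℂ) + t * Complex.I))
    (hF : ∀ t : ℝ, ‖F ((b : ℂ) + t * Complex.I)‖ ≤ M) :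
    Integrable fun t : ℝ => Complex.exp (X * ((b : ℂ) + t * Complex.I) ^ 2) *
      (((b : ℂ) + t * Complex.I) * F ((b : ℂ) + t * Complex.I)) := by
  have h1 : Integrable fun t : ℝ => |b| * Real.exp (X * (b ^ 2 - t ^ 2)) +
      Real.exp (X * b ^ 2) * ‖t * Real.exp (-X * t ^ 2)‖ :=
    ((gauss_integrable b X hX).const_mul _).add
      ((integrable_mul_exp_neg_mul_sq hX).norm.const_mul _)
  refine (h1.mul_const M).mono' ?_ (Filter.Eventually.of_forall fun t => ?_)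
  · have : Continuous fun t : ℝ => Complex.exp (X * ((b : ℂ) + t * Complex.I) ^ 2) *
      (((b : ℂ) + t * Complex.I) * F ((b : ℂ) + t * Complex.I)) := by
      have e1 : Continuous fun t : ℝ => Complex.exp (X * ((b : ℂ) + t * Complex.I) ^ 2) := by
        fun_prop
      have e2 : Continuous fun t : ℝ => (b : ℂ) + t * Complex.I := by fun_prop
      exact e1.mul (e2.mul hc)
    exact this.aestronglyMeasurable
  · rw [norm_mul, norm_gauss, norm_mul]
    have h2 : ‖(b : ℂ) + t * Complex.I‖ ≤ |b| + |t| := by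
      refine (norm_add_le _ _).trans ?_
      rw [norm_mul, Complex.norm_real, Complex.norm_real, Complex.norm_I, mul_one,
        Real.norm_eq_abs, Real.norm_eq_abs]
    have h3 : Real.exp (X * (b ^ 2 - t ^ 2)) = Real.exp (X * b ^ 2) * Real.exp (-X * t ^ 2) := by
      rw [← Real.exp_add]
      congr 1
      ring
    have h4 : Real.exp (X * b ^ 2) * ‖t * Real.exp (-X * t ^ 2)‖ =
        |t| * Real.exp (X * (b ^ 2 - t ^ 2)) := by
      rw [norm_mul, Real.norm_eq_abs, Real.norm_of_nonneg (Real.exp_pos _).le, h3]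
      ring
    rw [h4]
    calc Real.exp (X * (b ^ 2 - t ^ 2)) * (‖(b : ℂ) + t * Complex.I‖ *
          ‖F ((b : ℂ) + t * Complex.I)‖)
        ≤ Real.exp (X * (b ^ 2 - t ^ 2)) * ((|b| + |t|) * M) := by
          refine mul_le_mul_of_nonneg_left ?_ (Real.exp_pos _).le
          exact mul_le_mul h2 (hF t) (norm_nonneg _) (by positivity)
      _ = (|b| * Real.exp (X * (b ^ 2 - t ^ 2)) + |t| * Real.exp (X * (b ^ 2 - t ^ 2))) * M := by
          ring

theorem ThmB_lineInt (H : Hyp c u a L) (r k : ℕ) (b X : ℝ) (hX : 0 < X) (hb : 1 ≤ b)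
    (hba : a + 1 < b ^ (((2 : ℝ) ^ k)⁻¹)) :
    lineInt (fun z => z * deriv (fun z => Dser c u (rt k z)) z) b X =
      lineInt (Nf L r k) b X + ((2 : ℂ) ^ k)⁻¹ * r * (Real.sqrt (Real.pi / X) : ℂ) := by
  have hint := ThmB_int (deriv (fun z => Dser c u (rt k z))) b (Mc c u a) X hX
    (ThmB_cont H k b hb hba) (fun t => ThmB_bound H k b t hb hba)
  have hgi : Integrable fun t : ℝ => Complex.exp (X * ((b : ℂ) + t * Complex.I) ^ 2) := by
    refine (gauss_integrable b X hX).mono' ?_ (Filter.Eventually.of_forall fun t => ?_)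
    · have : Continuous fun t : ℝ => Complex.exp (X * ((b : ℂ) + t * Complex.I) ^ 2) := by
        fun_prop
      exact this.aestronglyMeasurable
    · rw [norm_gauss]
  have hN : ∀ t : ℝ, Complex.exp (X * ((b : ℂ) + t * Complex.I) ^ 2) *
      Nf L r k ((b : ℂ) + t * Complex.I) =
      Complex.exp (X * ((b : ℂ) + t * Complex.I) ^ 2) * (((b : ℂ) + t * Complex.I) *
        deriv (fun z => Dser c u (rt k z)) ((b : ℂ) + t * Complex.I)) -
      ((2 : ℂ) ^ k)⁻¹ * r * Complex.exp (X * ((b : ℂ) + t * Complex.I) ^ 2) := by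
    intro t
    have hz : (b : ℂ) + t * Complex.I ≠ 0 := by
      intro h
      have := ThmB_norm_ge b t hb
      rw [h, norm_zero] at this
      linarith
    rw [(ThmB_deriv H k b t hb hba).deriv, Dser_deriv_eq H (rt k ((b : ℂ) + t * Complex.I))
      (by linarith [ThmB_rt_re a k b t hb hba])]
    unfold Nf
    field_simp
  unfold lineInt
  simp only [hN]
  rw [integral_sub hint (hgi.const_mul _), integral_const_mul, gauss_integral b X hX]
  ring

/-- `F z = Dser (rt k z)`.  For `Re z = b` (so `Re (rt k z) > a + 1`, `‖z‖ ≥ 1`): differentiable,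
`F' = Dser'(rt k z) 2^{-k} rt k z / z`, `‖F‖, ‖F'‖ ≤ M`, and
`z F'(z) = Nf L r k z + r/2^k` (`Dser_deriv_eq`); then `line_deriv`, `Phi_line`, and
`lineInt 1 b X = √(π/X)` (`gauss_integral`).  The value is real, so take real parts. -/
theorem Phi_hasDerivAt (H : Hyp c u a L) (r k : ℕ) (b X : ℝ) (hX : 0 < X) (hb : 1 ≤ b)
    (hba : a + 1 < b ^ (((2 : ℝ) ^ k)⁻¹)) :
    HasDerivAt (Phi c u k)
      (-(r / 2 ^ (k + 1) : ℝ) / X - 1 / (2 * Real.sqrt (Real.pi * X)) *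
        (lineInt (Nf L r k) b X).re) X := by
  have hre : ∀ t : ℝ, a + 1 < (rt k ((b : ℂ) + t * Complex.I)).re := fun t =>
    ThmB_rt_re a k b t hb hba
  have h1 := line_deriv (fun z => Dser c u (rt k z)) b (Mc c u a) X hX
    (fun t => (ThmB_deriv H k b t hb hba).differentiableAt) (ThmB_cont H k b hb hba)
    (fun t => Dser_bound H _ (by linarith [hre t])) (fun t => ThmB_bound H k b t hb hba)
  have h2 : HasDerivAt (fun Y : ℝ => (Phi c u k Y : ℂ))
      (-(1 / (2 * Real.sqrt (Real.pi * X)) : ℝ) *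
        lineInt (fun z => z * deriv (fun z => Dser c u (rt k z)) z) b X) X := by
    refine h1.congr_of_eventuallyEq ?_
    filter_upwards [lt_mem_nhds hX] with Y hY
    exact Phi_line H k b Y (by linarith) (by linarith) hY
  have h3 := Complex.reCLM.hasFDerivAt.comp_hasDerivAt X h2
  have h4 : HasDerivAt (Phi c u k) (Complex.reCLM (-(1 / (2 * Real.sqrt (Real.pi * X)) : ℝ) *
        lineInt (fun z => z * deriv (fun z => Dser c u (rt k z)) z) b X)) X := h3
  refine h4.congr_deriv ?_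
  rw [ThmB_lineInt H r k b X hX hb hba, Complex.reCLM_apply, ← Complex.ofReal_neg,
    Complex.re_ofReal_mul, Complex.add_re]
  have h5 : (((2 : ℂ) ^ k)⁻¹ * r * (Real.sqrt (Real.pi / X) : ℂ)).re =
      ((2 : ℝ) ^ k)⁻¹ * r * Real.sqrt (Real.pi / X) := by
    have : (((2 : ℂ) ^ k)⁻¹ * r * (Real.sqrt (Real.pi / X) : ℂ)) =
        ((((2 : ℝ) ^ k)⁻¹ * r * Real.sqrt (Real.pi / X) : ℝ) : ℂ) := by
      push_cast
      rfl
    rw [this, Complex.ofReal_re]
  have h6 : Real.sqrt (Real.pi / X) = Real.sqrt (Real.pi * X) / X := by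
    have : Real.pi / X = (Real.pi * X) / X ^ 2 := by
      field_simp
    rw [this, Real.sqrt_div' _ (sq_nonneg X), Real.sqrt_sq hX.le]
  have h7 : 0 < Real.sqrt (Real.pi * X) := Real.sqrt_pos.mpr (by have := Real.pi_pos; positivity)
  rw [h5, h6, pow_succ]
  field_simp
  ring

/-- If `Ψ' = O(X^{-1-η})` on `[1,∞)`, `η > 0`, then `Ψ` converges
(`tendsto_limUnder_of_hasDerivAt_of_integrableOn_Ioi`). -/
theorem lim_exists (Ψ Ψ' : ℝ → ℝ) (C η : ℝ) (hη : 0 < η)
    (hd : ∀ X : ℝ, 1 ≤ X → HasDerivAt Ψ (Ψ' X) X)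
    (hb : ∀ X : ℝ, 1 ≤ X → |Ψ' X| ≤ C * X ^ (-1 - η)) :
    ∃ κ : ℝ, Tendsto Ψ atTop (𝓝 κ) := by
  have hm : AEStronglyMeasurable Ψ' (volume.restrict (Ioi 1)) := by
    have h1 : AEStronglyMeasurable (deriv Ψ) (volume.restrict (Ioi 1)) :=
      (stronglyMeasurable_deriv Ψ).aestronglyMeasurable
    refine h1.congr ?_
    rw [Filter.EventuallyEq, ae_restrict_iff' measurableSet_Ioi]
    exact Filter.Eventually.of_forall fun x hx => (hd x (le_of_lt hx)).deriv
  have hint : IntegrableOn Ψ' (Ioi 1) := by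
    have h1 : IntegrableOn (fun x : ℝ => C * x ^ (-1 - η)) (Ioi 1) :=
      (integrableOn_Ioi_rpow_of_lt (by linarith) one_pos).const_mul C
    refine h1.mono' hm ?_
    rw [ae_restrict_iff' measurableSet_Ioi]
    exact Filter.Eventually.of_forall fun x hx => by
      rw [Real.norm_eq_abs]
      exact hb x (le_of_lt hx)
  exact ⟨_, tendsto_limUnder_of_hasDerivAt_of_integrableOn_Ioi
    (fun x hx => hd x (le_of_lt hx)) hint⟩

/-- Theorem B.  Apply `lim_exists` to `Ψ X = Phi c u k X + (r/2^{k+1}) log X`, with `b` large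
(`b^{1/2^k} > a + 1`), `Phi_hasDerivAt` and `I_line`:
`|Ψ'| ≤ (1/(2√(πX))) C X^{-(1+β)/2} ≤ C X^{-1-β/2}`. -/
theorem thmB (H : Hyp c u a L) (r k : ℕ) (ℓ : ℂ) (hℓ : ℓ ≠ 0)
    (h : Tendsto (fun s : ℂ => L s / s ^ r) (𝓝[≠] 0) (𝓝 ℓ))
    (hz : ∀ z ∈ Sec, L (rt k z) ≠ 0) :
    ∃ κ : ℝ, Tendsto (fun X : ℝ => Phi c u k X + (r / 2 ^ (k + 1) : ℝ) * Real.log X)
      atTop (𝓝 κ) := by
  have ha := H.apos
  set b : ℝ := (a + 2) ^ (2 ^ k) with hbd
  have hb1 : 1 ≤ b := one_le_pow₀ (by linarith)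
  have hbk : b ^ (((2 : ℝ) ^ k)⁻¹) = a + 2 := by
    have h2 := Real.pow_rpow_inv_natCast (x := a + 2) (n := 2 ^ k) (by linarith) (by positivity)
    push_cast at h2
    exact h2
  have hba : a + 1 < b ^ (((2 : ℝ) ^ k)⁻¹) := by
    rw [hbk]
    linarith
  obtain ⟨C, hC, hI⟩ := I_line H r k ℓ hℓ h hz b hb1 hba
  refine lim_exists _ (fun X => -(1 / (2 * Real.sqrt (Real.pi * X))) *
    (lineInt (Nf L r k) b X).re) C (((2 : ℝ) ^ k)⁻¹ / 2) (by positivity) (fun X hX => ?_)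
    (fun X hX => ?_)
  · have hX0 : 0 < X := by linarith
    have h1 := Phi_hasDerivAt H r k b X hX0 hb1 hba
    have h2 := (Real.hasDerivAt_log hX0.ne').const_mul (r / 2 ^ (k + 1) : ℝ)
    refine (h1.add h2).congr_deriv ?_
    ring
  · have hX0 : 0 < X := by linarith
    have h1 : |(lineInt (Nf L r k) b X).re| ≤ C * X ^ (-((1 + ((2 : ℝ) ^ k)⁻¹) / 2)) :=
      (Complex.abs_re_le_norm _).trans (hI X hX)
    have h2 : 1 / (2 * Real.sqrt (Real.pi * X)) ≤ X ^ (-(1 / 2 : ℝ)) := by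
      rw [Real.rpow_neg hX0.le, ← Real.sqrt_eq_rpow, ← one_div]
      refine one_div_le_one_div_of_le (Real.sqrt_pos.mpr hX0) ?_
      have h3 : Real.sqrt X ≤ Real.sqrt (Real.pi * X) := by
        refine Real.sqrt_le_sqrt ?_
        have := Real.pi_gt_three
        nlinarith
      have h4 := Real.sqrt_nonneg (Real.pi * X)
      linarith
    have h3 : 0 ≤ 1 / (2 * Real.sqrt (Real.pi * X)) := by positivity
    rw [abs_mul, abs_neg, abs_of_nonneg h3]
    calc 1 / (2 * Real.sqrt (Real.pi * X)) * |(lineInt (Nf L r k) b X).re|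
        ≤ X ^ (-(1 / 2 : ℝ)) * (C * X ^ (-((1 + ((2 : ℝ) ^ k)⁻¹) / 2))) :=
          mul_le_mul h2 h1 (abs_nonneg _) (Real.rpow_nonneg hX0.le _)
      _ = C * (X ^ (-(1 / 2 : ℝ)) * X ^ (-((1 + ((2 : ℝ) ^ k)⁻¹) / 2))) := by ring
      _ = C * X ^ (-1 - ((2 : ℝ) ^ k)⁻¹ / 2) := by
          rw [← Real.rpow_add hX0]
          congr 2
          ring

end BSDS
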