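import Pool.Agent.W_92892c.ThmA
import Pool.Agent.W_92892c.ThmB
import Pool.Agent.W_92892c.SecExists

open Filter Topology Set MeasureTheory

namespace BSDS

variable {ι : Type} {c u : ι → ℝ} {a : ℝ} {L : ℂ → ℂ}

/-- The asymptotic at level `k`. -/
def AS (c u : ι → ℝ) (k r : ℕ) (lam : ℝ) : Prop :=
  Tendsto (fun X : ℝ => lam * Real.exp (-Phi c u k X) /
    (4 * Real.exp Real.eulerMascheroniConstant * X) ^ ((r : ℝ) / 2 ^ (k + 1))) atTop (𝓝 1)

/-- Taking logarithms: `AS` is the same as `Phi + (r/2^{k+1}) log X →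
log lam - (r/2^{k+1}) log (4 e^γ)`. -/
theorem AS_iff (c u : ι → ℝ) (k r : ℕ) (lam : ℝ) (hlam : 0 < lam) :
    AS c u k r lam ↔
      Tendsto (fun X : ℝ => Phi c u k X + (r / 2 ^ (k + 1) : ℝ) * Real.log X) atTop
        (𝓝 (Real.log lam - (r / 2 ^ (k + 1) : ℝ) *
          Real.log (4 * Real.exp Real.eulerMascheroniConstant))) := by
  set ρ : ℝ := (r : ℝ) / 2 ^ (k + 1) with hρ
  set g : ℝ := 4 * Real.exp Real.eulerMascheroniConstant with hg
  have hgpos : 0 < g := by positivity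
  set κ : ℝ := Real.log lam - ρ * Real.log g with hκ
  -- the quotient is `exp (κ - (Phi + ρ log X))`
  have key : ∀ X : ℝ, 0 < X → lam * Real.exp (-Phi c u k X) / (g * X) ^ ρ =
      Real.exp (κ - (Phi c u k X + ρ * Real.log X)) := by
    intro X hX
    have h1 : (g * X) ^ ρ = Real.exp (ρ * (Real.log g + Real.log X)) := by
      rw [Real.rpow_def_of_pos (mul_pos hgpos hX), Real.log_mul hgpos.ne' hX.ne', mul_comm]
    rw [h1, div_eq_mul_inv, ← Real.exp_neg]
    nth_rewrite 1 [← Real.exp_log hlam]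
    rw [← Real.exp_add, ← Real.exp_add]
    congr 1
    rw [hκ]
    ring
  have hev : (fun X : ℝ => lam * Real.exp (-Phi c u k X) / (g * X) ^ ρ) =ᶠ[atTop]
      fun X : ℝ => Real.exp (κ - (Phi c u k X + ρ * Real.log X)) := by
    filter_upwards [eventually_gt_atTop 0] with X hX
    exact key X hX
  unfold AS
  rw [tendsto_congr' hev]
  constructor
  · intro h
    have h1 := (Real.continuousAt_log (one_ne_zero)).tendsto.comp h
    simp only [Function.comp_def, Real.log_exp, Real.log_one] at h1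
    have h2 := (tendsto_const_nhds (x := κ)).sub h1
    simpa using h2
  · intro h
    have h2 := (tendsto_const_nhds (x := κ)).sub h
    rw [sub_self] at h2
    have h3 := (Real.continuous_exp.tendsto 0).comp h2
    simpa [Function.comp_def] using h3

/-- If `L(s)/s^n → ℓ ≠ 0` as `s → 0`, and `L(y) y^{-r} → lam ≠ 0` as `y → 0+` along the reals
(`y = x^{1/2^(k+1)}`, `ρ = r/2^(k+1)`), then `n = r`, `ℓ = lam`. -/
theorem order_unique (L : ℂ → ℂ) (n r k : ℕ) (ℓ : ℂ) (hℓ : ℓ ≠ 0) (lam : ℝ) (hlam : 0 < lam)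
    (h : Tendsto (fun s : ℂ => L s / s ^ n) (𝓝[≠] 0) (𝓝 ℓ))
    (h' : Tendsto (fun x : ℝ => L ((x ^ (((2 : ℝ) ^ (k + 1))⁻¹) : ℝ) : ℂ) *
      ((x ^ (-(r / 2 ^ (k + 1) : ℝ)) : ℝ) : ℂ)) (𝓝[>] 0) (𝓝 (lam : ℂ))) :
    Tendsto (fun s : ℂ => L s / s ^ r) (𝓝[≠] 0) (𝓝 (lam : ℂ)) := by
  set e : ℝ := ((2 : ℝ) ^ (k + 1))⁻¹ with he
  have hepos : 0 < e := by positivity
  -- `x ^ e → 0` within positive
  have hy : Tendsto (fun x : ℝ => x ^ e) (𝓝[>] 0) (𝓝[>] 0) := by
    refine tendsto_nhdsWithin_iff.2 ⟨?_, ?_⟩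
    · have h1 : Tendsto (fun x : ℝ => x ^ e) (𝓝 0) (𝓝 ((0 : ℝ) ^ e)) :=
        (Real.continuousAt_rpow_const 0 e (Or.inr hepos.le)).tendsto
      rw [Real.zero_rpow hepos.ne'] at h1
      exact h1.mono_left nhdsWithin_le_nhds
    · filter_upwards [self_mem_nhdsWithin] with x hx
      exact Real.rpow_pos_of_pos hx e
  have hyC : Tendsto (fun x : ℝ => ((x ^ e : ℝ) : ℂ)) (𝓝[>] 0) (𝓝[≠] 0) := by
    refine tendsto_nhdsWithin_iff.2 ⟨?_, ?_⟩
    · have := (Complex.continuous_ofReal.tendsto 0).comp (hy.mono_right nhdsWithin_le_nhds)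
      simpa [Function.comp_def] using this
    · filter_upwards [self_mem_nhdsWithin] with x hx
      simp only [mem_compl_iff, mem_singleton_iff, Complex.ofReal_eq_zero]
      exact (Real.rpow_pos_of_pos hx e).ne'
  have h1 := h.comp hyC
  simp only [Function.comp_def] at h1
  -- rewrite `h'` in terms of `y`
  have h2 : Tendsto (fun x : ℝ => L ((x ^ e : ℝ) : ℂ) / ((x ^ e : ℝ) : ℂ) ^ r) (𝓝[>] 0)
      (𝓝 (lam : ℂ)) := by
    refine h'.congr' ?_
    filter_upwards [self_mem_nhdsWithin] with x hx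
    have hx0 : (0 : ℝ) < x := hx
    have hxr : x ^ (-(r / 2 ^ (k + 1) : ℝ)) = ((x ^ e) ^ r)⁻¹ := by
      rw [← Real.rpow_natCast (x ^ e) r, ← Real.rpow_mul hx0.le, ← Real.rpow_neg hx0.le]
      congr 1
      rw [he]
      field_simp
    rw [hxr, div_eq_mul_inv]
    push_cast
    rfl
  -- if `n = r` we are done
  have hnr : n = r := by
    by_contra hne
    have hlamC : (lam : ℂ) ≠ 0 := by exact_mod_cast hlam.ne'
    -- the quotient of the two limits is `y^(r-n)`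
    have hq := h1.div h2 hlamC
    have hq' : Tendsto (fun x : ℝ => ((x ^ e : ℝ) : ℂ) ^ r / ((x ^ e : ℝ) : ℂ) ^ n) (𝓝[>] 0)
        (𝓝 (ℓ / lam)) := by
      refine hq.congr' ?_
      have hLne : ∀ᶠ x in 𝓝[>] (0 : ℝ), L ((x ^ e : ℝ) : ℂ) / ((x ^ e : ℝ) : ℂ) ^ r ≠ 0 :=
        h2.eventually_ne hlamC
      filter_upwards [self_mem_nhdsWithin, hLne] with x hx hLx
      have hx0 : (0 : ℝ) < x := hx
      have hyne : ((x ^ e : ℝ) : ℂ) ≠ 0 := by
        simp only [ne_eq, Complex.ofReal_eq_zero]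
        exact (Real.rpow_pos_of_pos hx0 e).ne'
      have hL0 : L ((x ^ e : ℝ) : ℂ) ≠ 0 := by
        intro h0
        apply hLx
        rw [h0, zero_div]
      simp only [Pi.div_apply]
      field_simp
    have hq0 : (ℓ / lam : ℂ) ≠ 0 := div_ne_zero hℓ hlamC
    rcases lt_or_gt_of_ne hne with hlt | hgt
    · -- `n < r`: the quotient tends to `0`
      have h3 : Tendsto (fun x : ℝ => ((x ^ e : ℝ) : ℂ) ^ r / ((x ^ e : ℝ) : ℂ) ^ n) (𝓝[>] 0)
          (𝓝 0) := by
        have h4 : Tendsto (fun x : ℝ => ((x ^ e : ℝ) : ℂ) ^ (r - n)) (𝓝[>] 0)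
            (𝓝 ((0 : ℂ) ^ (r - n))) :=
          (hyC.mono_right nhdsWithin_le_nhds).pow (r - n)
        rw [zero_pow (by omega)] at h4
        refine h4.congr' ?_
        filter_upwards [self_mem_nhdsWithin] with x hx
        have hx0 : (0 : ℝ) < x := hx
        have hyne : ((x ^ e : ℝ) : ℂ) ≠ 0 := by
          simp only [ne_eq, Complex.ofReal_eq_zero]
          exact (Real.rpow_pos_of_pos hx0 e).ne'
        rw [eq_div_iff (pow_ne_zero _ hyne), ← pow_add]
        congr 1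
        omega
      exact hq0 (tendsto_nhds_unique hq' h3)
    · -- `n > r`: the inverse quotient tends to `0`
      have h3 : Tendsto (fun x : ℝ => ((x ^ e : ℝ) : ℂ) ^ n / ((x ^ e : ℝ) : ℂ) ^ r) (𝓝[>] 0)
          (𝓝 0) := by
        have h4 : Tendsto (fun x : ℝ => ((x ^ e : ℝ) : ℂ) ^ (n - r)) (𝓝[>] 0)
            (𝓝 ((0 : ℂ) ^ (n - r))) :=
          (hyC.mono_right nhdsWithin_le_nhds).pow (n - r)
        rw [zero_pow (by omega)] at h4
        refine h4.congr' ?_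
        filter_upwards [self_mem_nhdsWithin] with x hx
        have hx0 : (0 : ℝ) < x := hx
        have hyne : ((x ^ e : ℝ) : ℂ) ≠ 0 := by
          simp only [ne_eq, Complex.ofReal_eq_zero]
          exact (Real.rpow_pos_of_pos hx0 e).ne'
        rw [eq_div_iff (pow_ne_zero _ hyne), ← pow_add]
        congr 1
        omega
      have h5 := hq'.inv₀ hq0
      have h6 : Tendsto (fun x : ℝ => ((x ^ e : ℝ) : ℂ) ^ n / ((x ^ e : ℝ) : ℂ) ^ r) (𝓝[>] 0)
          (𝓝 (ℓ / lam)⁻¹) := by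
        refine h5.congr fun x => ?_
        rw [inv_div]
      exact inv_ne_zero hq0 (tendsto_nhds_unique h6 h3)
  subst hnr
  have : ℓ = lam := tendsto_nhds_unique h1 h2
  rw [← this]
  exact h

/-- (1): the asymptotic at level `k` gives the leading term and a zero-free sector.
`AS_iff`, `thmA_zero` with `sec_back`, `thmA_lim` (its limit is
`e^κ (4e^γ)^ρ = lam`), `exists_order`, `order_unique`. -/
theorem thmC_one (H : Hyp c u a L) (k r : ℕ) (lam : ℝ) (hlam : 0 < lam)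
    (h : AS c u k r lam) :
    Tendsto (fun s : ℂ => L s / s ^ r) (𝓝[≠] 0) (𝓝 (lam : ℂ)) ∧
    ∀ s : ℂ, s ≠ 0 → |s.arg| < Real.pi / 2 ^ (k + 2) → L s ≠ 0 := by
  have h1 := (AS_iff c u k r lam hlam).1 h
  refine ⟨?_, sec_back L k fun z hz => thmA_zero H k _ _ h1 z hz⟩
  have h2 := thmA_lim H k _ _ h1
  have h3 : Real.exp (Real.log lam - (r / 2 ^ (k + 1) : ℝ) *
      Real.log (4 * Real.exp Real.eulerMascheroniConstant)) *
      (4 * Real.exp Real.eulerMascheroniConstant) ^ (r / 2 ^ (k + 1) : ℝ) = lam := by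
    have hg : (0 : ℝ) < 4 * Real.exp Real.eulerMascheroniConstant := by positivity
    rw [Real.rpow_def_of_pos hg, ← Real.exp_add]
    have : Real.log lam - (r / 2 ^ (k + 1) : ℝ) *
        Real.log (4 * Real.exp Real.eulerMascheroniConstant) +
        Real.log (4 * Real.exp Real.eulerMascheroniConstant) * (r / 2 ^ (k + 1) : ℝ)
        = Real.log lam := by ring
    rw [this, Real.exp_log hlam]
  rw [h3] at h2
  obtain ⟨n, ℓ, hℓ, hn⟩ := exists_order L H.Lent (a : ℂ) (L_ne_zero H _ (by simp))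
  exact order_unique L n r k ℓ hℓ lam hlam hn h2

/-- (2): `thmB` gives a limit `κ` of `Phi + ρ log X`; `thmA_lim` and the leading term along
`y = x^{1/2^(k+1)} → 0+` give `e^κ (4e^γ)^ρ = lam`; conclude by `AS_iff`. -/
theorem thmC_two (H : Hyp c u a L) (k r : ℕ) (lam : ℝ) (hlam : 0 < lam)
    (h : Tendsto (fun s : ℂ => L s / s ^ r) (𝓝[≠] 0) (𝓝 (lam : ℂ)))
    (hs : ∀ s : ℂ, s ≠ 0 → |s.arg| < Real.pi / (3 * 2 ^ k) → L s ≠ 0) : AS c u k r lam := by
  have hlamC : (lam : ℂ) ≠ 0 := by exact_mod_cast hlam.ne'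
  obtain ⟨κ, hκ⟩ := thmB H r k (lam : ℂ) hlamC h (sec_transfer L k hs)
  have h2 := thmA_lim H k _ _ hκ
  set e : ℝ := ((2 : ℝ) ^ (k + 1))⁻¹ with he
  have hepos : 0 < e := by positivity
  have hyC : Tendsto (fun x : ℝ => ((x ^ e : ℝ) : ℂ)) (𝓝[>] 0) (𝓝[≠] 0) := by
    refine tendsto_nhdsWithin_iff.2 ⟨?_, ?_⟩
    · have h1 : Tendsto (fun x : ℝ => x ^ e) (𝓝 0) (𝓝 ((0 : ℝ) ^ e)) :=
        (Real.continuousAt_rpow_const 0 e (Or.inr hepos.le)).tendsto
      rw [Real.zero_rpow hepos.ne'] at h1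
      have h1' : Tendsto (fun x : ℝ => x ^ e) (𝓝[>] 0) (𝓝 0) := h1.mono_left nhdsWithin_le_nhds
      have := (Complex.continuous_ofReal.tendsto 0).comp h1'
      simpa [Function.comp_def] using this
    · filter_upwards [self_mem_nhdsWithin] with x hx
      simp only [mem_compl_iff, mem_singleton_iff, Complex.ofReal_eq_zero]
      exact (Real.rpow_pos_of_pos hx e).ne'
  have h3 := h.comp hyC
  simp only [Function.comp_def] at h3
  have h4 : Tendsto (fun x : ℝ => L ((x ^ e : ℝ) : ℂ) *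
      ((x ^ (-(r / 2 ^ (k + 1) : ℝ)) : ℝ) : ℂ)) (𝓝[>] 0) (𝓝 (lam : ℂ)) := by
    refine h3.congr' ?_
    filter_upwards [self_mem_nhdsWithin] with x hx
    have hx0 : (0 : ℝ) < x := hx
    have hxr : x ^ (-(r / 2 ^ (k + 1) : ℝ)) = ((x ^ e) ^ r)⁻¹ := by
      rw [← Real.rpow_natCast (x ^ e) r, ← Real.rpow_mul hx0.le, ← Real.rpow_neg hx0.le]
      congr 1
      rw [he]
      field_simp
    rw [hxr, div_eq_mul_inv]
    push_cast
    rfl
  have h5 := tendsto_nhds_unique h4 h2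
  have h6 : lam = Real.exp κ *
      (4 * Real.exp Real.eulerMascheroniConstant) ^ (r / 2 ^ (k + 1) : ℝ) := by
    exact_mod_cast h5
  rw [AS_iff c u k r lam hlam]
  convert hκ using 2
  have hg : (0 : ℝ) < 4 * Real.exp Real.eulerMascheroniConstant := by positivity
  rw [h6, Real.log_mul (Real.exp_ne_zero _) (Real.rpow_pos_of_pos hg _).ne', Real.log_exp,
    Real.log_rpow hg]
  ring

/-- (3). -/
theorem thmC (H : Hyp c u a L) (r : ℕ) (lam : ℝ) (hlam : 0 < lam) :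
    (Tendsto (fun s : ℂ => L s / s ^ r) (𝓝[≠] 0) (𝓝 (lam : ℂ)) ∧ ∀ x : ℝ, 0 < x → L x ≠ 0) ↔
      ∃ k : ℕ, AS c u k r lam := by
  constructor
  · rintro ⟨h1, h2⟩
    obtain ⟨k, hk⟩ := sec_exists H h2
    exact ⟨k, thmC_two H k r lam hlam h1 hk⟩
  · rintro ⟨k, hk⟩
    obtain ⟨h1, h2⟩ := thmC_one H k r lam hlam hk
    refine ⟨h1, fun x hx => h2 x (by exact_mod_cast hx.ne') ?_⟩
    rw [Complex.arg_ofReal_of_nonneg hx.le]
    simp only [abs_zero]
    positivity

end BSDS
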