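import Pool.Agent.W_92892c.Levy

open MeasureTheory Set

namespace BSDS

/-- Induction on `k` with `lev_nonneg`. -/
theorem wt_nonneg (k : ℕ) (X u : ℝ) (hu : 0 ≤ u) : 0 ≤ wt k X u := by
  induction k generalizing u with
  | zero => exact Real.exp_nonneg _
  | succ k ih =>
    exact setIntegral_nonneg measurableSet_Ioi fun y hy =>
      mul_nonneg (lev_nonneg u y hu) (ih y (le_of_lt hy))

/-- Induction on `k`: `lev_meas` and `StronglyMeasurable.integral_prod_right` (or
`MeasureTheory.StronglyMeasurable.integral_prod_left`). -/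
theorem wt_meas (k : ℕ) : Measurable (fun q : ℝ × ℝ => wt k q.1 q.2) := by
  induction k with
  | zero =>
    unfold wt
    fun_prop
  | succ k ih =>
    have h1 : Measurable (fun q : (ℝ × ℝ) × ℝ => lev q.1.2 q.2 * wt k q.1.1 q.2) := by
      refine Measurable.mul ?_ ?_
      · exact lev_meas.comp (Measurable.prodMk (measurable_snd.comp measurable_fst) measurable_snd)
      · exact ih.comp (Measurable.prodMk (measurable_fst.comp measurable_fst) measurable_snd)
    have h2 : StronglyMeasurable (Function.uncurry fun (q : ℝ × ℝ) (y : ℝ) =>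
        lev q.2 y * wt k q.1 y) := h1.stronglyMeasurable
    exact (h2.integral_prod_right (ν := volume.restrict (Ioi (0 : ℝ)))).measurable

lemma WtBasic_rhs (k : ℕ) (A X u : ℝ) (hA : 0 ≤ A) (hu : 0 < u) :
    IntegrableOn (fun y : ℝ => lev u y *
      Real.exp ((A ^ 2) ^ (2 ^ (k + 1)) * X - A ^ 2 * y)) (Ioi 0) ∧
    ∫ y in Ioi (0 : ℝ), lev u y * Real.exp ((A ^ 2) ^ (2 ^ (k + 1)) * X - A ^ 2 * y) =
      Real.exp (A ^ (2 ^ (k + 1 + 1)) * X - A * u) := by
  obtain ⟨h1, h2⟩ := lev_laplace u (A ^ 2) hu (sq_nonneg A)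
  have h3 : (fun y : ℝ => lev u y * Real.exp ((A ^ 2) ^ (2 ^ (k + 1)) * X - A ^ 2 * y)) =
      fun y : ℝ => Real.exp ((A ^ 2) ^ (2 ^ (k + 1)) * X) *
        (lev u y * Real.exp (-(A ^ 2 * y))) := by
    funext y
    rw [sub_eq_add_neg, Real.exp_add]
    ring
  rw [h3]
  refine ⟨h1.const_mul _, ?_⟩
  rw [integral_const_mul, h2, Real.sqrt_sq hA, ← Real.exp_add, ← pow_mul]
  congr 1
  rw [show 2 * 2 ^ (k + 1) = 2 ^ (k + 1 + 1) by ring]
  ring

/-- For `A ≥ 0`, `X > 0`, `u > 0`.  `k = 0`: `u²/(4X) - A u + A² X = (u/(2√X) - A√X)² ≥ 0`.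
Step: `wt (k+1) X u ≤ ∫ lev u y exp((A²)^(2^(k+1)) X - A² y) dy
= exp(A^(2^(k+2)) X) exp(-A u)` by the bound for `A²` and `lev_laplace`; simultaneously
`lev u y * wt k X y` is integrable (measurable, `wt k ≤ 1` by the bound with `A = 0`). -/
theorem wt_le (k : ℕ) (A X u : ℝ) (hA : 0 ≤ A) (hX : 0 < X) (hu : 0 < u) :
    wt k X u ≤ Real.exp (A ^ (2 ^ (k + 1)) * X - A * u) := by
  induction k generalizing A u with
  | zero =>
    change Real.exp (-(u ^ 2) / (4 * X)) ≤ _
    rw [Real.exp_le_exp, div_le_iff₀ (by linarith)]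
    have h : 0 ≤ (2 * A * X - u) ^ 2 := sq_nonneg _
    simp only [zero_add, pow_one]
    nlinarith
  | succ k ih =>
    obtain ⟨h1, h2⟩ := WtBasic_rhs k A X u hA hu
    rw [← h2]
    change ∫ y in Ioi (0 : ℝ), lev u y * wt k X y ≤ _
    refine integral_mono_of_nonneg ?_ h1 ?_
    · refine (ae_restrict_iff' measurableSet_Ioi).2 (Filter.Eventually.of_forall fun y hy => ?_)
      exact mul_nonneg (lev_nonneg u y hu.le) (wt_nonneg k X y (le_of_lt hy))
    · refine (ae_restrict_iff' measurableSet_Ioi).2 (Filter.Eventually.of_forall fun y hy => ?_)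
      exact mul_le_mul_of_nonneg_left (ih (A ^ 2) y (sq_nonneg A) hy) (lev_nonneg u y hu.le)

theorem wt_le_one (k : ℕ) (X u : ℝ) (hX : 0 < X) (hu : 0 < u) : wt k X u ≤ 1 := by
  have h := wt_le k 0 X u le_rfl hX hu
  rw [zero_pow (by positivity), zero_mul, zero_mul, sub_zero, Real.exp_zero] at h
  exact h

theorem lev_wt_integrable (k : ℕ) (X u : ℝ) (hX : 0 < X) (hu : 0 < u) :
    IntegrableOn (fun y : ℝ => lev u y * wt k X y) (Ioi 0) := by
  have hm : Measurable (fun y : ℝ => lev u y * wt k X y) := by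
    refine Measurable.mul ?_ ?_
    · exact lev_meas.comp (Measurable.prodMk measurable_const measurable_id)
    · exact (wt_meas k).comp (Measurable.prodMk measurable_const measurable_id)
  refine Integrable.mono' (lev_integrable u hu).1 hm.aestronglyMeasurable ?_
  refine (ae_restrict_iff' measurableSet_Ioi).2 (Filter.Eventually.of_forall fun y hy => ?_)
  rw [Real.norm_eq_abs, abs_of_nonneg (mul_nonneg (lev_nonneg u y hu.le)
    (wt_nonneg k X y (le_of_lt hy)))]
  exact mul_le_of_le_one_right (lev_nonneg u y hu.le) (wt_le_one k X y hX hy)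

/-- `wt k X u` is increasing in `X`. -/
theorem wt_mono (k : ℕ) (X Y u : ℝ) (hX : 0 < X) (hXY : X ≤ Y) (hu : 0 < u) :
    wt k X u ≤ wt k Y u := by
  induction k generalizing u with
  | zero =>
    change Real.exp (-(u ^ 2) / (4 * X)) ≤ Real.exp (-(u ^ 2) / (4 * Y))
    rw [Real.exp_le_exp, neg_div, neg_div, neg_le_neg_iff]
    exact div_le_div_of_nonneg_left (sq_nonneg u) (by linarith) (by linarith)
  | succ k ih =>
    change ∫ y in Ioi (0 : ℝ), lev u y * wt k X y ≤ ∫ y in Ioi (0 : ℝ), lev u y * wt k Y y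
    refine setIntegral_mono_on (lev_wt_integrable k X u hX hu)
      (lev_wt_integrable k Y u (hX.trans_le hXY) hu) measurableSet_Ioi fun y hy => ?_
    exact mul_le_mul_of_nonneg_left (ih y hy) (lev_nonneg u y hu.le)

end BSDS
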