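import Pool.Agent.W_92892c.Heat
import Pool.Agent.W_92892c.WtBasic

open MeasureTheory Set

namespace BSDS

lemma WtLaplace_sqrt (k : ℕ) (x : ℝ) (hx : 0 < x) :
    Real.sqrt (x ^ (((2 : ℝ) ^ (k + 1))⁻¹)) = x ^ (((2 : ℝ) ^ (k + 1 + 1))⁻¹) := by
  rw [Real.sqrt_eq_rpow, ← Real.rpow_mul hx.le]
  congr 1
  rw [pow_succ (2 : ℝ) (k + 1), mul_inv]
  ring

/-- Induction on `k`.  `k = 0` is `heat_laplace` (`x^(1/2) = √x`).  Step: Fubini for the
nonnegative function `e^{-xX} X^{-1/2} lev u y wt k X y` on `(0,∞)²` (measurable by `lev_meas`,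
`wt_meas`; iterated integral over `X` first is
`lev u y √(π/x) exp(-y x^{1/2^(k+1)})`, integrable in `y` by `lev_laplace` with
`w = x^{1/2^(k+1)}`, whose square root is `x^{1/2^(k+2)}`); use `integrable_prod_iff'` and
`integral_integral_swap`. -/
theorem wt_laplace (k : ℕ) (x u : ℝ) (hx : 0 < x) (hu : 0 < u) :
    IntegrableOn (fun X : ℝ => Real.exp (-(x * X)) * X ^ (-(1 / 2) : ℝ) * wt k X u) (Ioi 0) ∧
    ∫ X in Ioi (0 : ℝ), Real.exp (-(x * X)) * X ^ (-(1 / 2) : ℝ) * wt k X u
      = Real.sqrt (Real.pi / x) * Real.exp (-(u * x ^ (((2 : ℝ) ^ (k + 1))⁻¹))) := by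
  induction k generalizing u with
  | zero =>
    have h := heat_laplace u x hu.le hx
    rw [Real.sqrt_eq_rpow x] at h
    have h2 : (((2 : ℝ) ^ (0 + 1))⁻¹) = 1 / 2 := by norm_num
    rw [h2]
    exact h
  | succ k ih =>
    set w : ℝ := x ^ (((2 : ℝ) ^ (k + 1))⁻¹) with hw
    have hw0 : 0 ≤ w := Real.rpow_nonneg hx.le _
    obtain ⟨hl1, hl2⟩ := lev_laplace u w hu hw0
    let F : ℝ × ℝ → ℝ := fun q =>
      Real.exp (-(x * q.1)) * q.1 ^ (-(1 / 2) : ℝ) * (lev u q.2 * wt k q.1 q.2)
    have hFm : Measurable F := by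
      refine Measurable.mul ?_ (Measurable.mul ?_ (wt_meas k))
      · fun_prop
      · exact lev_meas.comp (Measurable.prodMk measurable_const measurable_snd)
    have hFy : ∀ y ∈ Ioi (0 : ℝ), (fun X : ℝ => F (X, y)) = fun X : ℝ =>
        lev u y * (Real.exp (-(x * X)) * X ^ (-(1 / 2) : ℝ) * wt k X y) := by
      intro y hy
      funext X
      simp only [F]
      ring
    have hFyint : ∀ y ∈ Ioi (0 : ℝ), ∫ X in Ioi (0 : ℝ), F (X, y) =
        Real.sqrt (Real.pi / x) * (lev u y * Real.exp (-(w * y))) := by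
      intro y hy
      rw [hFy y hy, integral_const_mul, (ih y hy).2, mul_comm y]
      ring
    have hFn : ∀ y ∈ Ioi (0 : ℝ), ∫ X in Ioi (0 : ℝ), ‖F (X, y)‖ =
        Real.sqrt (Real.pi / x) * (lev u y * Real.exp (-(w * y))) := by
      intro y hy
      rw [← hFyint y hy]
      refine setIntegral_congr_fun measurableSet_Ioi fun X hX => ?_
      have hX' : (0 : ℝ) < X := hX
      rw [Real.norm_eq_abs, abs_of_nonneg]
      exact mul_nonneg (mul_nonneg (Real.exp_nonneg _) (Real.rpow_nonneg hX'.le _))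
        (mul_nonneg (lev_nonneg u y hu.le) (wt_nonneg k X y (le_of_lt hy)))
    have hint : Integrable F ((volume.restrict (Ioi (0 : ℝ))).prod
        (volume.restrict (Ioi (0 : ℝ)))) := by
      refine (integrable_prod_iff' hFm.aestronglyMeasurable).2 ⟨?_, ?_⟩
      · refine (ae_restrict_iff' measurableSet_Ioi).2 (Filter.Eventually.of_forall fun y hy => ?_)
        rw [hFy y hy]
        exact (ih y hy).1.const_mul _
      · have h1 : IntegrableOn (fun y : ℝ => Real.sqrt (Real.pi / x) *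
            (lev u y * Real.exp (-(w * y)))) (Ioi 0) := hl1.const_mul _
        exact h1.congr_fun (fun y hy => (hFn y hy).symm) measurableSet_Ioi
    have hinner : ∀ X : ℝ, ∫ y in Ioi (0 : ℝ), F (X, y) =
        Real.exp (-(x * X)) * X ^ (-(1 / 2) : ℝ) * wt (k + 1) X u := by
      intro X
      simp only [F]
      rw [integral_const_mul]
      rfl
    have h3 := hint.integral_prod_left
    simp only [hinner] at h3
    refine ⟨h3, ?_⟩
    have h4 := integral_integral_swap (f := fun X y => F (X, y)) hint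
    simp only [hinner] at h4
    rw [h4, setIntegral_congr_fun measurableSet_Ioi hFyint, integral_const_mul, hl2, hw,
      WtLaplace_sqrt k x hx]

end BSDS
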