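import Pool.Agent.W_92892c.WtBasic
import Pool.Agent.W_92892c.LevyC
import Pool.Agent.W_92892c.Root

open MeasureTheory Set

namespace BSDS

/-- The Gaussian `e^{X(c+it)²}` has norm `e^{X(c²-t²)}`. -/
theorem norm_gauss (c X t : ℝ) :
    ‖Complex.exp (X * ((c : ℂ) + t * Complex.I) ^ 2)‖ = Real.exp (X * (c ^ 2 - t ^ 2)) := by
  rw [Complex.norm_exp]
  congr 1
  have e : (X : ℂ) * ((c : ℂ) + t * Complex.I) ^ 2 =
      ((X * (c ^ 2 - t ^ 2) : ℝ) : ℂ) + ((2 * X * c * t : ℝ) : ℂ) * Complex.I := by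
    push_cast
    have := Complex.I_sq
    linear_combination (X : ℂ) * t ^ 2 * this
  rw [e, Complex.add_re, Complex.ofReal_re, Complex.re_ofReal_mul, Complex.I_re, mul_zero,
    add_zero]

theorem gauss_integrable (c X : ℝ) (hX : 0 < X) :
    Integrable (fun t : ℝ => Real.exp (X * (c ^ 2 - t ^ 2))) := by
  have h := (integrable_exp_neg_mul_sq hX).const_mul (Real.exp (X * c ^ 2))
  refine h.congr (Filter.Eventually.of_forall fun t => ?_)
  simp only
  rw [← Real.exp_add]
  congr 1
  ring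

theorem wtline_sqrt (X : ℝ) (hX : 0 < X) :
    ((Real.pi : ℂ) / -(-(X : ℂ))) ^ (1 / 2 : ℂ) = (Real.sqrt (Real.pi / X) : ℂ) := by
  have h0 : (0 : ℝ) ≤ Real.pi / X := by positivity
  rw [neg_neg, Real.sqrt_eq_rpow, Complex.ofReal_cpow h0]
  push_cast
  rfl

theorem wtline_quad (c X u : ℝ) (hX : 0 < X) :
    ∫ t : ℝ, Complex.exp (X * ((c : ℂ) + t * Complex.I) ^ 2) *
        Complex.exp (-(u * ((c : ℂ) + t * Complex.I)))
      = (Real.sqrt (Real.pi / X) : ℂ) * Complex.exp (-((u : ℂ) ^ 2) / (4 * X)) := by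
  have hX' : (X : ℂ) ≠ 0 := by exact_mod_cast hX.ne'
  have h := integral_cexp_quadratic (b := -(X : ℂ)) (by simpa using hX)
    (Complex.I * (2 * X * c - u)) (X * c ^ 2 - u * c)
  rw [wtline_sqrt X hX] at h
  have e1 : ∀ t : ℝ, Complex.exp (X * ((c : ℂ) + t * Complex.I) ^ 2) *
        Complex.exp (-(u * ((c : ℂ) + t * Complex.I))) =
      Complex.exp (-(X : ℂ) * t ^ 2 + (Complex.I * (2 * X * c - u)) * t
        + (X * c ^ 2 - u * c)) := by
    intro t
    rw [← Complex.exp_add]
    congr 1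
    have := Complex.I_sq
    linear_combination (X : ℂ) * t ^ 2 * this
  simp only [e1]
  rw [h]
  congr 2
  have := Complex.I_sq
  field_simp
  linear_combination (2 * (X : ℂ) * c - u) ^ 2 * this

/-- `∫ e^{X(c+it)²} dt = √(π/X)` (`integral_cexp_quadratic`). -/
theorem gauss_integral (c X : ℝ) (hX : 0 < X) :
    ∫ t : ℝ, Complex.exp (X * ((c : ℂ) + t * Complex.I) ^ 2)
      = (Real.sqrt (Real.pi / X) : ℂ) := by
  have h := wtline_quad c X 0 hX
  simp only [Complex.ofReal_zero, zero_mul, neg_zero, Complex.exp_zero, mul_one] at h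
  rw [h]
  simp

theorem wtline_cont (k : ℕ) (c : ℝ) (hc : 0 < c) :
    Continuous (fun t : ℝ => rt k ((c : ℂ) + t * Complex.I)) := by
  rw [continuous_iff_continuousAt]
  intro t
  have hz : (c : ℂ) + t * Complex.I ∈ Complex.slitPlane := by
    left
    simpa using hc
  have h1 : ContinuousAt (rt k) ((c : ℂ) + t * Complex.I) := (hasDerivAt_rt k _ hz).continuousAt
  have h2 : ContinuousAt (fun t : ℝ => (c : ℂ) + t * Complex.I) t := by fun_prop
  exact ContinuousAt.comp (f := fun t : ℝ => (c : ℂ) + t * Complex.I) (g := rt k) h1 h2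

theorem wtline_re (k : ℕ) (c t : ℝ) (hc : 0 < c) : 0 < (rt k ((c : ℂ) + t * Complex.I)).re :=
  re_rt_pos k _ (by simpa using hc)

theorem wtline_norm (k : ℕ) (c X u t : ℝ) (hc : 0 < c) (hu : 0 ≤ u) :
    ‖Complex.exp (X * ((c : ℂ) + t * Complex.I) ^ 2) *
      Complex.exp (-(u * rt k ((c : ℂ) + t * Complex.I)))‖ ≤ Real.exp (X * (c ^ 2 - t ^ 2)) := by
  rw [norm_mul, norm_gauss, Complex.norm_exp]
  have h1 : (-((u : ℂ) * rt k ((c : ℂ) + t * Complex.I))).re ≤ 0 := by
    rw [Complex.neg_re, Complex.re_ofReal_mul]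
    have := mul_nonneg hu (wtline_re k c t hc).le
    linarith
  exact mul_le_of_le_one_right (Real.exp_pos _).le (Real.exp_le_one_iff.mpr h1)

/-- `t ↦ rt k (c + it)` is continuous (`c > 0`), `Re (rt k (c+it)) ≥ 0`; so the integrand is
continuous with norm at most `e^{X(c²-t²)}`. -/
theorem wt_line_integrable (k : ℕ) (c X u : ℝ) (hc : 0 < c) (hX : 0 < X) (hu : 0 ≤ u) :
    Integrable (fun t : ℝ => Complex.exp (X * ((c : ℂ) + t * Complex.I) ^ 2) *
      Complex.exp (-(u * rt k ((c : ℂ) + t * Complex.I)))) := by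
  have hcont : Continuous (fun t : ℝ => Complex.exp (X * ((c : ℂ) + t * Complex.I) ^ 2) *
      Complex.exp (-(u * rt k ((c : ℂ) + t * Complex.I)))) := by
    have := wtline_cont k c hc
    fun_prop
  exact (gauss_integrable c X hX).mono' hcont.aestronglyMeasurable
    (Filter.Eventually.of_forall fun t => wtline_norm k c X u t hc hu)

theorem wtline_lev_nonpos (u y : ℝ) (hy : y ≤ 0) : lev u y = 0 := by
  unfold lev
  have h1 : y ^ 3 ≤ 0 := by
    have : y ^ 3 = y * y ^ 2 := by ring
    rw [this]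
    exact mul_nonpos_of_nonpos_of_nonneg hy (sq_nonneg y)
  have h2 : 4 * Real.pi * y ^ 3 ≤ 0 :=
    mul_nonpos_of_nonneg_of_nonpos (by positivity) h1
  rw [Real.sqrt_eq_zero_of_nonpos h2]
  simp

theorem wtline_prod (k : ℕ) (c X u : ℝ) (hc : 0 < c) (hX : 0 < X) (hu : 0 < u) :
    Integrable (Function.uncurry fun (y t : ℝ) => (lev u y : ℂ) *
      (Complex.exp (X * ((c : ℂ) + t * Complex.I) ^ 2) *
        Complex.exp (-(y * rt k ((c : ℂ) + t * Complex.I)))))
      ((volume.restrict (Ioi (0 : ℝ))).prod volume) := by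
  have hdom : Integrable (fun q : ℝ × ℝ => lev u q.1 * Real.exp (X * (c ^ 2 - q.2 ^ 2)))
      ((volume.restrict (Ioi (0 : ℝ))).prod volume) :=
    Integrable.mul_prod (lev_integrable u hu).1 (gauss_integrable c X hX)
  refine hdom.mono' ?_ (Filter.Eventually.of_forall fun q => ?_)
  · have hm1 : Measurable (fun q : ℝ × ℝ => (lev u q.1 : ℂ)) := by
      have h := lev_meas.comp (measurable_const.prodMk measurable_fst :
        Measurable (fun q : ℝ × ℝ => (u, q.1)))
      exact Complex.measurable_ofReal.comp h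
    have hc2 : Continuous (fun q : ℝ × ℝ =>
        (Complex.exp (X * ((c : ℂ) + q.2 * Complex.I) ^ 2) *
        Complex.exp (-(q.1 * rt k ((c : ℂ) + q.2 * Complex.I))))) := by
      have h := (wtline_cont k c hc).comp (continuous_snd : Continuous (Prod.snd : ℝ × ℝ → ℝ))
      have h' : Continuous (fun q : ℝ × ℝ => rt k ((c : ℂ) + q.2 * Complex.I)) := h
      fun_prop
    exact (hm1.mul hc2.measurable).aestronglyMeasurable
  · obtain ⟨y, t⟩ := q
    change ‖(lev u y : ℂ) * (Complex.exp (X * ((c : ℂ) + t * Complex.I) ^ 2) *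
        Complex.exp (-(y * rt k ((c : ℂ) + t * Complex.I))))‖ ≤
      lev u y * Real.exp (X * (c ^ 2 - t ^ 2))
    rcases le_or_gt y 0 with hy | hy
    · rw [wtline_lev_nonpos u y hy]
      simp
    · rw [norm_mul, Complex.norm_real, Real.norm_of_nonneg (lev_nonneg u y hu.le)]
      exact mul_le_mul_of_nonneg_left (wtline_norm k c X y t hc hy.le) (lev_nonneg u y hu.le)

/-- Induction on `k`.  `k = 0`: `integral_cexp_quadratic` with
`X(c+it)² - u(c+it) = -X t² + (2iXc - iu) t + (Xc² - uc)`.  Step: insert the formula for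
`wt k X y` into `wt (k+1) X u = ∫ lev u y wt k X y dy`, exchange the integrals (norm at most
`lev u y e^{X(c²-t²)}`, integrable on the product), and use `lev_laplace_complex` with
`w = rt k (c+it)` (`Re w > 0` by `re_rt_pos`), `rt_succ`. -/
theorem wt_line (k : ℕ) (c X u : ℝ) (hc : 0 < c) (hX : 0 < X) (hu : 0 < u) :
    (wt k X u : ℂ) = (Real.sqrt (X / Real.pi) : ℂ) *
      ∫ t : ℝ, Complex.exp (X * ((c : ℂ) + t * Complex.I) ^ 2) *
        Complex.exp (-(u * rt k ((c : ℂ) + t * Complex.I))) := by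
  induction k generalizing u with
  | zero =>
    simp only [rt_zero]
    rw [wtline_quad c X u hX, ← mul_assoc, ← Complex.ofReal_mul,
      ← Real.sqrt_mul (by positivity : (0 : ℝ) ≤ X / Real.pi)]
    have h1 : X / Real.pi * (Real.pi / X) = 1 := by
      have := Real.pi_pos
      field_simp
    rw [h1, Real.sqrt_one, Complex.ofReal_one, one_mul]
    unfold wt
    push_cast
    rfl
  | succ k ih =>
    have h1 : (wt (k + 1) X u : ℂ) = ∫ y in Ioi (0 : ℝ), ((lev u y * wt k X y : ℝ) : ℂ) := by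
      rw [integral_complex_ofReal]
      rfl
    have h2 : ∫ y in Ioi (0 : ℝ), ((lev u y * wt k X y : ℝ) : ℂ) =
        ∫ y in Ioi (0 : ℝ), (Real.sqrt (X / Real.pi) : ℂ) *
          ∫ t : ℝ, (lev u y : ℂ) * (Complex.exp (X * ((c : ℂ) + t * Complex.I) ^ 2) *
            Complex.exp (-(y * rt k ((c : ℂ) + t * Complex.I)))) := by
      refine setIntegral_congr_fun measurableSet_Ioi fun y hy => ?_
      rw [Complex.ofReal_mul, ih y hy, integral_const_mul]
      ring
    rw [h1, h2, integral_const_mul]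
    congr 1
    rw [integral_integral_swap (wtline_prod k c X u hc hX hu)]
    refine integral_congr_ae (Filter.Eventually.of_forall fun t => ?_)
    simp only
    have h3 := (lev_laplace_complex u hu (rt k ((c : ℂ) + t * Complex.I))
      (wtline_re k c t hc)).2
    rw [rt_succ] at h3
    rw [← h3, ← integral_const_mul]
    refine integral_congr_ae (Filter.Eventually.of_forall fun y => ?_)
    simp only
    rw [mul_comm (rt k ((c : ℂ) + t * Complex.I)) (y : ℂ)]
    ring

end BSDS
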